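import Pool.Agent.J6H31.GA.Ortho

/-!
# Jordan blocks of similitudes and spaces of algebraic classes
-/

set_option autoImplicit false
set_option linter.unusedSectionVars false

namespace Pool.Agent.J6H31.GA

open Finset Polynomial Module Module.End

variable {E : Type} [Field E] {W : Type} [AddCommGroup W] [Module E W]

/-- A vector which generates a Jordan block of size `e + 1`. -/
lemma exists_block (Φ : Module.End E W) {α : E} {T : Submodule E W}
    (hT : ∀ v ∈ T, Φ v ∈ T) (e : ℕ) {x : W} (hxT : x ∈ T) (hx : x ∈ Φ.maxGenEigenspace α)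
    (hne : ((Φ - α • (1 : Module.End E W)) ^ e) x ≠ 0) :
    ∃ v ∈ T, ((Φ - α • (1 : Module.End E W)) ^ e) v ≠ 0 ∧
      ((Φ - α • (1 : Module.End E W)) ^ (e + 1)) v = 0 := by
  classical
  rw [mem_maxGenEigenspace] at hx
  have hTk : ∀ k : ℕ, ((Φ - α • (1 : Module.End E W)) ^ k) x ∈ T := by
    intro k
    induction k with
    | zero => exact hxT
    | succ k ih =>
      rw [pow_succ']
      exact T.sub_mem (hT _ ih) (T.smul_mem _ ih)
  set k := Nat.find hx with hk
  have hk0 : ((Φ - α • (1 : Module.End E W)) ^ k) x = 0 := Nat.find_spec hx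
  have hke : e < k := by
    by_contra hlt
    apply hne
    have h1 : e = (e - k) + k := by omega
    rw [h1, pow_add, Module.End.mul_apply, hk0, map_zero]
  refine ⟨((Φ - α • (1 : Module.End E W)) ^ (k - 1 - e)) x, hTk _, ?_, ?_⟩
  · rw [← Module.End.mul_apply, ← pow_add]
    have h1 : e + (k - 1 - e) = k - 1 := by omega
    rw [h1]
    exact Nat.find_min hx (by omega)
  · rw [← Module.End.mul_apply, ← pow_add]
    have h1 : e + 1 + (k - 1 - e) = k := by omega
    rw [h1]
    exact hk0

/-- The vectors of a Jordan block are linearly independent. -/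
lemma block_independent (ν : Module.End E W) {e : ℕ} {v : W} (h1 : (ν ^ e) v ≠ 0)
    (h2 : (ν ^ (e + 1)) v = 0) : LinearIndependent E (fun i : Fin (e + 1) => (ν ^ (i : ℕ)) v) := by
  rw [Fintype.linearIndependent_iff]
  intro g hg
  have hbig : ∀ k, e + 1 ≤ k → (ν ^ k) v = 0 := by
    intro k hk
    have h3 : k = (k - (e + 1)) + (e + 1) := by omega
    rw [h3, pow_add, Module.End.mul_apply, h2, map_zero]
  have key : ∀ n (hn : n < e + 1), g ⟨n, hn⟩ = 0 := by
    intro n
    induction n using Nat.strong_induction_on with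
    | _ n ih =>
      intro hn
      have h3 := congrArg (ν ^ (e - n)) hg
      rw [map_zero, map_sum, Finset.sum_eq_single (⟨n, hn⟩ : Fin (e + 1))] at h3
      · rw [map_smul, ← Module.End.mul_apply, ← pow_add] at h3
        have h4 : e - n + n = e := by omega
        rw [h4] at h3
        exact (smul_eq_zero.1 h3).resolve_right h1
      · intro i _ hi
        rw [map_smul, ← Module.End.mul_apply, ← pow_add]
        rcases lt_trichotomy (i : ℕ) n with h5 | h5 | h5
        · have := ih i h5 i.2
          rw [Fin.eta] at this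
          rw [this, zero_smul]
        · exact absurd (Fin.ext h5) hi
        · rw [hbig _ (by omega), smul_zero]
      · intro h5
        exact absurd (Finset.mem_univ _) h5
  intro i
  exact key i.1 i.2

/-- The form on a Jordan block of an even size `e + 1`. -/
lemma block_form [CharZero E] (B : LinearMap.BilinForm E W) (hs : ∀ x y, B x y = B y x)
    (Φ : Module.End E W) {α : E} (hα : α ≠ 0) (h : ∀ x y, B (Φ x) (Φ y) = α ^ 2 * B x y) {e : ℕ}
    {v : W} (h2 : ((Φ - α • (1 : Module.End E W)) ^ (e + 1)) v = 0) :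
    (∀ y, B (((Φ - α • (1 : Module.End E W)) ^ e) v) (Φ y - α • y) = 0) ∧
    (Odd e → B (((Φ - α • (1 : Module.End E W)) ^ e) v) v = 0) := by
  set ν := Φ - α • (1 : Module.End E W) with hν
  have hid : ∀ x y, B (ν x) y + B x (ν y) + α⁻¹ * B (ν x) (ν y) = 0 := by
    intro x y
    have h3 := h x y
    have h4 : ∀ z, Φ z = α • z + ν z := by
      intro z
      rw [hν, LinearMap.sub_apply, LinearMap.smul_apply, Module.End.one_apply]
      abel
    rw [h4 x, h4 y] at h3
    simp only [map_add, LinearMap.add_apply, map_smul, LinearMap.smul_apply, smul_eq_mul] at h3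
    have h5 : α * (B (ν x) y + B x (ν y) + α⁻¹ * B (ν x) (ν y)) = 0 := by
      rw [mul_add, mul_add, ← mul_assoc α α⁻¹, mul_inv_cancel₀ hα]
      linear_combination h3
    exact (mul_eq_zero.1 h5).resolve_left hα
  have hbig : ∀ k, e + 1 ≤ k → (ν ^ k) v = 0 := by
    intro k hk
    have h3 : k = (k - (e + 1)) + (e + 1) := by omega
    rw [h3, pow_add, Module.End.mul_apply, h2, map_zero]
  constructor
  · intro y
    have h3 := hid ((ν ^ e) v) y
    rw [← Module.End.mul_apply, ← pow_succ', h2, map_zero, LinearMap.zero_apply,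
      LinearMap.zero_apply, mul_zero, zero_add, add_zero] at h3
    exact h3
  · intro he
    let f : ℕ → ℕ → E := fun a b => B ((ν ^ a) v) ((ν ^ b) v)
    have hf : ∀ a b, f (a + 1) b + f a (b + 1) + α⁻¹ * f (a + 1) (b + 1) = 0 := by
      intro a b
      have h3 := hid ((ν ^ a) v) ((ν ^ b) v)
      simp only [f]
      rw [pow_succ' ν a, pow_succ' ν b]
      exact h3
    have hz : ∀ m s, 2 * e + 1 ≤ s + m → e + 1 ≤ s → ∀ a b, a + b = s → f a b = 0 := by
      intro m
      induction m with
      | zero =>
        intro s hs1 _ a b hab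
        have : e + 1 ≤ a ∨ e + 1 ≤ b := by omega
        simp only [f]
        rcases this with h3 | h3
        · rw [hbig a h3, map_zero, LinearMap.zero_apply]
        · rw [hbig b h3, map_zero]
      | succ m ih =>
        intro s hs1 hs2 a
        induction a with
        | zero =>
          intro b hab
          simp only [f]
          rw [hbig b (by omega), map_zero]
        | succ a iha =>
          intro b hab
          have h3 := hf a b
          rw [iha (b + 1) (by omega), ih (s + 1) (by omega) (by omega) (a + 1) (b + 1) (by omega),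
            mul_zero, add_zero, add_zero] at h3
          exact h3
    have htop : ∀ a b, a + b = e → f a b = (-1) ^ a * f 0 e := by
      intro a
      induction a with
      | zero =>
        intro b hab
        rw [zero_add] at hab
        rw [hab, pow_zero, one_mul]
      | succ a iha =>
        intro b hab
        have h3 := hf a b
        rw [iha (b + 1) (by omega), hz (2 * e) (a + 1 + (b + 1)) (by omega) (by omega) _ _ rfl,
          mul_zero, add_zero] at h3
        rw [pow_succ]
        linear_combination h3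
    have h3 := htop e 0 (by omega)
    have h4 : f 0 e = f e 0 := hs _ _
    rw [h4, he.neg_one_pow] at h3
    have h5 : (2 : E) * f e 0 = 0 := by linear_combination h3
    have h6 := (mul_eq_zero.1 h5).resolve_left two_ne_zero
    exact h6

variable [FiniteDimensional E W] {G : Type} [CommGroup G] [Fintype G]
  {ρ : G →* Module.End E W}

/-- A space `N` of classes which are stable under the group, eigenvectors of Frobenius with the
eigenvalue `α`, on which the form is nondegenerate. -/
structure IsAlgebraic (B : LinearMap.BilinForm E W) (Φ : Module.End E W)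
    (ρ : G →* Module.End E W) (α : E) (N : Submodule E W) : Prop where
  stable : ∀ g, ∀ x ∈ N, ρ g x ∈ N
  eigen : ∀ x ∈ N, Φ x = α • x
  nondeg : ∀ x ∈ N, (∀ y ∈ N, B x y = 0) → x = 0

/-- Jordan blocks on the part of a character. -/
theorem jordan_bound [CharZero E] [IsAlgClosed E] (B : LinearMap.BilinForm E W)
    (hB : B.Nondegenerate) (hs : ∀ x y, B x y = B y x) {Φ : Module.End E W} {α : E} (hα : α ≠ 0)
    (hc : ∀ g, Commute Φ (ρ g)) (hBG : ∀ g x y, B (ρ g x) (ρ g y) = B x y)
    (h : ∀ x y, B (Φ x) (Φ y) = α ^ 2 * B x y) {N : Submodule E W}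
    (hN : IsAlgebraic B Φ ρ α N) (χ : G →* E) {e : ℕ} (he : 1 ≤ e)
    (hdim : finrank E (Φ.maxGenEigenspace α ⊓ eig ρ χ : Submodule E W)
        ≤ finrank E (N ⊓ eig ρ χ : Submodule E W) + e ∨
      (∀ g, χ g ^ 2 = 1) ∧ Odd e ∧ finrank E (Φ.maxGenEigenspace α ⊓ eig ρ χ : Submodule E W)
        ≤ finrank E (N ⊓ eig ρ χ : Submodule E W) + (e + 1)) :
    ∀ x ∈ Φ.maxGenEigenspace α ⊓ eig ρ χ, ((Φ - α • (1 : Module.End E W)) ^ e) x = 0 := by
  classical
  intro x hx
  by_contra hne
  have hrefl : B.IsRefl := fun x y hxy => by rw [hs]; exact hxy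
  have hres : (B.restrict N).Nondegenerate := by
    refine LinearMap.BilinForm.Nondegenerate.ofSeparatingLeft ?_
    intro x hx
    exact Subtype.ext (hN.nondeg x.1 x.2 fun y hy => hx ⟨y, hy⟩)
  have hcompl := LinearMap.BilinForm.isCompl_orthogonal_of_restrict_nondegenerate hrefl hres
  -- stability of the orthogonal complement
  have hG' : ∀ g, ∀ y ∈ B.orthogonal N, ρ g y ∈ B.orthogonal N := by
    intro g y hy
    rw [LinearMap.BilinForm.mem_orthogonal_iff] at hy ⊢
    intro n hn
    have h1 := hBG g (ρ g⁻¹ n) y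
    have h2 : ρ g (ρ g⁻¹ n) = n := by
      rw [← Module.End.mul_apply, ← map_mul, mul_inv_cancel, map_one, Module.End.one_apply]
    rw [h2] at h1
    change B n (ρ g y) = 0
    rw [h1]
    exact hy _ (hN.stable g⁻¹ n hn)
  have hΦ' : ∀ y ∈ B.orthogonal N, Φ y ∈ B.orthogonal N := by
    intro y hy
    rw [LinearMap.BilinForm.mem_orthogonal_iff] at hy ⊢
    intro n hn
    have h1 := h n y
    rw [hN.eigen n hn, map_smul, LinearMap.smul_apply, smul_eq_mul] at h1
    have h2 : B n y = 0 := hy n hn
    rw [h2, mul_zero] at h1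
    exact (mul_eq_zero.1 h1).resolve_left hα
  -- the component of `x` in the orthogonal complement
  obtain ⟨n, hn, v, hv, hnv⟩ := Submodule.mem_sup.1
    (show x ∈ N ⊔ B.orthogonal N by rw [hcompl.sup_eq_top]; exact Submodule.mem_top)
  have hnχ : n ∈ eig ρ χ ∧ v ∈ eig ρ χ := by
    have h1 := mem_eig.1 hx.2
    have h2 : ∀ g, ρ g n - χ g • n = -(ρ g v - χ g • v) := by
      intro g
      have h3 := h1 g
      rw [← hnv, map_add, smul_add] at h3
      rw [neg_sub, sub_eq_sub_iff_add_eq_add, h3]
      abel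
    have h3 : ∀ g, ρ g n - χ g • n = 0 := by
      intro g
      have h4 : ρ g n - χ g • n ∈ N ⊓ B.orthogonal N := by
        refine ⟨N.sub_mem (hN.stable g n hn) (N.smul_mem _ hn), ?_⟩
        rw [SetLike.mem_coe, h2 g]
        exact (B.orthogonal N).neg_mem
          ((B.orthogonal N).sub_mem (hG' g v hv) ((B.orthogonal N).smul_mem _ hv))
      rw [hcompl.inf_eq_bot] at h4
      exact (Submodule.mem_bot E).1 h4
    refine ⟨mem_eig.2 fun g => sub_eq_zero.1 (h3 g), mem_eig.2 fun g => ?_⟩
    have h4 := h2 g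
    rw [h3 g, eq_comm, neg_eq_zero] at h4
    exact sub_eq_zero.1 h4
  have hngen : n ∈ Φ.maxGenEigenspace α :=
    ((Φ.genEigenspace α).mono le_top) (mem_eigenspace_iff.2 (hN.eigen n hn))
  have hvgen : v ∈ Φ.maxGenEigenspace α := by
    have h1 : v = x - n := by rw [← hnv]; abel
    rw [h1]
    exact Submodule.sub_mem _ hx.1 hngen
  set ν := Φ - α • (1 : Module.End E W) with hν
  have hνn : (ν ^ e) n = 0 := by
    obtain ⟨e', rfl⟩ : ∃ e', e = e' + 1 := ⟨e - 1, by omega⟩
    rw [pow_succ, Module.End.mul_apply]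
    have h1 : ν n = 0 := by
      rw [hν, LinearMap.sub_apply, LinearMap.smul_apply, Module.End.one_apply, hN.eigen n hn,
        sub_self]
    rw [h1, map_zero]
  have hvne : (ν ^ e) v ≠ 0 := by
    intro h1
    apply hne
    rw [← hnv, map_add, hνn, h1, add_zero]
  -- the Jordan block
  let T : Submodule E W := B.orthogonal N ⊓ eig ρ χ
  have hT : ∀ y ∈ T, Φ y ∈ T := fun y hy => ⟨hΦ' y hy.1, mapsTo_eig hc χ y hy.2⟩
  obtain ⟨u, hu, hu1, hu2⟩ := exists_block Φ hT e (x := v) ⟨hv, hnχ.2⟩ hvgen hvne
  have hli := block_independent ν hu1 hu2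
  let S : Submodule E W := Submodule.span E (Set.range fun i : Fin (e + 1) => (ν ^ (i : ℕ)) u)
  have hSdim : finrank E S = e + 1 := by
    have h1 := finrank_span_eq_card hli
    rwa [Fintype.card_fin] at h1
  have hpowT : ∀ i, (ν ^ i) u ∈ T := by
    intro i
    induction i with
    | zero => exact hu
    | succ i ih =>
      rw [pow_succ']
      exact T.sub_mem (hT _ ih) (T.smul_mem _ ih)
  have hST : S ≤ T := by
    rw [Submodule.span_le]
    rintro y ⟨i, rfl⟩
    exact hpowT i
  have hpowgen : ∀ i, (ν ^ i) u ∈ Φ.maxGenEigenspace α := by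
    intro i
    rw [mem_maxGenEigenspace]
    refine ⟨e + 1, ?_⟩
    rw [← hν, ← Module.End.mul_apply, ← pow_add, add_comm, pow_add, Module.End.mul_apply, hu2,
      map_zero]
  have hSgen : S ≤ Φ.maxGenEigenspace α := by
    rw [Submodule.span_le]
    rintro y ⟨i, rfl⟩
    exact hpowgen i
  have hdisj : (N ⊓ eig ρ χ) ⊓ S = ⊥ := by
    rw [eq_bot_iff, ← hcompl.inf_eq_bot]
    exact inf_le_inf inf_le_left (hST.trans inf_le_left)
  have hle : (N ⊓ eig ρ χ) ⊔ S ≤ Φ.maxGenEigenspace α ⊓ eig ρ χ := by
    refine sup_le (inf_le_inf_right _ ?_) (le_inf hSgen (hST.trans inf_le_right))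
    intro y hy
    exact ((Φ.genEigenspace α).mono le_top) (mem_eigenspace_iff.2 (hN.eigen y hy))
  have hfin : finrank E (N ⊓ eig ρ χ : Submodule E W) + (e + 1)
      = finrank E ((N ⊓ eig ρ χ) ⊔ S : Submodule E W) := by
    have h1 := Submodule.finrank_sup_add_finrank_inf_eq (N ⊓ eig ρ χ) S
    rw [hdisj, finrank_bot, add_zero, hSdim] at h1
    exact h1.symm
  have hfin2 := Submodule.finrank_mono hle
  rcases hdim with hdim | ⟨hχ2, hodd, hdim⟩
  · omega
  · have heq : (N ⊓ eig ρ χ) ⊔ S = Φ.maxGenEigenspace α ⊓ eig ρ χ :=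
      Submodule.eq_of_le_of_finrank_le hle (by omega)
    obtain ⟨hf1, hf2⟩ := block_form B hs Φ hα h (e := e) (v := u) hu2
    rw [← hν] at hf1 hf2
    set w := (ν ^ e) u with hw
    have hwT : w ∈ T := hpowT e
    have hker : ∀ y ∈ eig ρ χ, B w y = 0 := by
      intro y hy
      have h1 : eig ρ χ = ⨆ β, eig ρ χ ⊓ Φ.maxGenEigenspace β := by
        have h2 := Submodule.inf_iSup_genEigenspace (mapsTo_eig hc χ) ⊤
        have h3 : (⨆ μ, Φ.genEigenspace μ ⊤) = ⊤ := iSup_maxGenEigenspace_eq_top Φ
        rw [h3, inf_top_eq] at h2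
        exact h2
      have hle2 : (⨆ β, eig ρ χ ⊓ Φ.maxGenEigenspace β) ≤ LinearMap.ker (B w) := by
        refine iSup_le fun β => ?_
        by_cases hβ : β = α
        · rw [hβ, inf_comm, ← heq]
          refine sup_le ?_ ?_
          · intro y hy
            rw [LinearMap.mem_ker, hs]
            exact LinearMap.BilinForm.mem_orthogonal_iff.1 hwT.1 y hy.1
          · rw [Submodule.span_le]
            rintro y ⟨i, rfl⟩
            rw [SetLike.mem_coe, LinearMap.mem_ker]
            rcases Nat.eq_zero_or_pos (i : ℕ) with h2 | h2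
            · simp only [h2, pow_zero, Module.End.one_apply]
              exact hf2 hodd
            · obtain ⟨j, hj⟩ : ∃ j, (i : ℕ) = j + 1 := ⟨i - 1, by omega⟩
              simp only [hj, pow_succ', Module.End.mul_apply]
              exact hf1 _
        · intro y hy
          rw [LinearMap.mem_ker]
          refine form_gen B Φ h ?_ (hpowgen e) hy.2
          intro h2
          apply hβ
          rw [pow_two] at h2
          exact mul_left_cancel₀ hα h2
      rw [h1] at hy
      exact hle2 hy
    have hnd := form_part B hB hBG χ hχ2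
    have hw0 : (⟨w, hwT.2⟩ : eig ρ χ) = 0 := hnd.1 _ fun y => hker y.1 y.2
    exact hu1 (congrArg Subtype.val hw0)

end Pool.Agent.J6H31.GA
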