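import Pool.Agent.J6H31.GA.Semi
import Pool.Agent.J6H31.GA.Alg

/-!
# The eigenvalue `q ^ m` on the cohomology of degree `2 m`
-/

set_option autoImplicit false
set_option linter.unusedSectionVars false

namespace Pool.Agent.J6H31.GA

open Finset Polynomial Module Module.End Pool.Agent.W528.HS Pool.Agent.J6H31.AC

section

variable {G : Type} [CommGroup G] {K : Covering G} {E : Type} [Field E] {r : ℕ}

/-- The order of the pole at `T = u` of the zeta function of `Z_A` modulo `p`. -/
noncomputable def Arrangement.mu (D : Arrangement K E r) (p : ℕ) [Fact p.Prime] (u : ZMod p)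
    (A : Finset (Fin r)) : ℤ :=
  ((D.P₁ A).map (Int.castRingHom (ZMod p))).rootMultiplicity u
    - ((D.P₂ A).map (Int.castRingHom (ZMod p))).rootMultiplicity u

/-- `∑ (-1) ^ |A| μ(Z_A)`, the sum over all sets `A` of indices of divisors at which `χ` is
ramified. -/
noncomputable def Arrangement.mult (D : Arrangement K E r) (p : ℕ) [Fact p.Prime] (u : ZMod p)
    (χ : G →* E) : ℤ :=
  ∑ A ∈ (D.ram χ).powerset, (-1) ^ A.card * D.mu p u A

lemma rm_prod {k : Type} [Field k] {ι : Type} (s : Finset ι) (f : ι → k[X]) (u : k)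
    (hf : ∀ i ∈ s, f i ≠ 0) :
    (∏ i ∈ s, f i).rootMultiplicity u = ∑ i ∈ s, (f i).rootMultiplicity u := by
  classical
  induction s using Finset.induction_on with
  | empty =>
    rw [Finset.prod_empty, Finset.sum_empty]
    exact rootMultiplicity_eq_zero (by rw [IsRoot.def, eval_one]; exact one_ne_zero)
  | insert a s ha ih =>
    rw [Finset.prod_insert ha, Finset.sum_insert ha, rootMultiplicity_mul, ih]
    · intro i hi
      exact hf i (Finset.mem_insert_of_mem hi)
    · refine mul_ne_zero (hf a (Finset.mem_insert_self a s)) ?_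
      rw [Finset.prod_ne_zero_iff]
      intro i hi
      exact hf i (Finset.mem_insert_of_mem hi)

/-- The multiplicities in terms of the strata. -/
theorem Arrangement.mult_eq (D : Arrangement K E r) (p : ℕ) [Fact p.Prime] (u : ZMod p)
    (χ : G →* E) :
    D.mult p u χ = ((D.num (D.ram χ)).map (Int.castRingHom (ZMod p))).rootMultiplicity u
      - ((D.den (D.ram χ)).map (Int.castRingHom (ZMod p))).rootMultiplicity u := by
  classical
  have hne : ∀ (P : ℤ[X]), P.coeff 0 = 1 → P.map (Int.castRingHom (ZMod p)) ≠ 0 := fun P hP =>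
    map_ne_zero_of_coeff hP (ZMod p)
  have h1 : ((D.num (D.ram χ)).map (Int.castRingHom (ZMod p))).rootMultiplicity u
      = ∑ A ∈ (D.ram χ).powerset,
        ((if Even A.card then D.P₁ A else D.P₂ A).map (Int.castRingHom (ZMod p))).rootMultiplicity
          u := by
    rw [Arrangement.num, Polynomial.map_prod]
    refine rm_prod _ _ u fun A _ => ?_
    split_ifs
    · exact hne _ (D.fac₁ A).1
    · exact hne _ (D.fac₂ A).1
  have h2 : ((D.den (D.ram χ)).map (Int.castRingHom (ZMod p))).rootMultiplicity u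
      = ∑ A ∈ (D.ram χ).powerset,
        ((if Even A.card then D.P₂ A else D.P₁ A).map (Int.castRingHom (ZMod p))).rootMultiplicity
          u := by
    rw [Arrangement.den, Polynomial.map_prod]
    refine rm_prod _ _ u fun A _ => ?_
    split_ifs
    · exact hne _ (D.fac₂ A).1
    · exact hne _ (D.fac₁ A).1
  rw [h1, h2, Arrangement.mult]
  push_cast
  rw [← Finset.sum_sub_distrib]
  refine Finset.sum_congr rfl fun A _ => ?_
  by_cases h : Even A.card
  · rw [if_pos h, if_pos h, h.neg_one_pow, one_mul, Arrangement.mu]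
  · rw [if_neg h, if_neg h, (Nat.not_even_iff_odd.1 h).neg_one_pow, Arrangement.mu]
    ring

end

lemma sum_count_le {E : Type} [Field E] {k : Type} [Field k] [DecidableEq k]
    [DecidableEq (Oint E)] (θ : Oint E →+* k)
    (A' : Multiset (Oint E)) {u : k} (T : Finset (Oint E)) (hT : ∀ x ∈ T, θ x = u) :
    ∑ x ∈ T, A'.count x ≤ (A'.filter fun x => θ x = u).card := by
  classical
  have h1 : ∀ x ∈ T, A'.count x = (A'.filter fun x => θ x = u).count x := by
    intro x hx
    rw [Multiset.count_filter, if_pos (hT x hx)]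
  rw [Finset.sum_congr rfl h1]
  have h2 : ∑ x ∈ T ∪ (A'.filter fun x => θ x = u).toFinset, (A'.filter fun x => θ x = u).count x
      = (A'.filter fun x => θ x = u).card := by
    refine Multiset.sum_count_eq_card fun x hx => ?_
    rw [Finset.mem_union, Multiset.mem_toFinset]
    exact Or.inr hx
  rw [← h2]
  exact Finset.sum_le_sum_of_subset Finset.subset_union_left

variable {G : Type} [CommGroup G] [Fintype G] {K : Covering G} {E : Type} [Field E] [CharZero E]
  [IsAlgClosed E] {r : ℕ} {V : Type} [AddCommGroup V] [Module E V] [FiniteDimensional E V]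
  {Φ : Module.End E V} {ρ : G →* Module.End E V}

/-- The eigenvalues of Frobenius on the part of `χ` whose reduction is a given element. -/
theorem card_eq_mult {p s d : ℕ} [Fact p.Prime] (hG : ∀ g : G, g ^ p ^ s = 1)
    (D : Arrangement K E r) {c : ℕ → E} (hd : Even d) (h : IsMiddle K d c Φ ρ) {χ : G →* E}
    (hχ1 : χ ≠ 1)
    (k : Type) [Field k] [DecidableEq k] [Algebra (ZMod p) k] (θ : Oint E →+* k)
    (A' : Multiset (Oint E))
    (hA' : A'.map Subtype.val = (part h.comm χ).charpoly.roots) {a : ZMod p} (ha : a ≠ 0) :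
    ((A'.filter fun x => θ x = algebraMap (ZMod p) k a).card : ℤ) ≤ D.mult p a⁻¹ χ := by
  classical
  have hp : p.Prime := Fact.out
  have : CharP k p := charP_of_injective_algebraMap (algebraMap (ZMod p) k).injective p
  have h1 := ((part_congr hp hG D h hχ1).2 k θ A' hA').1 hd
  have hu : algebraMap (ZMod p) k a ≠ 0 := (_root_.map_ne_zero _).2 ha
  have h2 := card_filter_le θ A' rfl hu
  obtain ⟨s₁, s₂, N₁, N₂, l₁, l₂, -⟩ := D.link χ
  have hι : ∀ P : ℤ[X], P.map (Int.castRingHom k)
      = (P.map (Int.castRingHom (ZMod p))).map (algebraMap (ZMod p) k) := by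
    intro P
    rw [Polynomial.map_map]
    congr 1
    exact RingHom.ext_int _ _
  have h3 := congrArg (rootMultiplicity (algebraMap (ZMod p) k a)⁻¹) h1
  rw [rootMultiplicity_mul (mul_ne_zero (rm_lift θ A').2 (map_ne_zero_of_coeff l₂.1 k)), hι, hι,
    ← map_inv₀, ← eq_rootMultiplicity_map (algebraMap (ZMod p) k).injective,
    ← eq_rootMultiplicity_map (algebraMap (ZMod p) k).injective, map_inv₀] at h3
  rw [D.mult_eq]
  omega

/-- `χ² = 1`, and the determinant of `Φ` on the part of `χ` is `-α ^ dim`. -/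
def MinusDet (Φ : Module.End E V) (ρ : G →* Module.End E V) (α : E) (χ : G →* E) : Prop :=
  (∀ g, χ g ^ 2 = 1) ∧ ∃ hc : ∀ g, Commute Φ (ρ g),
    LinearMap.det (part hc χ) = -α ^ finrank E (eig ρ χ)

open Classical in
/-- The correction by the sign of the functional equation of a quadratic character, for `p = 2`. -/
noncomputable def detTerm (Φ : Module.End E V) (ρ : G →* Module.End E V) (α : E) (p : ℕ)
    (χ : G →* E) : ℕ :=
  if p = 2 ∧ MinusDet Φ ρ α χ then 1 else 0

lemma theta_pow {k : Type} [Field k] (θ : Oint E →+* k) {q m : ℕ} {α : E}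
    (hα : α = (q : E) ^ m) : ∃ h : α ∈ Oint E, θ ⟨α, h⟩ = ((q : ℕ) : k) ^ m := by
  have h1 : α ∈ Oint E := by
    rw [hα]
    exact (Oint E).pow_mem (natCast_mem (Oint E) q) m
  refine ⟨h1, ?_⟩
  have h2 : (⟨α, h1⟩ : Oint E) = ((q : ℕ) : Oint E) ^ m := by
    apply Subtype.ext
    push_cast
    exact hα
  rw [h2, map_pow, map_natCast]

/-- The multiplicity of the eigenvalue `q ^ m`. -/
theorem gen_bound {p s d q m : ℕ} [hfact : Fact p.Prime] (hq : ¬ p ∣ q)
    (hG : ∀ g : G, g ^ p ^ s = 1) (D : Arrangement K E r) {c : ℕ → E} (hd : d = 2 * m)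
    (h : IsMiddle K d c Φ ρ) (B : LinearMap.BilinForm E V)
    (hB : B.Nondegenerate) (hBG : ∀ g x y, B (ρ g x) (ρ g y) = B x y)
    (hBΦ : ∀ x y, B (Φ x) (Φ y) = (q : E) ^ d * B x y) {χ : G →* E} (hχ1 : χ ≠ 1) {α : E}
    (hα : α = (q : E) ^ m) :
    ((finrank E (Φ.maxGenEigenspace α ⊓ eig ρ χ : Submodule E V) + detTerm Φ ρ α p χ : ℕ) : ℤ)
      ≤ D.mult p (((q : ZMod p) ^ m)⁻¹) χ := by
  classical
  have hp : p.Prime := Fact.out
  have hq0 : (q : E) ≠ 0 := by
    intro h0
    have h1 : q = 0 := by exact_mod_cast h0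
    rw [h1] at hq
    exact hq (dvd_zero p)
  have hα0 : α ≠ 0 := by rw [hα]; exact pow_ne_zero _ hq0
  have hqp : (q : ZMod p) ^ m ≠ 0 := by
    refine pow_ne_zero _ ?_
    rw [Ne, ZMod.natCast_eq_zero_iff]
    exact hq
  have heven : Even d := ⟨m, by omega⟩
  obtain ⟨k, _, _, ⟨θ⟩⟩ := Pool.Agent.W804.HS.RD.main E p hp
  letI : Algebra (ZMod p) k := ZMod.algebra k p
  set Ψ := part h.comm χ with hΨ
  have hint := (part_congr hp hG D h hχ1).1
  obtain ⟨A', hA'⟩ := lift_mult hint
  have hmain := card_eq_mult hG D heven h hχ1 k θ A' hA' hqp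
  obtain ⟨hαi, hθα⟩ := theta_pow θ (q := q) (m := m) hα
  have hqk : algebraMap (ZMod p) k ((q : ZMod p) ^ m) = ((q : ℕ) : k) ^ m := by
    rw [map_pow, map_natCast]
  have hcount : finrank E (Φ.maxGenEigenspace α ⊓ eig ρ χ : Submodule E V)
      = A'.count ⟨α, hαi⟩ := by
    rw [dim_part h.comm, LinearMap.finrank_maxGenEigenspace_eq, ← count_roots, ← hA']
    exact Multiset.count_map_eq_count' Subtype.val A' Subtype.val_injective ⟨α, hαi⟩
  refine le_trans ?_ hmain
  rw [hcount]
  refine Int.ofNat_le.2 ?_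
  by_cases hsign : p = 2 ∧ MinusDet Φ ρ α χ
  · rw [detTerm, if_pos hsign]
    obtain ⟨rfl, hχ2, _, hdet⟩ := hsign
    have hroot : Ψ.charpoly.IsRoot (-α) :=
      neg_eigen (B.restrict (eig ρ χ)) (form_part B hB hBG χ hχ2) Ψ hα0 (fun x y => by
        change B (Φ x.1) (Φ y.1) = _
        rw [hBΦ, hα, hd, ← pow_mul, mul_comm m 2]
        rfl) hdet
    have hβi : -α ∈ Oint E := (Oint E).neg_mem hαi
    have hθβ : θ ⟨-α, hβi⟩ = algebraMap (ZMod 2) k ((q : ZMod 2) ^ m) := by
      have h1 : (⟨-α, hβi⟩ : Oint E) = -⟨α, hαi⟩ := rfl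
      rw [h1, map_neg, hθα, hqk, CharTwo.neg_eq]
    have hne : (⟨α, hαi⟩ : Oint E) ≠ ⟨-α, hβi⟩ := by
      intro h0
      have h1 : α = -α := congrArg Subtype.val h0
      have h2 : (2 : E) * α = 0 := by linear_combination h1
      exact (mul_ne_zero two_ne_zero hα0) h2
    have h1 := sum_count_le θ A' (u := algebraMap (ZMod 2) k ((q : ZMod 2) ^ m))
      {⟨α, hαi⟩, ⟨-α, hβi⟩} (by
        intro x hx
        rw [Finset.mem_insert, Finset.mem_singleton] at hx
        rcases hx with rfl | rfl
        · rw [hθα, hqk]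
        · exact hθβ)
    rw [Finset.sum_pair hne] at h1
    have h2 : 0 < A'.count ⟨-α, hβi⟩ := by
      have h3 : A'.count ⟨-α, hβi⟩ = (A'.map Subtype.val).count (-α) :=
        (Multiset.count_map_eq_count' Subtype.val A' Subtype.val_injective ⟨-α, hβi⟩).symm
      rw [h3, hA', Multiset.count_pos, mem_roots (LinearMap.charpoly_monic _).ne_zero]
      exact hroot
    omega
  · rw [detTerm, if_neg hsign, add_zero]
    have h1 := sum_count_le θ A' (u := algebraMap (ZMod p) k ((q : ZMod p) ^ m))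
      {⟨α, hαi⟩} (by
        intro x hx
        rw [Finset.mem_singleton] at hx
        rw [hx, hθα, hqk])
    rwa [Finset.sum_singleton] at h1

/-- `R = (1 - a T) ^ j R₁` with a squarefree polynomial `R₁` which does not vanish at `1 / a`. -/
def AlmostSquarefree (p : ℕ) [Fact p.Prime] (a : ZMod p) (j : ℕ) (R : (ZMod p)[X]) : Prop :=
  ∃ R₁ : (ZMod p)[X], Squarefree R₁ ∧ R₁.eval a⁻¹ ≠ 0 ∧ R = (1 - C a * X) ^ j * R₁

open Classical in
lemma AlmostSquarefree.mult_le {p : ℕ} [Fact p.Prime] {R : (ZMod p)[X]} {a : ZMod p} (ha : a ≠ 0)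
    {j : ℕ} (hR : AlmostSquarefree p a j R) (k : Type) [Field k] [Algebra (ZMod p) k] (u : k) :
    (R.map (algebraMap (ZMod p) k)).rootMultiplicity u
      ≤ if u = (algebraMap (ZMod p) k a)⁻¹ then j else 1 := by
  obtain ⟨R₁, h1, h2, rfl⟩ := hR
  have h10 : R₁ ≠ 0 := h1.ne_zero
  have hR₁ := multLE_of_squarefree h1 k u
  have hR₁0 : R₁.map (algebraMap (ZMod p) k) ≠ 0 :=
    (Polynomial.map_ne_zero_iff (algebraMap (ZMod p) k).injective).2 h10
  set b := algebraMap (ZMod p) k a with hb
  have hb0 : b ≠ 0 := (_root_.map_ne_zero _).2 ha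
  have hX : (1 - C b * X : k[X]) = C (-b) * (X - C b⁻¹) := by
    rw [mul_sub, ← C_mul, neg_mul, mul_inv_cancel₀ hb0, C_neg, C_neg, C_1]
    ring
  have hX0 : (1 - C b * X : k[X]) ≠ 0 := by
    rw [hX]
    exact mul_ne_zero (C_ne_zero.2 (neg_ne_zero.2 hb0)) (X_sub_C_ne_zero _)
  rw [Polynomial.map_mul, Polynomial.map_pow, Polynomial.map_sub, Polynomial.map_one,
    Polynomial.map_mul, Polynomial.map_C, Polynomial.map_X, ← hb]
  rw [rootMultiplicity_mul (mul_ne_zero (pow_ne_zero _ hX0) hR₁0)]
  have hsq : ((1 - C b * X : k[X]) ^ j).rootMultiplicity u = if u = b⁻¹ then j else 0 := by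
    rw [hX, mul_pow, ← C_pow, rootMultiplicity_mul (mul_ne_zero
      (C_ne_zero.2 (pow_ne_zero _ (neg_ne_zero.2 hb0))) (pow_ne_zero _ (X_sub_C_ne_zero _))),
      rootMultiplicity_C, zero_add]
    split_ifs with hu
    · rw [hu, rootMultiplicity_X_sub_C_pow]
    · refine rootMultiplicity_eq_zero ?_
      rw [IsRoot.def, eval_pow, eval_sub, eval_X, eval_C]
      exact pow_ne_zero _ (sub_ne_zero.2 hu)
  rw [hsq]
  split_ifs with hu
  · have h3 : (R₁.map (algebraMap (ZMod p) k)).rootMultiplicity u = 0 := by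
      refine rootMultiplicity_eq_zero ?_
      rw [hu, hb, ← map_inv₀, IsRoot.def, eval_map_algebraMap, aeval_algebraMap_apply]
      intro h4
      apply h2
      rw [_root_.map_eq_zero] at h4
      simpa using h4
    omega
  · omega

/-- Semisimplicity on the part of `χ`, given algebraic classes. -/
theorem full_part {p s d q m : ℕ} [hfact : Fact p.Prime] (hq : ¬ p ∣ q)
    (hG : ∀ g : G, g ^ p ^ s = 1) (D : Arrangement K E r) {c : ℕ → E} (hd : d = 2 * m)
    (h : IsMiddle K d c Φ ρ) (B : LinearMap.BilinForm E V)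
    (hB : B.Nondegenerate) (hs : ∀ x y, B x y = B y x) (hBG : ∀ g x y, B (ρ g x) (ρ g y) = B x y)
    (hBΦ : ∀ x y, B (Φ x) (Φ y) = (q : E) ^ d * B x y) {χ : G →* E} (hχ1 : χ ≠ 1) {α : E}
    (hα : α = (q : E) ^ m) {N : Submodule E V} (hN : IsAlgebraic B Φ ρ α N) {j : ℕ}
    (hR : AlmostSquarefree p ((q : ZMod p) ^ m) j (D.red p d χ))
    (hj : j ≤ finrank E (N ⊓ eig ρ χ : Submodule E V) + 1 ∨
      (∀ g, χ g ^ 2 = 1) ∧ j ≤ finrank E (N ⊓ eig ρ χ : Submodule E V) + 2) (γ : E) :
    (part h.comm χ).maxGenEigenspace γ ≤ (part h.comm χ).eigenspace γ := by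
  classical
  have hp : p.Prime := Fact.out
  have hq0 : (q : E) ≠ 0 := by
    intro h0
    have h1 : q = 0 := by exact_mod_cast h0
    rw [h1] at hq
    exact hq (dvd_zero p)
  have hα0 : α ≠ 0 := by rw [hα]; exact pow_ne_zero _ hq0
  have hα2 : α ^ 2 = (q : E) ^ d := by rw [hα, hd, ← pow_mul, mul_comm]
  have hqp : (q : ZMod p) ^ m ≠ 0 := by
    refine pow_ne_zero _ ?_
    rw [Ne, ZMod.natCast_eq_zero_iff]
    exact hq
  have heven : Even d := ⟨m, by omega⟩
  obtain ⟨k, _, _, ⟨θ⟩⟩ := Pool.Agent.W804.HS.RD.main E p hp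
  letI : Algebra (ZMod p) k := ZMod.algebra k p
  set Ψ := part h.comm χ with hΨ
  have hint := (part_congr hp hG D h hχ1).1
  obtain ⟨A', hA'⟩ := lift_mult hint
  have hred := red_eq hG D h hχ1 k θ A' hA'
  obtain ⟨hαi, hθα⟩ := theta_pow θ (q := q) (m := m) hα
  have hqk : algebraMap (ZMod p) k ((q : ZMod p) ^ m) = ((q : ℕ) : k) ^ m := by
    rw [map_pow, map_natCast]
  set t : k := algebraMap (ZMod p) k ((q : ZMod p) ^ m) with ht
  have ht0 : t ≠ 0 := (_root_.map_ne_zero _).2 hqp
  have hθα' : θ ⟨α, hαi⟩ = t := by rw [hθα, hqk]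
  have hcnt : ∀ x : Oint E, A'.count x = Ψ.charpoly.roots.count x.1 := by
    intro x
    rw [← hA']
    exact (Multiset.count_map_eq_count' Subtype.val A' Subtype.val_injective x).symm
  have hcount : finrank E (Φ.maxGenEigenspace α ⊓ eig ρ χ : Submodule E V)
      = A'.count ⟨α, hαi⟩ := by
    rw [dim_part h.comm, LinearMap.finrank_maxGenEigenspace_eq, ← count_roots, hcnt]
  have hNle : finrank E (N ⊓ eig ρ χ : Submodule E V) ≤ A'.count ⟨α, hαi⟩ := by
    rw [← hcount]
    refine Submodule.finrank_mono (inf_le_inf_right _ fun y hy => ?_)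
    exact ((Φ.genEigenspace α).mono le_top) (mem_eigenspace_iff.2 (hN.eigen y hy))
  have hmult := hR.mult_le hqp k t⁻¹
  rw [if_pos rfl] at hmult
  have hfilter := (card_filter_le θ A' hred ht0).trans hmult
  by_cases hγ : γ ∈ Ψ.charpoly.roots
  swap
  · refine gen_le_of_one Ψ γ ?_
    rw [LinearMap.finrank_maxGenEigenspace_eq, ← count_roots, Multiset.count_eq_zero_of_notMem hγ]
    exact Nat.zero_le _
  have hγi := hint γ hγ
  have hdimγ : finrank E (Ψ.maxGenEigenspace γ) = A'.count ⟨γ, hγi⟩ := by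
    rw [LinearMap.finrank_maxGenEigenspace_eq, ← count_roots, hcnt]
  have hdual : ∀ χ' : G →* E, (∀ g, χ g * χ' g = 1) → ∃ β : E, γ * β = (q : E) ^ d ∧
      (part h.comm χ').charpoly.IsRoot β := fun χ' hχ' =>
    dual_eigen h.comm B hB hBG (pow_ne_zero _ hq0) hBΦ χ χ' hχ'
      ((mem_roots (LinearMap.charpoly_monic Ψ).ne_zero).1 hγ)
  by_cases hγα : γ = α
  · -- the eigenvalue `q ^ m`
    have h1 := jordan_bound B hB hs hα0 h.comm hBG (fun x y => by rw [hBΦ, hα2]) hN χ
      (e := 1) le_rfl (by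
        rw [hcount]
        have h2 := sum_count_le θ A' (u := t) {⟨α, hαi⟩} (by
          intro x hx
          rw [Finset.mem_singleton] at hx
          rw [hx, hθα'])
        rw [Finset.sum_singleton] at h2
        rcases hj with h3 | ⟨h3, h4⟩
        · left
          omega
        · right
          exact ⟨h3, odd_one, by omega⟩)
    intro x hx
    rw [mem_eigenspace_iff]
    have hx' : x.1 ∈ Φ.maxGenEigenspace α ⊓ eig ρ χ := by
      refine ⟨?_, x.2⟩
      have h2 : Ψ.maxGenEigenspace γ
          = (Φ.maxGenEigenspace γ).comap (eig ρ χ).subtype :=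
        Module.End.genEigenspace_restrict Φ (eig ρ χ) ⊤ γ (mapsTo_eig h.comm χ)
      rw [h2, hγα] at hx
      exact hx
    have h2 := h1 x.1 hx'
    rw [pow_one] at h2
    apply Subtype.ext
    rw [hγα]
    exact sub_eq_zero.1 h2
  by_cases hθγ : θ ⟨γ, hγi⟩ = t
  swap
  · -- the other residue classes
    refine gen_le_of_one Ψ γ ?_
    have hθ0 : θ ⟨γ, hγi⟩ ≠ 0 := by
      -- a unit
      let χ' : G →* E :=
        { toFun := fun g => χ g⁻¹
          map_one' := by rw [inv_one, map_one]
          map_mul' := fun a b => by rw [mul_inv, map_mul] }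
      have hχ' : ∀ g, χ g * χ' g = 1 := fun g => by
        change χ g * χ g⁻¹ = 1
        rw [← map_mul, mul_inv_cancel, map_one]
      have hχ'1 : χ' ≠ 1 := by
        intro h0
        apply hχ1
        ext g
        have h1 := hχ' g
        rw [h0, MonoidHom.one_apply, mul_one] at h1
        rw [h1, MonoidHom.one_apply]
      obtain ⟨β, hγβ, hβ⟩ := hdual χ' hχ'
      have hβi := (part_congr hp hG D h hχ'1).1 β
        ((mem_roots (LinearMap.charpoly_monic (part h.comm χ')).ne_zero).2 hβ)
      intro h0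
      have h1 : (⟨γ, hγi⟩ : Oint E) * ⟨β, hβi⟩ = ((q : ℕ) : Oint E) ^ d := by
        apply Subtype.ext
        push_cast
        exact hγβ
      have h2 := congrArg θ h1
      rw [map_mul, h0, zero_mul, map_pow, map_natCast] at h2
      have h3 : ((q : ℕ) : k) = 0 := by
        by_contra hne
        exact pow_ne_zero d hne h2.symm
      rw [CharP.cast_eq_zero_iff k p] at h3
      exact hq h3
    have h1 := card_filter_le θ A' hred hθ0
    have h2 := hR.mult_le hqp k (θ ⟨γ, hγi⟩)⁻¹
    rw [if_neg (fun h0 => hθγ (inv_injective h0))] at h2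
    have h3 := sum_count_le θ A' (u := θ ⟨γ, hγi⟩) {⟨γ, hγi⟩} (by
      intro x hx
      rw [Finset.mem_singleton] at hx
      rw [hx])
    rw [Finset.sum_singleton] at h3
    rw [hdimγ]
    omega
  · have hne1 : (⟨γ, hγi⟩ : Oint E) ≠ ⟨α, hαi⟩ := fun h0 => hγα (congrArg Subtype.val h0)
    have h1 := sum_count_le θ A' (u := t) {⟨γ, hγi⟩, ⟨α, hαi⟩} (by
      intro x hx
      rw [Finset.mem_insert, Finset.mem_singleton] at hx
      rcases hx with rfl | rfl
      · exact hθγ
      · exact hθα')
    rw [Finset.sum_pair hne1] at h1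
    rcases hj with hj | ⟨hχ2, hj⟩
    · refine gen_le_of_one Ψ γ ?_
      rw [hdimγ]
      omega
    · -- the prime is two
      have hp2 : p = 2 := by
        obtain ⟨g, hg⟩ : ∃ g, χ g ≠ 1 := by
          by_contra hcon
          push Not at hcon
          exact hχ1 (MonoidHom.ext hcon)
        by_contra hne
        have hodd : Odd (p ^ s) := (hp.odd_of_ne_two hne).pow
        obtain ⟨m', hm'⟩ := hodd
        apply hg
        have h1 : χ g ^ p ^ s = 1 := by rw [← map_pow, hG, map_one]
        rw [hm', pow_add, pow_mul, hχ2, one_pow, one_mul, pow_one] at h1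
        exact h1
      have hqk1 : ((q : ℕ) : k) = 1 := by
        have h2 : (q : ZMod p) = 1 := by
          subst hp2
          have h3 : (q : ZMod 2) = ((1 : ℕ) : ZMod 2) := by
            rw [ZMod.natCast_eq_natCast_iff]
            unfold Nat.ModEq
            omega
          rw [h3, Nat.cast_one]
        have h3 := congrArg (algebraMap (ZMod p) k) h2
        rwa [map_natCast, map_one] at h3
      have ht1 : t = 1 := by rw [hqk, hqk1, one_pow]
      by_cases hγγ : γ * γ = (q : E) ^ d
      · refine ortho_semisimple (B.restrict (eig ρ χ)) (form_part B hB hBG χ hχ2)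
          (fun x y => hs x.1 y.1) Ψ (pow_ne_zero _ hq0)
          (fun x y => hBΦ x.1 y.1) hγγ ⊥ bot_le (fun x hx _ => (Submodule.mem_bot E).1 hx) ?_
        rw [finrank_bot, zero_add, hdimγ]
        omega
      · have hχχ : ∀ g, χ g * χ g = 1 := fun g => by rw [← pow_two, hχ2]
        obtain ⟨β, hγβ, hβ⟩ := hdual χ hχχ
        have hβr := (mem_roots (LinearMap.charpoly_monic Ψ).ne_zero).2 hβ
        have hβi := hint β hβr
        have hθβ : θ ⟨β, hβi⟩ = t := by
          have h2 : (⟨γ, hγi⟩ : Oint E) * ⟨β, hβi⟩ = ((q : ℕ) : Oint E) ^ d := by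
            apply Subtype.ext
            push_cast
            exact hγβ
          have h3 := congrArg θ h2
          rw [map_mul, hθγ, map_pow, map_natCast, hqk1, one_pow, ht1, one_mul] at h3
          rw [h3, ht1]
        have hne2 : (⟨γ, hγi⟩ : Oint E) ≠ ⟨β, hβi⟩ := by
          intro h0
          apply hγγ
          have h3 : γ = β := congrArg Subtype.val h0
          rw [← h3] at hγβ
          exact hγβ
        have hne3 : (⟨β, hβi⟩ : Oint E) ≠ ⟨α, hαi⟩ := by
          intro h0
          have h3 : β = α := congrArg Subtype.val h0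
          apply hγα
          rw [h3, ← hα2, pow_two] at hγβ
          exact mul_right_cancel₀ hα0 hγβ
        have h2 := sum_count_le θ A' (u := t) {⟨γ, hγi⟩, ⟨β, hβi⟩, ⟨α, hαi⟩} (by
          intro x hx
          rw [Finset.mem_insert, Finset.mem_insert, Finset.mem_singleton] at hx
          rcases hx with rfl | rfl | rfl
          · exact hθγ
          · exact hθβ
          · exact hθα')
        rw [Finset.sum_insert (by
          rw [Finset.mem_insert, Finset.mem_singleton]
          rintro (h3 | h3)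
          · exact hne2 h3
          · exact hne1 h3), Finset.sum_pair hne3] at h2
        have h3 : 0 < A'.count ⟨β, hβi⟩ := by
          rw [hcnt, Multiset.count_pos]
          exact hβr
        refine gen_le_of_one Ψ γ ?_
        rw [hdimγ]
        omega

end Pool.Agent.J6H31.GA
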