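import Pool.Agent.J6H31.GA.Final

/-!
# Varieties of dimension `n` with an action of a finite abelian `p`-group
-/

set_option autoImplicit false
set_option linter.unusedSectionVars false

namespace Pool.Agent.J6H31.GA

open Finset Polynomial Module Module.End Pool.Agent.W528.HS Pool.Agent.J6H31.AC

/-- Closed subsets `Z_j` of the quotient `Y` which contain the branch locus, with inertia groups `I_j`:
the stabilizer of a point `x` is generated by the `I_j` with `π(x) ∈ Z_j`. For every set `A` of indices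
the zeta function of the intersection `Z_A` of the `Z_j`, `j ∈ A`, is `P₂ A / P₁ A` (`Z_∅ = Y`). -/
structure Arrangement {G : Type} [CommGroup G] (K : Covering G) (E : Type) [Field E]
    (r : ℕ) where
  Z : Fin r → Set K.Y
  I : Fin r → Subgroup G
  stab : ∀ x : K.X, MulAction.stabilizer G x = ⨆ j : Fin r, ⨆ _ : K.π x ∈ Z j, I j
  P₁ : Finset (Fin r) → ℤ[X]
  P₂ : Finset (Fin r) → ℤ[X]
  M₁ : Finset (Fin r) → Multiset E
  M₂ : Finset (Fin r) → Multiset E
  fac₁ : ∀ A, IsFactored (P₁ A) (M₁ A)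
  fac₂ : ∀ A, IsFactored (P₂ A) (M₂ A)
  count : ∀ (A : Finset (Fin r)) (n : ℕ), 0 < n →
    (fixedPoints K.FY (⋂ j ∈ A, Z j) n : E) = powerSum (M₁ A) n - powerSum (M₂ A) n

/-- `V` with the Frobenius `Φ` and the action `ρ` of `G` has the properties of the cohomology in the
middle degree `d` of a variety such that `G` acts trivially on the cohomology in the other degrees:
the actions commute, and the Lefschetz formula holds for the number of the fixed points of
`F ^ n ∘ g`, where `c n` is the contribution of the other degrees. -/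
structure IsMiddle {G : Type} [CommGroup G] (K : Covering G) (d : ℕ) {E : Type} [Field E]
    (c : ℕ → E) {V : Type} [AddCommGroup V] [Module E V] (Φ : Module.End E V)
    (ρ : G →* Module.End E V) : Prop where
  comm : ∀ g, Commute Φ (ρ g)
  lefschetz : ∀ n, 0 < n → ∀ g : G, (Set.ncard {x : K.X | K.FX^[n] (g • x) = x} : E)
    = c n + (-1) ^ d * LinearMap.trace E V (Φ ^ n * ρ g)

variable {G : Type} [CommGroup G] {K : Covering G} {E : Type} [Field E] {r : ℕ}

open Classical in
/-- The divisors at which the character `χ` is ramified. -/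
noncomputable def Arrangement.ram (D : Arrangement K E r) (χ : G →* E) : Finset (Fin r) :=
  univ.filter fun j => ∃ g ∈ D.I j, χ g ≠ 1

/-- The product of the `P₁ A`, `|A|` even, and the `P₂ A`, `|A|` odd, `A ⊆ J`. -/
noncomputable def Arrangement.num (D : Arrangement K E r) (J : Finset (Fin r)) : ℤ[X] :=
  ∏ A ∈ J.powerset, if Even A.card then D.P₁ A else D.P₂ A

/-- The product of the `P₂ A`, `|A|` even, and the `P₁ A`, `|A|` odd, `A ⊆ J`. -/
noncomputable def Arrangement.den (D : Arrangement K E r) (J : Finset (Fin r)) : ℤ[X] :=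
  ∏ A ∈ J.powerset, if Even A.card then D.P₂ A else D.P₁ A

lemma Arrangement.unr_iff (D : Arrangement K E r) (χ : G →* E) (y : K.Y) :
    K.unr χ y ↔ ∀ j ∈ D.ram χ, y ∉ D.Z j := by
  classical
  constructor
  · intro h j hj hy
    rw [Arrangement.ram, Finset.mem_filter] at hj
    obtain ⟨-, g, hg, hg1⟩ := hj
    obtain ⟨x, hx⟩ := K.surj y
    apply hg1
    refine h x hx g ?_
    have h1 : g ∈ MulAction.stabilizer G x := by
      rw [D.stab x]
      have h2 : D.I j ≤ ⨆ j : Fin r, ⨆ _ : K.π x ∈ D.Z j, D.I j :=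
        le_iSup₂_of_le j (by rw [hx]; exact hy) le_rfl
      exact h2 hg
    exact h1
  · intro h x hx g hg
    have h1 : g ∈ MulAction.stabilizer G x := hg
    rw [D.stab x] at h1
    have hker : (⨆ j : Fin r, ⨆ _ : K.π x ∈ D.Z j, D.I j)
        ≤ (MonoidHom.toHomUnits χ).ker := by
      refine iSup₂_le fun j hj g hg => ?_
      rw [MonoidHom.mem_ker]
      apply Units.ext
      rw [MonoidHom.coe_toHomUnits, Units.val_one]
      by_contra hg1
      refine h j ?_ (by rw [← hx]; exact hj)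
      rw [Arrangement.ram, Finset.mem_filter]
      exact ⟨mem_univ _, g, hg, hg1⟩
    have h2 := hker h1
    rw [MonoidHom.mem_ker] at h2
    have h3 := congrArg Units.val h2
    rwa [MonoidHom.coe_toHomUnits, Units.val_one] at h3

/-- Inclusion and exclusion. -/
theorem Arrangement.incl_excl (D : Arrangement K E r) (χ : G →* E) {n : ℕ} (hn : 0 < n) :
    ((K.U χ n).ncard : ℤ)
      = ∑ A ∈ (D.ram χ).powerset, (-1) ^ A.card * (fixedPoints K.FY (⋂ j ∈ A, D.Z j) n : ℤ) := by
  classical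
  have hfin := K.finite n hn
  set J := D.ram χ with hJ
  let Pts : Finset K.Y := hfin.toFinset
  have hPts : ∀ y, y ∈ Pts ↔ K.FY^[n] y = y := fun y => by
    rw [Set.Finite.mem_toFinset]
    rfl
  have hcard : ∀ A : Set K.Y, (∀ y ∈ A, K.FY^[n] y = y) →
      (A.ncard : ℤ) = ∑ y ∈ Pts, (if y ∈ A then 1 else 0 : ℤ) := by
    intro A hA
    rw [Finset.sum_boole, Set.ncard_eq_toFinset_card _ (hfin.subset hA)]
    congr 2
    ext y
    simp only [Finset.mem_filter, Set.Finite.mem_toFinset, hPts]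
    exact ⟨fun h => ⟨hA y h, h⟩, fun h => h.2⟩
  unfold fixedPoints
  have hA2 : ∀ A ∈ J.powerset,
      ((-1) ^ A.card * (Set.ncard {y ∈ ⋂ j ∈ A, D.Z j | K.FY^[n] y = y} : ℤ) : ℤ)
      = ∑ y ∈ Pts, (-1) ^ A.card *
        (if y ∈ {y ∈ ⋂ j ∈ A, D.Z j | K.FY^[n] y = y} then 1 else 0 : ℤ) := fun A _ => by
    rw [hcard {y ∈ ⋂ j ∈ A, D.Z j | K.FY^[n] y = y} (fun y hy => hy.2), Finset.mul_sum]
    refine Finset.sum_congr rfl fun y _ => ?_
    congr
  rw [hcard (K.U χ n) (fun y hy => hy.1), Finset.sum_congr rfl hA2, Finset.sum_comm]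
  refine Finset.sum_congr rfl fun v hv => ?_
  have hv' := (hPts v).1 hv
  let Zs : Finset (Fin r) := J.filter fun j => v ∈ D.Z j
  have h1 : (v ∈ K.U χ n) ↔ Zs = ∅ := by
    rw [Finset.filter_eq_empty_iff]
    constructor
    · intro h j hj
      exact (D.unr_iff χ v).1 h.2 j hj
    · intro h
      exact ⟨hv', (D.unr_iff χ v).2 fun j hj => h hj⟩
  have h2 : ∀ A ∈ J.powerset, ((-1) ^ A.card *
      (if v ∈ {y ∈ ⋂ j ∈ A, D.Z j | K.FY^[n] y = y} then 1 else 0) : ℤ)
      = if A ⊆ Zs then (-1) ^ A.card else 0 := by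
    intro A hA
    have h3 : (v ∈ {y ∈ ⋂ j ∈ A, D.Z j | K.FY^[n] y = y}) ↔ A ⊆ Zs := by
      constructor
      · rintro ⟨h4, -⟩ j hj
        rw [Finset.mem_filter]
        exact ⟨Finset.mem_powerset.1 hA hj, by
          rw [Set.mem_iInter₂] at h4
          exact h4 j hj⟩
      · intro h4
        refine ⟨?_, hv'⟩
        rw [Set.mem_iInter₂]
        intro j hj
        exact (Finset.mem_filter.1 (h4 hj)).2
    by_cases h4 : A ⊆ Zs
    · rw [if_pos h4, if_pos (h3.2 h4), mul_one]
    · rw [if_neg h4, if_neg (fun h5 => h4 (h3.1 h5)), mul_zero]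
  rw [Finset.sum_congr rfl h2, ← Finset.sum_filter]
  have h5 : J.powerset.filter (fun A => A ⊆ Zs) = Zs.powerset := by
    ext A
    rw [Finset.mem_filter, Finset.mem_powerset, Finset.mem_powerset]
    exact ⟨fun h => h.2, fun h => ⟨h.trans (Finset.filter_subset _ _), h⟩⟩
  rw [h5, Finset.sum_powerset_neg_one_pow_card]
  by_cases h : v ∈ K.U χ n
  · rw [if_pos h, if_pos (h1.1 h)]
  · rw [if_neg h, if_neg fun h' => h (h1.2 h')]

/-- The zeta function of the open set where the character is unramified. -/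
theorem Arrangement.link (D : Arrangement K E r) (χ : G →* E) :
    ∃ (s₁ s₂ : ℕ → E) (N₁ N₂ : Multiset E), Lk (D.num (D.ram χ)) s₁ N₁ ∧
      Lk (D.den (D.ram χ)) s₂ N₂ ∧ ∀ n, 0 < n → ((K.U χ n).ncard : E) = s₁ n - s₂ n := by
  classical
  set J := D.ram χ with hJ
  have b1 : ∀ A, Lk (D.P₁ A) (fun n => powerSum (D.M₁ A) n) (D.M₁ A) := fun A =>
    ⟨(D.fac₁ A).1, (D.fac₁ A).2, fun n => rfl⟩
  have b2 : ∀ A, Lk (D.P₂ A) (fun n => powerSum (D.M₂ A) n) (D.M₂ A) := fun A =>
    ⟨(D.fac₂ A).1, (D.fac₂ A).2, fun n => rfl⟩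
  have L1 := Lk.prod (E := E) J.powerset (fun A => if Even A.card then D.P₁ A else D.P₂ A)
    (fun A n => if Even A.card then powerSum (D.M₁ A) n else powerSum (D.M₂ A) n)
    (fun A => if Even A.card then D.M₁ A else D.M₂ A) (fun A _ => by
      by_cases h : Even A.card
      · simp only [if_pos h]
        exact b1 A
      · simp only [if_neg h]
        exact b2 A)
  have L2 := Lk.prod (E := E) J.powerset (fun A => if Even A.card then D.P₂ A else D.P₁ A)
    (fun A n => if Even A.card then powerSum (D.M₂ A) n else powerSum (D.M₁ A) n)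
    (fun A => if Even A.card then D.M₂ A else D.M₁ A) (fun A _ => by
      by_cases h : Even A.card
      · simp only [if_pos h]
        exact b2 A
      · simp only [if_neg h]
        exact b1 A)
  refine ⟨_, _, _, _, L1, L2, ?_⟩
  intro n hn
  have h1 := congrArg (fun x : ℤ => (x : E)) (D.incl_excl χ hn)
  push_cast at h1
  rw [h1, ← Finset.sum_sub_distrib]
  refine Finset.sum_congr rfl fun A _ => ?_
  rw [D.count A n hn]
  by_cases h : Even A.card
  · rw [if_pos h, if_pos h, h.neg_one_pow, one_mul]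
  · rw [if_neg h, if_neg h, (Nat.not_even_iff_odd.1 h).neg_one_pow]
    ring

variable [Fintype G] [CharZero E] [IsAlgClosed E] {V : Type} [AddCommGroup V] [Module E V]
  [FiniteDimensional E V] {Φ : Module.End E V} {ρ : G →* Module.End E V}

/-- The characteristic polynomial of Frobenius on the part of a character modulo `p`. -/
theorem part_congr {p s d : ℕ} (hp : p.Prime) (hG : ∀ g : G, g ^ p ^ s = 1)
    (D : Arrangement K E r) {c : ℕ → E} (h : IsMiddle K d c Φ ρ) {χ : G →* E} (hχ1 : χ ≠ 1) :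
    (∀ x ∈ (part h.comm χ).charpoly.roots, IsIntegral ℤ x) ∧
    ∀ (k : Type) [Field k] [CharP k p] (θ : Oint E →+* k) (A' : Multiset (Oint E)),
      A'.map Subtype.val = (part h.comm χ).charpoly.roots →
      (Even d → (A'.map fun x => 1 - C (θ x) * X).prod
          * (D.den (D.ram χ)).map (Int.castRingHom k) = (D.num (D.ram χ)).map (Int.castRingHom k)) ∧
      (Odd d → (A'.map fun x => 1 - C (θ x) * X).prod
          * (D.num (D.ram χ)).map (Int.castRingHom k)
          = (D.den (D.ram χ)).map (Int.castRingHom k)) := by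
  classical
  have hfact : Fact p.Prime := ⟨hp⟩
  have hN : 0 < p ^ s := pow_pos hp.pos s
  have hcard : (Fintype.card G : E) ≠ 0 := by exact_mod_cast Fintype.card_ne_zero
  have : NeZero ((p ^ s : ℕ) : E) := ⟨by exact_mod_cast hN.ne'⟩
  obtain ⟨μ, hμ⟩ := HasEnoughRootsOfUnity.exists_primitiveRoot E (p ^ s)
  have hχ : ∀ g, χ g ^ p ^ s = 1 := fun g => by rw [← map_pow, hG, map_one]
  set Ψ := part h.comm χ with hΨ
  set A : Multiset E := Ψ.charpoly.roots with hA
  have hsum : ∑ g : G, χ g⁻¹ = 0 := by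
    obtain ⟨g₀, hg₀⟩ : ∃ g₀, χ g₀ ≠ 1 := by
      by_contra hcon
      push Not at hcon
      exact hχ1 (MonoidHom.ext hcon)
    have h2 : χ g₀⁻¹ * ∑ g : G, χ g⁻¹ = ∑ g : G, χ g⁻¹ := by
      rw [Finset.mul_sum]
      refine Fintype.sum_equiv (Equiv.mulRight g₀) _ _ fun g => ?_
      rw [Equiv.coe_mulRight, ← map_mul, mul_inv_rev]
    have h3 : (χ g₀⁻¹ - 1) * ∑ g : G, χ g⁻¹ = 0 := by rw [sub_mul, h2, one_mul, sub_self]
    refine (mul_eq_zero.1 h3).resolve_left fun h4 => hg₀ ?_
    have h5 := chi_inv χ g₀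
    rwa [sub_eq_zero.1 h4, one_mul] at h5
  have horb : ∀ n, 1 ≤ n → orbSum (p ^ s) μ (K.a χ μ) n
      = (-1) ^ d * (A.map fun x => x ^ n).sum := by
    intro n hn
    have h1 := K.trace_sum χ hN hμ hχ (n := n) hn
    have h2 := trace_part h.comm χ n
    have h3 : ∑ g : G, χ g⁻¹ * (Set.ncard {x : K.X | K.FX^[n] (g • x) = x} : E)
        = (∑ g : G, χ g⁻¹) * c n
          + (-1) ^ d * ∑ g : G, χ g⁻¹ * LinearMap.trace E V (Φ ^ n * ρ g) := by
      rw [Finset.sum_mul, Finset.mul_sum, ← Finset.sum_add_distrib]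
      refine Finset.sum_congr rfl fun g _ => ?_
      rw [h.lefschetz n hn g]
      ring
    rw [h3, ← h2, hsum] at h1
    apply mul_left_cancel₀ hcard
    rw [← h1, hA, ← Pool.Agent.W63.HS.TR.main E (eig ρ χ) Ψ n, hΨ]
    ring
  have hAint : ∀ x ∈ A, IsIntegral ℤ x := by
    refine Pool.Agent.W326.HS.EI.main E (p ^ s) μ hN hμ.pow_eq_one (K.a χ μ) A ((-1) ^ d) ?_ ?_
    · rcases Nat.even_or_odd d with h | h
      · left; exact h.neg_one_pow
      · right; exact h.neg_one_pow
    · intro n hn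
      rw [horb n hn]
      push_cast
      rfl
  refine ⟨hAint, ?_⟩
  intro k _ _ θ A' hA'
  obtain ⟨s₁, s₂, N₁, N₂, l₁, l₂, hU⟩ := D.link χ
  have h1 : ∀ n, 1 ≤ n → orbSum (p ^ s) (1 : E) (K.a χ μ) n = s₁ n - s₂ n := by
    intro n hn
    rw [← hU n hn, ← cast_orbSum, ← K.count χ hN hμ hχ (n := n) hn]
    push_cast
    rfl
  obtain ⟨B₁', e3⟩ := lift_mult l₁.integral
  obtain ⟨B₂', e4⟩ := lift_mult l₂.integral
  have hmap : ∀ (M : Multiset E) (M' : Multiset (Oint E)),
      M'.map Subtype.val = M → ∀ m : ℕ,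
      ((do let a ← M'; pure (a : E) : Multiset E).map fun x => x ^ m).sum
      = (M.map fun x => x ^ m).sum := by
    intro M M' h m
    rw [lift_eq, h]
  have hμi : IsIntegral ℤ μ :=
    ⟨X ^ p ^ s - 1, monic_X_pow_sub_C (1 : ℤ) (pow_pos hp.pos s).ne', by simp [hμ.pow_eq_one]⟩
  have hμO : ∃ h : μ ∈ Oint E, θ ⟨μ, h⟩ = 1 := by
    refine ⟨hμi, theta_root (p := p) (b := s) θ (Subtype.ext ?_)⟩
    push_cast
    exact hμ.pow_eq_one
  have hB : ∀ m, 1 ≤ m → orbSum (p ^ s) (1 : E) (K.a χ μ) m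
      = ((do let a ← B₁'; pure (a : E) : Multiset E).map fun x => x ^ m).sum
        - ((do let a ← B₂'; pure (a : E) : Multiset E).map fun x => x ^ m).sum := by
    intro m hm
    rw [h1 m hm, hmap _ _ e3 m, hmap _ _ e4 m, l₁.2.2, l₂.2.2]
  refine ⟨fun hd => ?_, fun hd => ?_⟩
  · have h2 := Pool.Agent.W111.HS.EC.main E (p ^ s) μ hN hμ.pow_eq_one (K.a χ μ) (Oint E) A' 0
      B₁' B₂' (by
        intro m hm
        rw [horb m hm, hd.neg_one_pow, hmap _ _ hA' m]
        simp) hB k θ hμO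
    rw [← red_prod l₁.2.1 e3 θ, ← red_prod l₂.2.1 e4 θ]
    simpa using h2
  · have h2 := Pool.Agent.W111.HS.EC.main E (p ^ s) μ hN hμ.pow_eq_one (K.a χ μ) (Oint E) 0 A'
      B₁' B₂' (by
        intro m hm
        rw [horb m hm, hd.neg_one_pow, hmap _ _ hA' m]
        simp) hB k θ hμO
    rw [← red_prod l₁.2.1 e3 θ, ← red_prod l₂.2.1 e4 θ, mul_comm]
    simpa using h2.symm

end Pool.Agent.J6H31.GA
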