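import Mathlib

/-!
# Representations of finite abelian groups: isotypic parts and traces
-/

set_option autoImplicit false
set_option linter.unusedSectionVars false

namespace Pool.Agent.J6H31.GA

open Finset Polynomial Module Module.End

variable {E : Type} [Field E] {V : Type} [AddCommGroup V] [Module E V]
  {G : Type} [CommGroup G] (ρ : G →* Module.End E V)

/-- The part of `V` on which the group acts by the character `χ`. -/
def eig (χ : G →* E) : Submodule E V := ⨅ g, (ρ g).eigenspace (χ g)

variable {ρ}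

lemma mem_eig {χ : G →* E} {v : V} : v ∈ eig ρ χ ↔ ∀ g, ρ g v = χ g • v := by
  simp [eig, Submodule.mem_iInf, Module.End.mem_eigenspace_iff]

lemma mapsTo_eig {Φ : Module.End E V} (hc : ∀ g, Commute Φ (ρ g)) (χ : G →* E) :
    ∀ v ∈ eig ρ χ, Φ v ∈ eig ρ χ := by
  intro v hv
  rw [mem_eig] at hv ⊢
  intro g
  have h1 : ρ g (Φ v) = Φ (ρ g v) := (LinearMap.congr_fun (hc g) v).symm
  rw [h1, hv, map_smul]

/-- The restriction of `Φ` to the part of `χ`. -/
noncomputable def part {Φ : Module.End E V} (hc : ∀ g, Commute Φ (ρ g)) (χ : G →* E) :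
    Module.End E (eig ρ χ) := Φ.restrict (mapsTo_eig hc χ)

lemma part_apply {Φ : Module.End E V} (hc : ∀ g, Commute Φ (ρ g)) (χ : G →* E) (v : eig ρ χ) :
    (part hc χ v : V) = Φ v := rfl

lemma part_pow {Φ : Module.End E V} (hc : ∀ g, Commute Φ (ρ g)) (χ : G →* E) (n : ℕ)
    (v : eig ρ χ) : (((part hc χ) ^ n) v : V) = (Φ ^ n) v := by
  induction n generalizing v with
  | zero => rfl
  | succ n ih =>
    rw [pow_succ, pow_succ]
    change (((part hc χ) ^ n) (part hc χ v) : V) = (Φ ^ n) (Φ v)
    rw [ih]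
    rfl

variable [FiniteDimensional E V] [Fintype G]

lemma chi_inv (χ : G →* E) (g : G) : χ g⁻¹ * χ g = 1 := by
  rw [← map_mul, inv_mul_cancel, map_one]

/-- The trace on an isotypic part. -/
theorem trace_part {Φ : Module.End E V} (hc : ∀ g, Commute Φ (ρ g)) (χ : G →* E) (m : ℕ) :
    (Fintype.card G : E) * LinearMap.trace E _ ((part hc χ) ^ m)
      = ∑ g : G, χ g⁻¹ * LinearMap.trace E V (Φ ^ m * ρ g) := by
  classical
  let Pr : Module.End E V := ∑ g : G, χ g⁻¹ • ρ g
  have hcP : Commute Φ Pr := Commute.sum_right _ _ _ fun g _ => (hc g).smul_right _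
  have hgP : ∀ h : G, ρ h * Pr = χ h • Pr := by
    intro h
    change ρ h * ∑ g : G, χ g⁻¹ • ρ g = χ h • ∑ g : G, χ g⁻¹ • ρ g
    rw [Finset.mul_sum, Finset.smul_sum]
    refine Fintype.sum_equiv (Equiv.mulLeft h) _ _ fun g => ?_
    rw [Equiv.coe_mulLeft, mul_smul_comm, ← map_mul, smul_smul, ← map_mul]
    congr 2
    rw [mul_inv_rev, mul_comm g⁻¹, ← mul_assoc, mul_inv_cancel, one_mul]
  have hmem : ∀ v, (Φ ^ m * Pr) v ∈ eig ρ χ := by
    intro v
    rw [mem_eig]
    intro h
    have h1 : ρ h * (Φ ^ m * Pr) = χ h • (Φ ^ m * Pr) := by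
      rw [← mul_assoc, ← ((hc h).pow_left m).eq, mul_assoc, hgP, mul_smul_comm]
    exact LinearMap.congr_fun h1 v
  have hPv : ∀ v ∈ eig ρ χ, Pr v = (Fintype.card G : E) • v := by
    intro v hv
    rw [mem_eig] at hv
    change (∑ g : G, χ g⁻¹ • ρ g) v = _
    rw [LinearMap.sum_apply]
    have h2 : ∀ g ∈ (univ : Finset G), (χ g⁻¹ • ρ g) v = v := by
      intro g _
      rw [LinearMap.smul_apply, hv, smul_smul, chi_inv, one_smul]
    rw [Finset.sum_congr rfl h2, Finset.sum_const, Finset.card_univ, Nat.cast_smul_eq_nsmul]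
  have h1 := LinearMap.trace_restrict_eq_of_forall_mem (eig ρ χ) (Φ ^ m * Pr) hmem
    (fun v _ => hmem v)
  have h2 : (Φ ^ m * Pr).restrict (fun v _ => hmem v)
      = (Fintype.card G : E) • ((part hc χ) ^ m) := by
    ext v
    rw [LinearMap.smul_apply, Submodule.coe_smul, part_pow]
    change (Φ ^ m) (Pr v.1) = _
    rw [hPv v.1 v.2, map_smul]
  rw [h2, map_smul, smul_eq_mul] at h1
  rw [h1]
  change LinearMap.trace E V (Φ ^ m * ∑ g : G, χ g⁻¹ • ρ g) = _
  rw [Finset.mul_sum, map_sum]
  refine Finset.sum_congr rfl fun g _ => ?_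
  rw [mul_smul_comm, map_smul, smul_eq_mul]

/-- Decomposition of a stable subspace. -/
theorem isotypic [CharZero E] [IsAlgClosed E] (T : Submodule E V)
    (hT : ∀ g, ∀ v ∈ T, ρ g v ∈ T) : T ≤ ⨆ χ : G →* E, T ⊓ eig ρ χ := by
  classical
  let f : G → Module.End E T := fun g => (ρ g).restrict (hT g)
  have hf : ∀ g (v : T), (f g v : V) = ρ g v := fun g v => rfl
  have hfm : ∀ g h, f (g * h) = f g * f h := by
    intro g h
    ext v
    rw [hf, map_mul]
    rfl
  have hf1 : f 1 = 1 := by
    ext v
    rw [hf, map_one]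
    rfl
  let fh : G →* Module.End E T := { toFun := f, map_one' := hf1, map_mul' := hfm }
  have hss : ∀ g, (f g).IsSemisimple := by
    intro g
    have hN : 0 < Fintype.card G := Fintype.card_pos
    have hsep : (X ^ Fintype.card G - C 1 : E[X]).Separable :=
      separable_X_pow_sub_C (1 : E) (by exact_mod_cast hN.ne') one_ne_zero
    refine isSemisimple_of_squarefree_aeval_eq_zero hsep.squarefree ?_
    have h1 : f g ^ Fintype.card G = 1 := by
      change fh g ^ _ = 1
      rw [← map_pow, pow_card_eq_one, map_one]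
    simp [h1]
  have hmg : ∀ g (c : E), (f g).maxGenEigenspace c = (f g).eigenspace c := fun g c =>
    (hss g).isFinitelySemisimple.maxGenEigenspace_eq_eigenspace c
  have htop := iSup_iInf_maxGenEigenspace_eq_top_of_iSup_maxGenEigenspace_eq_top_of_commute f
    (fun g h _ => by
      change f g * f h = f h * f g
      rw [← hfm, ← hfm, mul_comm]) (fun g => iSup_maxGenEigenspace_eq_top (f g))
  intro v hv
  have h1 : (⟨v, hv⟩ : T) ∈ ⨆ χ : G → E, ⨅ g, (f g).maxGenEigenspace (χ g) := by
    rw [htop]
    exact Submodule.mem_top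
  have h2 : (⨆ χ : G → E, ⨅ g, (f g).maxGenEigenspace (χ g))
      ≤ (⨆ χ : G →* E, T ⊓ eig ρ χ).comap T.subtype := by
    refine iSup_le fun χ w hw => ?_
    rw [Submodule.mem_comap]
    by_cases hw0 : w = 0
    · rw [hw0, map_zero]
      exact Submodule.zero_mem _
    have hw' : ∀ g, f g w = χ g • w := by
      intro g
      rw [Submodule.mem_iInf] at hw
      have := hw g
      rw [hmg, mem_eigenspace_iff] at this
      exact this
    have hinj : ∀ a b : E, a • w = b • w → a = b := by
      intro a b hab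
      have h3 : (a - b) • w = 0 := by rw [sub_smul, hab, sub_self]
      rcases smul_eq_zero.1 h3 with h4 | h4
      · exact sub_eq_zero.1 h4
      · exact absurd h4 hw0
    let χ' : G →* E :=
      { toFun := χ
        map_one' := by
          apply hinj
          rw [← hw' 1, hf1, one_smul]
          rfl
        map_mul' := by
          intro g h
          apply hinj
          rw [← hw' (g * h), hfm]
          change f g (f h w) = _
          rw [hw' h, map_smul, hw' g, smul_smul, mul_comm] }
    refine Submodule.mem_iSup_of_mem χ' ⟨w.2, ?_⟩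
    rw [SetLike.mem_coe, mem_eig]
    intro g
    have := congrArg Subtype.val (hw' g)
    exact this
  exact h2 h1

end Pool.Agent.J6H31.GA
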