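import Pool.Agent.J6H31.GA.Cong
import Pool.Agent.J6H31.GA.Lin
import Pool.Agent.J6H31.AC.Count

/-!
# Surfaces with an action of a finite abelian `p`-group
-/

set_option autoImplicit false
set_option linter.unusedSectionVars false

namespace Pool.Agent.J6H31.GA

open Finset Polynomial Pool.Agent.W528.HS Pool.Agent.J6H31.AC

/-- `V` with the Frobenius `Φ` and the action `ρ` of `G` has the properties of the second cohomology of
a smooth projective surface without cohomology in the degrees `1` and `3` over the field with `q`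
elements: the actions commute, and the Lefschetz formula holds for the number of the fixed points of
`F ^ n ∘ g`. -/
structure IsH2 {G : Type} [CommGroup G] (K : Covering G) (q : ℕ) {E : Type} [Field E] {V : Type}
    [AddCommGroup V] [Module E V] (Φ : Module.End E V) (ρ : G →* Module.End E V) : Prop where
  comm : ∀ g, Commute Φ (ρ g)
  lefschetz : ∀ n, 0 < n → ∀ g : G, (Set.ncard {x : K.X | K.FX^[n] (g • x) = x} : E)
    = 1 + LinearMap.trace E V (Φ ^ n * ρ g) + ((q : E) ^ 2) ^ n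

/-- `P = ∏_{x ∈ M} (1 - x T)`. -/
def IsFactored {E : Type} [Field E] (P : ℤ[X]) (M : Multiset E) : Prop :=
  P.coeff 0 = 1 ∧ P.map (Int.castRingHom E) = (M.map fun x => 1 - C x * X).prod

/-- `∑_{x ∈ M} x ^ n`. -/
noncomputable def powerSum {E : Type} [Field E] (M : Multiset E) (n : ℕ) : E :=
  (M.map fun x => x ^ n).sum

/-- The number of the elements of `A` fixed by the `n`-th iterate of `F`. -/
noncomputable def fixedPoints {Y : Type} (F : Y → Y) (A : Set Y) (n : ℕ) : ℕ :=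
  Set.ncard {y ∈ A | F^[n] y = y}

/-- Curves `Z_j` on the quotient surface `Y` which contain the branch locus, with inertia groups `I_j`,
such that no three of them have a common point: the stabilizer of a point `x` is generated by the
`I_j` with `π(x) ∈ Z_j`. The zeta function of `Y` is `P₂ / P₁`, `P_j` is the numerator of the zeta
function of `Z_j`, and `S i j` contains the degrees of the closed points of `Z_i ∩ Z_j`. -/
structure Branch {G : Type} [CommGroup G] (K : Covering G) (q : ℕ) (E : Type) [Field E]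
    (r : ℕ) where
  Z : Fin r → Set K.Y
  I : Fin r → Subgroup G
  stab : ∀ x : K.X, MulAction.stabilizer G x = ⨆ j : Fin r, ⨆ _ : K.π x ∈ Z j, I j
  P₁ : ℤ[X]
  P₂ : ℤ[X]
  M₁ : Multiset E
  M₂ : Multiset E
  fac₁ : IsFactored P₁ M₁
  fac₂ : IsFactored P₂ M₂
  base : ∀ n, 0 < n → (fixedPoints K.FY Set.univ n : E) = powerSum M₁ n - powerSum M₂ n
  P : Fin r → ℤ[X]
  B : Fin r → Multiset E
  fac : ∀ j, IsFactored (P j) (B j)
  curve : ∀ (j : Fin r) (n : ℕ), 0 < n →
    (fixedPoints K.FY (Z j) n : E) = 1 + (q : E) ^ n - powerSum (B j) n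
  S : Fin r → Fin r → Multiset ℕ
  S_pos : ∀ i j, i < j → ∀ f ∈ S i j, 0 < f
  inter : ∀ i j : Fin r, i < j → ∀ n, 0 < n →
    fixedPoints K.FY (Z i ∩ Z j) n = ((S i j).filter fun f => f ∣ n).sum
  no_triple : ∀ i j k : Fin r, i < j → j < k → Z i ∩ Z j ∩ Z k = ∅

variable {G : Type} [CommGroup G] {K : Covering G} {q : ℕ} {E : Type} [Field E] {r : ℕ}

open Classical in
/-- The curves at which the character `χ` is ramified. -/
noncomputable def Branch.ram (D : Branch K q E r) (χ : G →* E) : Finset (Fin r) :=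
  univ.filter fun j => ∃ g ∈ D.I j, χ g ≠ 1

/-- The multiplicity of the root `1` of `P` modulo `p`. -/
noncomputable def rootMod (p : ℕ) (P : ℤ[X]) : ℕ :=
  (P.map (Int.castRingHom (ZMod p))).rootMultiplicity 1

/-- `m(χ) = μ(Y) - 2 |J| + ∑_{j ∈ J} μ_j + ∑_x p(x)`, where `μ(Y)` is the multiplicity of the root `1` of
`P₁` modulo `p` minus that of `P₂`, `J` is the set of the `j` with `χ` ramified at `Z_j`, `μ_j` is the
multiplicity of the root `1` of `P_j` modulo `p`, and `x` runs through the closed points of the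
intersections `Z_i ∩ Z_j`, `i < j` in `J`, with the largest power `p(x)` of `p` which divides the degree
of `x`. -/
noncomputable def Branch.mult (D : Branch K q E r) (p : ℕ) (χ : G →* E) : ℤ :=
  (rootMod p D.P₁ : ℤ) - rootMod p D.P₂ - 2 * ((D.ram χ).card : ℤ)
    + ∑ j ∈ D.ram χ, (rootMod p (D.P j) : ℤ)
    + ∑ x ∈ pairs (D.ram χ), (((D.S x.1 x.2).map fun f => p ^ padicValNat p f).sum : ℤ)

lemma Branch.unr_iff (D : Branch K q E r) (χ : G →* E) (y : K.Y) :
    K.unr χ y ↔ ∀ j ∈ D.ram χ, y ∉ D.Z j := by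
  classical
  constructor
  · intro h j hj hy
    rw [Branch.ram, Finset.mem_filter] at hj
    obtain ⟨-, g, hg, hg1⟩ := hj
    obtain ⟨x, hx⟩ := K.surj y
    apply hg1
    refine h x hx g ?_
    have h1 : g ∈ MulAction.stabilizer G x := by
      rw [D.stab x]
      have h2 : D.I j ≤ ⨆ j : Fin r, ⨆ _ : K.π x ∈ D.Z j, D.I j :=
        le_iSup₂_of_le j (by rw [hx]; exact hy) le_rfl
      exact h2 hg
    exact h1
  · intro h x hx g hg
    have h1 : g ∈ MulAction.stabilizer G x := hg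
    rw [D.stab x] at h1
    have hker : (⨆ j : Fin r, ⨆ _ : K.π x ∈ D.Z j, D.I j)
        ≤ (MonoidHom.toHomUnits χ).ker := by
      refine iSup₂_le fun j hj g hg => ?_
      rw [MonoidHom.mem_ker]
      apply Units.ext
      rw [MonoidHom.coe_toHomUnits, Units.val_one]
      by_contra hg1
      refine h j ?_ (by rw [← hx]; exact hj)
      rw [Branch.ram, Finset.mem_filter]
      exact ⟨mem_univ _, g, hg, hg1⟩
    have h2 := hker h1
    rw [MonoidHom.mem_ker] at h2
    have h3 := congrArg Units.val h2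
    rwa [MonoidHom.coe_toHomUnits, Units.val_one] at h3

/-- Inclusion and exclusion. -/
theorem Branch.incl_excl (D : Branch K q E r) (χ : G →* E) {n : ℕ} (hn : 0 < n) :
    ((K.U χ n).ncard : ℤ) = (fixedPoints K.FY Set.univ n : ℤ)
      - ∑ j ∈ D.ram χ, (fixedPoints K.FY (D.Z j) n : ℤ)
      + ∑ x ∈ pairs (D.ram χ), (fixedPoints K.FY (D.Z x.1 ∩ D.Z x.2) n : ℤ) := by
  classical
  have hfin := K.finite n hn
  set J := D.ram χ with hJ
  let Pts : Finset K.Y := hfin.toFinset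
  have hPts : ∀ y, y ∈ Pts ↔ K.FY^[n] y = y := fun y => by
    rw [Set.Finite.mem_toFinset]
    rfl
  let Zs : K.Y → Finset (Fin r) := fun y => J.filter fun j => y ∈ D.Z j
  have hZs : ∀ y ∈ Pts, (Zs y).card ≤ 2 := by
    intro v hv
    by_contra hcon
    rw [not_le] at hcon
    obtain ⟨i, j, l, hi, hj, hl, hij, hjl⟩ : ∃ i j l, i ∈ Zs v ∧ j ∈ Zs v ∧ l ∈ Zs v ∧ i < j ∧
        j < l := by
      have h1 : 2 < (Zs v).card := hcon
      let e := (Zs v).orderEmbOfFin rfl
      refine ⟨e ⟨0, by omega⟩, e ⟨1, by omega⟩, e ⟨2, by omega⟩, ?_, ?_, ?_, ?_, ?_⟩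
      · exact Finset.orderEmbOfFin_mem _ _ _
      · exact Finset.orderEmbOfFin_mem _ _ _
      · exact Finset.orderEmbOfFin_mem _ _ _
      · exact e.strictMono (by simp [Fin.lt_def])
      · exact e.strictMono (by simp [Fin.lt_def])
    have h4 : v ∈ D.Z i ∩ D.Z j ∩ D.Z l := ⟨⟨(Finset.mem_filter.1 hi).2,
      (Finset.mem_filter.1 hj).2⟩, (Finset.mem_filter.1 hl).2⟩
    rw [D.no_triple i j l hij hjl] at h4
    exact h4
  have hcard : ∀ A : Set K.Y, (∀ y ∈ A, K.FY^[n] y = y) →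
      (A.ncard : ℤ) = ∑ y ∈ Pts, (if y ∈ A then 1 else 0 : ℤ) := by
    intro A hA
    rw [Finset.sum_boole, Set.ncard_eq_toFinset_card _ (hfin.subset hA)]
    congr 2
    ext y
    simp only [Finset.mem_filter, Set.Finite.mem_toFinset, hPts]
    exact ⟨fun h => ⟨hA y h, h⟩, fun h => h.2⟩
  unfold fixedPoints
  rw [hcard (K.U χ n) (fun y hy => hy.1), hcard {y ∈ Set.univ | K.FY^[n] y = y} (fun y hy => hy.2),
    Finset.sum_congr rfl fun j _ => hcard {y ∈ D.Z j | K.FY^[n] y = y} (fun y hy => hy.2),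
    Finset.sum_congr (s₁ := pairs J) rfl fun x _ =>
      hcard {y ∈ D.Z x.1 ∩ D.Z x.2 | K.FY^[n] y = y} (fun y hy => hy.2),
    Finset.sum_comm, Finset.sum_comm (s := pairs J), ← Finset.sum_sub_distrib,
    ← Finset.sum_add_distrib]
  refine Finset.sum_congr rfl fun v hv => ?_
  have hv' := (hPts v).1 hv
  have h1 : (v ∈ K.U χ n) ↔ Zs v = ∅ := by
    rw [Finset.filter_eq_empty_iff]
    constructor
    · intro h j hj
      exact (D.unr_iff χ v).1 h.2 j hj
    · intro h
      exact ⟨hv', (D.unr_iff χ v).2 fun j hj => h hj⟩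
  have h2 := card_pairs_le_two _ (hZs v hv)
  rw [if_pos (show v ∈ {y | y ∈ Set.univ ∧ K.FY^[n] y = y} from ⟨Set.mem_univ _, hv'⟩)]
  have h3 : (if v ∈ K.U χ n then 1 else 0 : ℤ) = if Zs v = ∅ then 1 else 0 := by
    by_cases h : v ∈ K.U χ n
    · rw [if_pos h, if_pos (h1.1 h)]
    · rw [if_neg h, if_neg fun h' => h (h1.2 h')]
  rw [h3, h2]
  congr 1
  · congr 1
    rw [Finset.card_filter]
    push_cast
    refine Finset.sum_congr rfl fun j _ => ?_
    by_cases h : v ∈ D.Z j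
    · rw [if_pos h, if_pos (show v ∈ {y | y ∈ D.Z j ∧ K.FY^[n] y = y} from ⟨h, hv'⟩)]
    · rw [if_neg h, if_neg (fun h' : v ∈ {y | y ∈ D.Z j ∧ K.FY^[n] y = y} => h h'.1)]
  · have h4 : pairs (Zs v) = (pairs J).filter fun x => v ∈ D.Z x.1 ∩ D.Z x.2 := by
      ext ⟨x, y⟩
      simp only [pairs, Finset.mem_filter, Finset.mem_product, Zs, Set.mem_inter_iff]
      tauto
    rw [h4, Finset.card_filter]
    push_cast
    refine Finset.sum_congr rfl fun x _ => ?_
    by_cases h : v ∈ D.Z x.1 ∩ D.Z x.2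
    · rw [if_pos h, if_pos (show v ∈ {y | y ∈ D.Z x.1 ∩ D.Z x.2 ∧ K.FY^[n] y = y} from ⟨h, hv'⟩)]
    · rw [if_neg h, if_neg (fun h' : v ∈ {y | y ∈ D.Z x.1 ∩ D.Z x.2 ∧ K.FY^[n] y = y} => h h'.1)]

variable [CharZero E] [IsAlgClosed E]

/-- The zeta function of the open set where the character is unramified. -/
theorem Branch.link (D : Branch K q E r) {p : ℕ} (hp : p.Prime) (hq : q ≡ 1 [MOD p]) (χ : G →* E) :
    ∃ (Q₁ Q₂ : ℤ[X]) (s₁ s₂ : ℕ → E) (N₁ N₂ : Multiset E), Lk Q₁ s₁ N₁ ∧ Lk Q₂ s₂ N₂ ∧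
      (∀ n, 0 < n → ((K.U χ n).ncard : E) = s₁ n - s₂ n) ∧
      ∀ (k : Type) [Field k] [CharP k p], (rm k Q₁ : ℤ) - rm k Q₂ = D.mult p χ := by
  classical
  have hfact : Fact p.Prime := ⟨hp⟩
  set J := D.ram χ with hJ
  have hpt : ∀ x : Fin r × Fin r, x ∈ pairs J → ∃ M : Multiset E,
      Lk (((D.S x.1 x.2).map fun f => (1 - X ^ f : ℤ[X])).prod)
      (fun n => ((((D.S x.1 x.2).filter fun f => f ∣ n).sum : ℕ) : E)) M := fun x hx =>
    Lk.points _ (D.S_pos x.1 x.2 (Finset.mem_filter.1 hx).2)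
  choose! Mx hMx using hpt
  have l0 : Lk (1 - C (1 : ℤ) * X) (fun n => (((1 : ℤ) : E)) ^ n) {((1 : ℤ) : E)} := Lk.lin 1
  have l1 := Lk.lin (E := E) (q : ℤ)
  have b1 : Lk D.P₁ (fun n => powerSum D.M₁ n) D.M₁ := ⟨D.fac₁.1, D.fac₁.2, fun n => rfl⟩
  have b2 : Lk D.P₂ (fun n => powerSum D.M₂ n) D.M₂ := ⟨D.fac₂.1, D.fac₂.2, fun n => rfl⟩
  have l3 := Lk.prod (E := E) J D.P (fun j n => powerSum (D.B j) n) D.B
    (fun j _ => ⟨(D.fac j).1, (D.fac j).2, fun n => rfl⟩)
  have l4 := Lk.prod (E := E) (pairs J) _ _ Mx hMx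
  have L1 := (b1.mul l3).mul l4
  have L2 := b2.mul ((l0.mul l1).pow J.card)
  refine ⟨_, _, _, _, _, _, L1, L2, ?_, ?_⟩
  · intro n hn
    have h1 := congrArg (fun x : ℤ => (x : E)) (D.incl_excl χ hn)
    push_cast at h1
    rw [h1, D.base n hn, Finset.sum_congr rfl fun j _ => D.curve j n hn]
    have h5 : ∑ x ∈ pairs J, (fixedPoints K.FY (D.Z x.1 ∩ D.Z x.2) n : E)
        = ∑ x ∈ pairs J, ((((D.S x.1 x.2).filter fun f => f ∣ n).sum : ℕ) : E) := by
      refine Finset.sum_congr rfl fun x hx => ?_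
      rw [D.inter x.1 x.2 (Finset.mem_filter.1 hx).2 n hn]
    rw [h5, Finset.sum_sub_distrib, Finset.sum_const, nsmul_eq_mul]
    push_cast
    rw [one_pow]
    ring
  · intro k _ _
    have hqk : ((q : ℕ) : k) = 1 := by
      have := (CharP.natCast_eq_natCast k p).2 hq
      simpa using this
    have c0 : (1 - C (1 : ℤ) * X : ℤ[X]).coeff 0 = 1 := l0.1
    have c1 : (1 - C (q : ℤ) * X : ℤ[X]).coeff 0 = 1 := l1.1
    have r0 : rm k (1 - C (1 : ℤ) * X) = 1 := rm_lin k 1 (by simp)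
    have r1 : rm k (1 - C (q : ℤ) * X) = 1 := rm_lin k q (by simpa using hqk)
    rw [rm_mul k (b1.mul l3).1 l4.1, rm_mul k b1.1 l3.1, rm_mul k b2.1 ((l0.mul l1).pow J.card).1,
      rm_pow k (l0.mul l1).1, rm_mul k c0 c1, r0, r1, rm_prod k _ _ fun j _ => (D.fac j).1,
      rm_prod k _ _ fun x hx => (hMx x hx).1, rm_eq p k D.P₁, rm_eq p k D.P₂]
    unfold Branch.mult rootMod
    have e1 : ∀ j ∈ J, (rm k (D.P j) : ℤ)
        = (((D.P j).map (Int.castRingHom (ZMod p))).rootMultiplicity 1 : ℤ) := fun j _ => by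
      rw [rm_eq p k]
    have e2 : ∀ x ∈ pairs J, (rm k ((D.S x.1 x.2).map fun f => (1 - X ^ f : ℤ[X])).prod : ℤ)
        = (((D.S x.1 x.2).map fun f => p ^ padicValNat p f).sum : ℤ) := fun x hx => by
      rw [rm_points p k _ (D.S_pos x.1 x.2 (Finset.mem_filter.1 hx).2)]
    push_cast
    rw [Finset.sum_congr rfl e1, Finset.sum_congr rfl e2]
    push_cast
    ring

end Pool.Agent.J6H31.GA
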