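import Pool.Agent.J6H31.GA.Orb
import Pool.Agent.J6H31.AC.Link
import Pool.Agent.W326.HS.EI
import Pool.Agent.W111.HS.EC
import Pool.Agent.W63.HS.TR
import Pool.Agent.W804.HS.RD

/-!
# Eigenvalues congruent to `1` modulo a place above `p`
-/

set_option autoImplicit false
set_option linter.unusedSectionVars false

namespace Pool.Agent.J6H31.GA

open Finset Polynomial Pool.Agent.W528.HS Pool.Agent.J6H31.AC

/-- The ring of algebraic integers in `E`. -/
abbrev Oint (E : Type) [Field E] : Subring E := (integralClosure ℤ E).toSubring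

variable {E : Type} [Field E] {k : Type} [Field k] (θ : Oint E →+* k)

/-- The number of elements of `A` which are algebraic integers congruent to `1`. -/
noncomputable def cnt (A : Multiset E) : ℕ := by
  classical
  exact (A.filter fun x => ∃ h : x ∈ Oint E, θ ⟨x, h⟩ = 1).card

lemma cnt_add (A B : Multiset E) : cnt θ (A + B) = cnt θ A + cnt θ B := by
  classical
  unfold cnt
  rw [Multiset.filter_add, Multiset.card_add]

lemma cnt_le {A : Multiset E} {S : Multiset E} (h : S ≤ A)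
    (hS : ∀ x ∈ S, ∃ h : x ∈ Oint E, θ ⟨x, h⟩ = 1) : S.card ≤ cnt θ A := by
  classical
  unfold cnt
  exact Multiset.card_le_card (Multiset.le_filter.2 ⟨h, hS⟩)

lemma lift_mult {M : Multiset E} (hM : ∀ x ∈ M, IsIntegral ℤ x) :
    ∃ M' : Multiset (Oint E), M'.map Subtype.val = M := by
  have hM' : ∀ x ∈ M, x ∈ Oint E := hM
  refine ⟨M.pmap (fun x hx => (⟨x, hx⟩ : Oint E)) hM', ?_⟩
  rw [Multiset.map_pmap, Multiset.pmap_eq_map, Multiset.map_id']

lemma rm_lift (A' : Multiset (Oint E)) :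
    ((A'.map fun x => 1 - C (θ x) * X).prod : k[X]).rootMultiplicity 1
      = cnt θ (A'.map Subtype.val) ∧ ((A'.map fun x => 1 - C (θ x) * X).prod : k[X]) ≠ 0 := by
  classical
  induction A' using Multiset.induction_on with
  | empty =>
    refine ⟨?_, by simp⟩
    rw [Multiset.map_zero, Multiset.prod_zero, Multiset.map_zero]
    exact rootMultiplicity_eq_zero (by simp)
  | cons x A' ih =>
    have hne : (1 - C (θ x) * X : k[X]) ≠ 0 := by
      intro h0
      have h3 := congrArg (fun Q => Polynomial.coeff Q 0) h0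
      simp at h3
    rw [Multiset.map_cons, Multiset.prod_cons]
    refine ⟨?_, mul_ne_zero hne ih.2⟩
    rw [rootMultiplicity_mul (mul_ne_zero hne ih.2), ih.1, Multiset.map_cons, ← Multiset.singleton_add,
      cnt_add]
    congr 1
    unfold cnt
    by_cases hx : θ x = 1
    · rw [Multiset.filter_singleton, if_pos ⟨x.2, hx⟩, Multiset.card_singleton, hx]
      have h7 : (1 - C (1 : k) * X : k[X]) = C (-1) * (X - C 1) := by simp
      rw [h7, rootMultiplicity_mul, rootMultiplicity_C, rootMultiplicity_X_sub_C_self]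
      exact mul_ne_zero (by simp) (X_sub_C_ne_zero 1)
    · rw [Multiset.filter_singleton, if_neg (fun h => hx h.2)]
      change _ = 0
      refine rootMultiplicity_eq_zero fun h => hx ?_
      rw [IsRoot.def] at h
      simp only [eval_sub, eval_one, eval_mul, eval_C, eval_X, mul_one] at h
      exact (sub_eq_zero.1 h).symm

/-- A root of unity of `p`-power order reduces to `1`. -/
lemma theta_root {p : ℕ} [Fact p.Prime] [CharP k p] {b : ℕ} {x : Oint E} (h : x ^ p ^ b = 1) :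
    θ x = 1 := by
  have h1 := congrArg θ h
  rw [map_pow, map_one] at h1
  have h2 : (θ x - 1) ^ p ^ b = 0 := by rw [sub_pow_char_pow, h1, one_pow, sub_self]
  exact sub_eq_zero.mp
    ((pow_eq_zero_iff (pow_pos (Fact.out : p.Prime).pos b).ne').mp h2)

/-- The count of the eigenvalues congruent to `1`. -/
theorem cnt_eq [CharZero E] {p : ℕ} (hp : p.Prime) [CharP k p] {s : ℕ} {μ : E}
    (hμ : μ ^ p ^ s = 1) (a : ℕ → ℕ → ℕ) {P₁ P₂ : ℤ[X]} {s₁ s₂ : ℕ → E} {M₁ M₂ : Multiset E}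
    (l₁ : Lk P₁ s₁ M₁) (l₂ : Lk P₂ s₂ M₂)
    (h1 : ∀ n, 1 ≤ n → orbSum (p ^ s) (1 : E) a n = s₁ n - s₂ n) (A₁ A₂ : Multiset E)
    (hA₁ : ∀ x ∈ A₁, IsIntegral ℤ x) (hA₂ : ∀ x ∈ A₂, IsIntegral ℤ x)
    (hμs : ∀ n, 1 ≤ n → orbSum (p ^ s) μ a n
      = (A₁.map fun x => x ^ n).sum - (A₂.map fun x => x ^ n).sum) :
    (cnt θ A₁ : ℤ) - cnt θ A₂ = (rm k P₁ : ℤ) - rm k P₂ := by
  have hfact : Fact p.Prime := ⟨hp⟩
  obtain ⟨A₁', e1⟩ := lift_mult hA₁
  obtain ⟨A₂', e2⟩ := lift_mult hA₂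
  obtain ⟨B₁', e3⟩ := lift_mult l₁.integral
  obtain ⟨B₂', e4⟩ := lift_mult l₂.integral
  have hmap : ∀ (M : Multiset E) (M' : Multiset (Oint E)),
      M'.map Subtype.val = M → ∀ m : ℕ,
      ((do let a ← M'; pure (a : E) : Multiset E).map fun x => x ^ m).sum
      = (M.map fun x => x ^ m).sum := by
    intro M M' h m
    rw [lift_eq, h]
  have hμi : IsIntegral ℤ μ :=
    ⟨X ^ p ^ s - 1, monic_X_pow_sub_C (1 : ℤ) (pow_pos hp.pos s).ne', by simp [hμ]⟩
  have hμO : ∃ h : μ ∈ Oint E, θ ⟨μ, h⟩ = 1 := by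
    refine ⟨hμi, theta_root (p := p) (b := s) θ (Subtype.ext ?_)⟩
    push_cast
    exact hμ
  have h := Pool.Agent.W111.HS.EC.main E (p ^ s) μ (pow_pos hp.pos s) hμ a (Oint E) A₁' A₂' B₁' B₂'
    (by
      intro m hm
      rw [hμs m hm, hmap _ _ e1 m, hmap _ _ e2 m])
    (by
      intro m hm
      rw [h1 m hm, hmap _ _ e3 m, hmap _ _ e4 m, l₁.2.2, l₂.2.2]) k θ hμO
  have h2 := congrArg (fun Q => Polynomial.rootMultiplicity 1 Q) h
  rw [rootMultiplicity_mul (mul_ne_zero (rm_lift θ A₁').2 (rm_lift θ B₂').2),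
    rootMultiplicity_mul (mul_ne_zero (rm_lift θ B₁').2 (rm_lift θ A₂').2),
    (rm_lift θ A₁').1, (rm_lift θ A₂').1, e1, e2, red_prod l₁.2.1 e3 θ, red_prod l₂.2.1 e4 θ] at h2
  change cnt θ A₁ + rm k P₂ = rm k P₁ + cnt θ A₂ at h2
  have h3 : ((cnt θ A₁ + rm k P₂ : ℕ) : ℤ) = ((rm k P₁ + cnt θ A₂ : ℕ) : ℤ) := by rw [h2]
  push_cast at h3
  linarith

/-- Integrality. -/
theorem integral_of_orb [CharZero E] {N : ℕ} {μ : E} (hN : 0 < N) (hμ : μ ^ N = 1)
    (a : ℕ → ℕ → ℕ) (A : Multiset E)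
    (h : ∀ n, 1 ≤ n → orbSum N μ a n = (A.map fun x => x ^ n).sum) :
    ∀ x ∈ A, IsIntegral ℤ x :=
  Pool.Agent.W326.HS.EI.main E N μ hN hμ a A 1 (Or.inl rfl) fun n hn => by
    rw [h n hn]
    simp

end Pool.Agent.J6H31.GA
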