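import Pool.Agent.J6H31.GA.Main

/-!
# Tate classes and actions of finite abelian `p`-groups: dimensions
-/

set_option autoImplicit false
set_option linter.unusedSectionVars false

namespace Pool.Agent.J6H31.GA

open Finset Polynomial Module Module.End Pool.Agent.W528.HS Pool.Agent.J6H31.AC

variable {G : Type} [CommGroup G] [Fintype G] {K : Covering G} {q : ℕ} {E : Type} [Field E]
  [CharZero E] [IsAlgClosed E] {r : ℕ} {V : Type} [AddCommGroup V] [Module E V]
  [FiniteDimensional E V] {Φ : Module.End E V} {ρ : G →* Module.End E V}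

lemma dim_part (hc : ∀ g, Commute Φ (ρ g)) (χ : G →* E) (c : E) :
    finrank E (Φ.maxGenEigenspace c ⊓ eig ρ χ : Submodule E V)
      = finrank E ((part hc χ).maxGenEigenspace c) := by
  have h1 : (part hc χ).maxGenEigenspace c
      = (Φ.maxGenEigenspace c).comap (eig ρ χ).subtype :=
    Module.End.genEigenspace_restrict Φ (eig ρ χ) ⊤ c (mapsTo_eig hc χ)
  rw [h1, ← Submodule.finrank_map_subtype_eq (eig ρ χ), Submodule.map_comap_subtype, inf_comm]

/-- `χ² = 1`, and the determinant of `Φ` on the part of `χ` is `-q ^ dim`. -/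
def MinusSign (Φ : Module.End E V) (ρ : G →* Module.End E V) (q : ℕ) (χ : G →* E) : Prop :=
  (∀ g, χ g ^ 2 = 1) ∧ ∃ hc : ∀ g, Commute Φ (ρ g),
    LinearMap.det (part hc χ) = -(q : E) ^ finrank E (eig ρ χ)

open Classical in
/-- The correction by the sign of the functional equation of a quadratic character, for `p = 2`. -/
noncomputable def signTerm (Φ : Module.End E V) (ρ : G →* Module.End E V) (q p b : ℕ)
    (χ : G →* E) : ℤ :=
  if (p = 2 ∧ b = 0) ∧ MinusSign Φ ρ q χ then 1 else 0

/-- The sum of the dimensions of the generalized eigenspaces of `Φ` on the part of `χ` for the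
eigenvalues `q ζ`, `ζ ^ n = 1`. -/
noncomputable def tateDim (Φ : Module.End E V) (ρ : G →* Module.End E V) (q n : ℕ)
    (χ : G →* E) : ℕ :=
  ∑ ζ ∈ nthRootsFinset n (1 : E),
    finrank E (Φ.maxGenEigenspace ((q : E) * ζ) ⊓ eig ρ χ : Submodule E V)

open Classical in
theorem bound_dim {p s : ℕ} (hp : p.Prime) (hG : ∀ g : G, g ^ p ^ s = 1) (hq : q ≡ 1 [MOD p])
    (D : Branch K q E r) (h : IsH2 K q Φ ρ) (B : LinearMap.BilinForm E V) (hB : B.Nondegenerate)
    (hBG : ∀ g x y, B (ρ g x) (ρ g y) = B x y)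
    (hBΦ : ∀ x y, B (Φ x) (Φ y) = (q : E) ^ 2 * B x y) (χ : G →* E) (b : ℕ) :
    (tateDim Φ ρ q (p ^ b) χ : ℤ) + (if χ = 1 then 2 else 0) + signTerm Φ ρ q p b χ
      ≤ D.mult p χ := by
  have hfact : Fact p.Prime := ⟨hp⟩
  have hq0 : (q : E) ≠ 0 := by
    intro h0
    have h1 : q = 0 := by exact_mod_cast h0
    rw [h1] at hq
    have h2 : p ∣ 1 := (Nat.modEq_iff_dvd' (Nat.zero_le 1)).1 hq
    exact hp.one_lt.ne' (Nat.dvd_one.1 h2)
  have hdim : tateDim Φ ρ q (p ^ b) χ
      = ∑ ζ ∈ nthRootsFinset (p ^ b) (1 : E),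
        finrank E ((part h.comm χ).maxGenEigenspace ((q : E) * ζ)) :=
    Finset.sum_congr rfl fun ζ _ => dim_part h.comm χ _
  set Ψ := part h.comm χ with hΨ
  by_cases hsign : (p = 2 ∧ b = 0) ∧ MinusSign Φ ρ q χ
  · rw [signTerm, if_pos hsign]
    obtain ⟨⟨rfl, rfl⟩, hχ2, _, hdet⟩ := hsign
    -- `-q` is an eigenvalue
    have hroot : Ψ.charpoly.IsRoot (-(q : E)) :=
      neg_eigen (B.restrict (eig ρ χ)) (form_part B hB hBG χ hχ2) Ψ hq0 (fun x y => by
        change B (Φ x.1) (Φ y.1) = _
        rw [hBΦ]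
        rfl) hdet
    have h1 : nthRootsFinset (2 ^ 0) (1 : E) = {1} := by
      ext x
      rw [mem_nthRootsFinset (by norm_num), Finset.mem_singleton, pow_zero, pow_one]
    rw [hdim, h1, Finset.sum_singleton, mul_one, LinearMap.finrank_maxGenEigenspace_eq,
      ← count_roots]
    set c := Multiset.count (q : E) Ψ.charpoly.roots with hc
    have hne : (q : E) ≠ -(q : E) := by
      intro h2
      have h3 : (2 : E) * q = 0 := by linear_combination h2
      rcases mul_eq_zero.1 h3 with h4 | h4
      · exact two_ne_zero h4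
      · exact hq0 h4
    have hle : Multiset.replicate c (q : E) + {-(q : E)} ≤ Ψ.charpoly.roots := by
      rw [Multiset.le_iff_count]
      intro x
      rw [Multiset.count_add, Multiset.count_replicate, Multiset.count_singleton]
      by_cases hx : (q : E) = x
      · rw [if_pos hx, if_neg (fun h' => hne (hx.trans h')), ← hx, ← hc]
        rfl
      · rw [if_neg hx]
        by_cases hx' : x = -(q : E)
        · rw [if_pos hx', hx', zero_add, Nat.succ_le_iff, Multiset.count_pos, mem_roots
            (LinearMap.charpoly_monic Ψ).ne_zero]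
          exact hroot
        · rw [if_neg hx']
          exact Nat.zero_le _
    have h2 := bound_part hp hG hq D h χ 1 _ hle (by
      intro x hx
      rw [Multiset.mem_add, Multiset.mem_singleton] at hx
      rcases hx with hx | hx
      · rw [Multiset.eq_of_mem_replicate hx]
      · rw [hx]
        norm_num)
    rw [Multiset.card_add, Multiset.card_replicate, Multiset.card_singleton] at h2
    push_cast at h2
    linarith
  · rw [signTerm, if_neg hsign, add_zero]
    have h0 := bound_part hp hG hq D h χ b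
    obtain ⟨M, hM⟩ : ∃ M : ℕ, (M : ℤ) = D.mult p χ - (if χ = 1 then 2 else 0) := by
      have := h0 0 (Multiset.zero_le _) (by simp)
      rw [Multiset.card_zero] at this
      refine ⟨(D.mult p χ - (if χ = 1 then 2 else 0)).toNat, Int.toNat_of_nonneg ?_⟩
      push_cast at this
      linarith
    have h1 := sum_dim Ψ b (pow_pos hp.pos b) (q : E) hq0 M (fun S hS hS2 => by
      have h2 := h0 S hS hS2
      have h3 : (S.card : ℤ) ≤ (M : ℤ) := by
        rw [hM]
        linarith
      exact_mod_cast h3)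
    rw [← hdim] at h1
    have h2 : (tateDim Φ ρ q (p ^ b) χ : ℤ) ≤ (M : ℤ) := by exact_mod_cast h1
    rw [hM] at h2
    linarith

/-- The sum of the generalized eigenspaces of `Φ` for the eigenvalues `q ζ`, `ζ ^ n = 1`. It contains
the classes which are fixed by the `n`-th power of Frobenius (on the twisted cohomology). -/
noncomputable def tateSpace (Φ : Module.End E V) (q n : ℕ) : Submodule E V :=
  ⨆ ζ ∈ nthRootsFinset n (1 : E), Φ.maxGenEigenspace ((q : E) * ζ)

lemma mem_tateSpace {n : ℕ} (hn : 0 < n) (hq0 : (q : E) ≠ 0) {v : V}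
    (hv : (Φ ^ n) v = (q : E) ^ n • v) : v ∈ tateSpace Φ q n :=
  pow_eig Φ hn hq0 (mem_eigenspace_iff.2 hv)

/-- The dimension of the space of Tate classes. -/
theorem total_dim [Fintype (G →* E)] (hc : ∀ g, Commute Φ (ρ g)) (n : ℕ) :
    finrank E (tateSpace Φ q n) ≤ ∑ χ : G →* E, tateDim Φ ρ q n χ := by
  classical
  have h1 := finrank_iSup_le (nthRootsFinset n (1 : E))
    (fun ζ => Φ.maxGenEigenspace ((q : E) * ζ))
  refine h1.trans ?_
  unfold tateDim
  rw [Finset.sum_comm]
  refine Finset.sum_le_sum fun ζ _ => ?_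
  have h2 := isotypic (ρ := ρ) (Φ.maxGenEigenspace ((q : E) * ζ)) (fun g v hv =>
    Module.End.mapsTo_maxGenEigenspace_of_comm (hc g) _ hv)
  have h3 : Φ.maxGenEigenspace ((q : E) * ζ)
      ≤ ⨆ χ ∈ (univ : Finset (G →* E)), Φ.maxGenEigenspace ((q : E) * ζ) ⊓ eig ρ χ := by
    refine h2.trans (iSup_le fun χ => ?_)
    exact le_iSup₂_of_le χ (mem_univ _) le_rfl
  exact (Submodule.finrank_mono h3).trans (finrank_iSup_le _ _)

/-- **The Tate conjecture for divisors** over the extension of degree `n` of the finite field: all the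
classes in the generalized eigenspaces for `q ζ`, `ζ ^ n = 1`, are in `N`, the span of the classes of the
divisors; and over finitely generated fields: if a group (a Galois group) acts on the twisted
cohomology by `σ`, `F` is a Frobenius element, so that `Φ = q F`, and the subgroup `H` contains `F ^ n`,
then all classes fixed by `H` are in `N`. -/
def TateHolds (Φ : Module.End E V) (N : Submodule E V) (q n : ℕ) : Prop :=
  tateSpace Φ q n ≤ N ∧
  ∀ (𝒢 : Type) [Group 𝒢] (σ : Representation E 𝒢 V) (F : 𝒢), (∀ v, Φ v = (q : E) • σ F v) →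
    ∀ H : Subgroup 𝒢, F ^ n ∈ H → ∀ v, (∀ h ∈ H, σ h v = v) → v ∈ N

lemma tateHolds_of_le {N : Submodule E V} {n : ℕ} (hn : 0 < n) (hq0 : (q : E) ≠ 0)
    (h : tateSpace Φ q n ≤ N) : TateHolds Φ N q n := by
  refine ⟨h, ?_⟩
  intro 𝒢 _ σ F hF H hH v hv
  refine h (mem_tateSpace hn hq0 ?_)
  have h1 : ∀ (m : ℕ) (w : V), (Φ ^ m) w = (q : E) ^ m • σ (F ^ m) w := by
    intro m
    induction m with
    | zero => intro w; simp
    | succ m ih =>
      intro w
      rw [pow_succ', Module.End.mul_apply, ih, map_smul, hF, smul_smul, pow_succ', pow_succ',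
        map_mul, Module.End.mul_apply, mul_comm]
  rw [h1, hv _ hH]

/-- Enough divisors imply the Tate conjecture. -/
theorem tate_of_dim {N : Submodule E V} {n : ℕ} (hn : 0 < n) (hq0 : (q : E) ≠ 0) {M : ℕ}
    (h1 : finrank E (tateSpace Φ q n) ≤ M)
    (h2 : M ≤ finrank E (N ⊓ tateSpace Φ q n : Submodule E V)) : TateHolds Φ N q n := by
  refine tateHolds_of_le hn hq0 ?_
  have h3 : N ⊓ tateSpace Φ q n = tateSpace Φ q n :=
    Submodule.eq_of_le_of_finrank_le inf_le_right (h1.trans h2)
  rw [← h3]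
  exact inf_le_left

end Pool.Agent.J6H31.GA
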