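import Pool.Agent.J6H31.GA.Lin

/-!
# Similitudes of determinant with negative sign; powers of endomorphisms
-/

set_option autoImplicit false
set_option linter.unusedSectionVars false

namespace Pool.Agent.J6H31.GA

open Finset Polynomial Module Module.End

variable {E : Type} [Field E] {W : Type} [AddCommGroup W] [Module E W] [FiniteDimensional E W]

/-- If `B(Φ x, Φ y) = c² B(x, y)` and the determinant of `Φ` is `-c ^ dim W`, then `-c` is an
eigenvalue of `Φ`. -/
theorem neg_eigen [CharZero E] (B : LinearMap.BilinForm E W) (hB : B.Nondegenerate)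
    (Φ : Module.End E W) {c : E} (hc : c ≠ 0) (h : ∀ x y, B (Φ x) (Φ y) = c ^ 2 * B x y)
    (hdet : LinearMap.det Φ = -c ^ finrank E W) : Φ.charpoly.IsRoot (-c) := by
  classical
  let b := finBasis E W
  have hform : B.comp (Φ + c • 1) Φ = c • B.compRight (Φ + c • 1) := by
    ext x y
    simp only [LinearMap.BilinForm.comp_apply, LinearMap.smul_apply,
      LinearMap.BilinForm.compRight_apply, LinearMap.add_apply, Module.End.one_apply, map_add,
      map_smul, smul_eq_mul, h]
    ring
  have hM := congrArg (LinearMap.BilinForm.toMatrix b) hform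
  rw [LinearMap.BilinForm.toMatrix_comp b b, map_smul, LinearMap.BilinForm.toMatrix_compRight] at hM
  have hD := congrArg Matrix.det hM
  rw [Matrix.det_mul, Matrix.det_mul, Matrix.det_transpose, Matrix.det_smul, Matrix.det_mul,
    LinearMap.det_toMatrix, LinearMap.det_toMatrix, hdet, Fintype.card_fin] at hD
  have hJ : (LinearMap.BilinForm.toMatrix b B).det ≠ 0 :=
    (LinearMap.BilinForm.nondegenerate_iff_det_ne_zero b).1 hB
  have h0 : LinearMap.det (Φ + c • 1) = 0 := by
    have h1 : (2 * c ^ finrank E W) * ((LinearMap.BilinForm.toMatrix b B).det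
        * LinearMap.det (Φ + c • 1)) = 0 := by
      linear_combination -hD
    have h2 : (2 * c ^ finrank E W : E) ≠ 0 := mul_ne_zero two_ne_zero (pow_ne_zero _ hc)
    exact (mul_eq_zero.1 ((mul_eq_zero.1 h1).resolve_left h2)).resolve_left hJ
  rw [← Module.End.hasEigenvalue_iff_isRoot_charpoly]
  have h3 : ∃ v, v ≠ 0 ∧ (Φ + c • 1) v = 0 := by
    have h4 : LinearMap.ker (Φ + c • 1) ≠ ⊥ := by
      intro hker
      have h5 : IsUnit (Φ + c • 1) := (LinearMap.isUnit_iff_ker_eq_bot _).2 hker
      have h6 := (LinearMap.isUnit_det _ h5)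
      rw [h0] at h6
      exact not_isUnit_zero h6
    obtain ⟨v, hv, hv0⟩ := Submodule.exists_mem_ne_zero_of_ne_bot h4
    exact ⟨v, hv0, hv⟩
  obtain ⟨v, hv0, hv⟩ := h3
  refine hasEigenvalue_of_hasEigenvector (x := v) ⟨?_, hv0⟩
  rw [mem_eigenspace_iff]
  have h7 : Φ v + c • v = 0 := hv
  rw [neg_smul]
  exact eq_neg_of_add_eq_zero_left h7

/-- The dimension of a sum of subspaces. -/
lemma finrank_iSup_le {ι : Type} (s : Finset ι) (U : ι → Submodule E W) :
    finrank E (⨆ i ∈ s, U i : Submodule E W) ≤ ∑ i ∈ s, finrank E (U i) := by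
  classical
  induction s using Finset.induction_on with
  | empty => simp
  | insert a s ha ih =>
    rw [Finset.iSup_insert, Finset.sum_insert ha]
    exact (Submodule.finrank_add_le_finrank_add_finrank _ _).trans (Nat.add_le_add_left ih _)

/-- The eigenspaces of a power. -/
theorem pow_eig [CharZero E] [IsAlgClosed E] (Ψ : Module.End E W) {N : ℕ} (hN : 0 < N) {c : E}
    (hc : c ≠ 0) : (Ψ ^ N).eigenspace (c ^ N)
      ≤ ⨆ ζ ∈ nthRootsFinset N (1 : E), Ψ.maxGenEigenspace (c * ζ) := by
  classical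
  set T := (Ψ ^ N).eigenspace (c ^ N) with hT
  have hstab : ∀ v ∈ T, Ψ v ∈ T := by
    intro v hv
    rw [hT, mem_eigenspace_iff] at hv ⊢
    have h1 : (Ψ ^ N) (Ψ v) = Ψ ((Ψ ^ N) v) :=
      LinearMap.congr_fun ((Commute.refl Ψ).pow_left N) v
    rw [h1, hv, map_smul]
  let f : Module.End E T := Ψ.restrict hstab
  have hf : ∀ v : T, (f v : W) = Ψ v := fun v => rfl
  have hfp : ∀ (n : ℕ) (v : T), ((f ^ n) v : W) = (Ψ ^ n) v := by
    intro n
    induction n with
    | zero => intro v; rfl
    | succ n ih =>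
      intro v
      rw [pow_succ, pow_succ]
      change ((f ^ n) (f v) : W) = (Ψ ^ n) (Ψ v)
      rw [ih]
      rfl
  have hfN : f ^ N = algebraMap E _ (c ^ N) := by
    ext v
    rw [hfp, Module.algebraMap_end_apply]
    exact mem_eigenspace_iff.1 v.2
  have hss : f.IsSemisimple := by
    have hsep : (X ^ N - C (c ^ N) : E[X]).Separable :=
      separable_X_pow_sub_C (c ^ N) (by exact_mod_cast hN.ne') (pow_ne_zero _ hc)
    refine isSemisimple_of_squarefree_aeval_eq_zero hsep.squarefree ?_
    rw [map_sub, map_pow, aeval_X, aeval_C, hfN, sub_self]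
  have htop := hss.iSup_eigenspace_eq_top
  intro v hv
  have h1 : (⟨v, hv⟩ : T) ∈ ⨆ x, f.eigenspace x := by
    rw [htop]
    exact Submodule.mem_top
  have h2 : (⨆ x, f.eigenspace x)
      ≤ (⨆ ζ ∈ nthRootsFinset N (1 : E), Ψ.maxGenEigenspace (c * ζ)).comap T.subtype := by
    refine iSup_le fun x w hw => ?_
    rw [Submodule.mem_comap]
    by_cases hw0 : w = 0
    · rw [hw0, map_zero]
      exact Submodule.zero_mem _
    rw [mem_eigenspace_iff] at hw
    have h3 : ∀ n : ℕ, (f ^ n) w = x ^ n • w := by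
      intro n
      induction n with
      | zero => rw [pow_zero, pow_zero, one_smul]; rfl
      | succ n ih =>
        rw [pow_succ]
        change (f ^ n) (f w) = _
        rw [hw, map_smul, ih, smul_smul, pow_succ, mul_comm]
    have h4 : x ^ N = c ^ N := by
      have h5 := h3 N
      rw [hfN, Module.algebraMap_end_apply] at h5
      have h6 : (c ^ N - x ^ N) • w = 0 := by rw [sub_smul, h5, sub_self]
      rcases smul_eq_zero.1 h6 with h7 | h7
      · exact (sub_eq_zero.1 h7).symm
      · exact absurd h7 hw0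
    have hmem : x / c ∈ nthRootsFinset N (1 : E) := by
      rw [mem_nthRootsFinset hN, div_pow, h4, div_self (pow_ne_zero _ hc)]
    have hx : c * (x / c) = x := mul_div_cancel₀ x hc
    have h8 : Ψ.maxGenEigenspace (c * (x / c))
        ≤ ⨆ ζ ∈ nthRootsFinset N (1 : E), Ψ.maxGenEigenspace (c * ζ) :=
      le_iSup₂_of_le (x / c) hmem le_rfl
    apply h8
    rw [hx]
    have h9 : Ψ.eigenspace x ≤ Ψ.maxGenEigenspace x := (Ψ.genEigenspace x).mono le_top
    apply h9
    rw [mem_eigenspace_iff]
    exact congrArg Subtype.val hw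
  exact h2 h1

/-- The restriction of a nondegenerate invariant form to the part of a quadratic character. -/
theorem form_part {V : Type} [AddCommGroup V] [Module E V] [FiniteDimensional E V] [CharZero E]
    {G : Type} [CommGroup G] [Fintype G] {ρ : G →* Module.End E V} (B : LinearMap.BilinForm E V)
    (hB : B.Nondegenerate) (hinv : ∀ g x y, B (ρ g x) (ρ g y) = B x y) (χ : G →* E)
    (hχ : ∀ g, χ g ^ 2 = 1) : (B.restrict (eig ρ χ)).Nondegenerate := by
  classical
  have hcard : (Fintype.card G : E) ≠ 0 := by exact_mod_cast Fintype.card_ne_zero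
  let Pr : Module.End E V := ∑ g : G, χ g⁻¹ • ρ g
  have hgP : ∀ h : G, ρ h * Pr = χ h • Pr := by
    intro h
    change ρ h * ∑ g : G, χ g⁻¹ • ρ g = χ h • ∑ g : G, χ g⁻¹ • ρ g
    rw [Finset.mul_sum, Finset.smul_sum]
    refine Fintype.sum_equiv (Equiv.mulLeft h) _ _ fun g => ?_
    rw [Equiv.coe_mulLeft, mul_smul_comm, ← map_mul, smul_smul, ← map_mul]
    congr 2
    rw [mul_inv_rev, mul_comm g⁻¹, ← mul_assoc, mul_inv_cancel, one_mul]
  have hmem : ∀ w, Pr w ∈ eig ρ χ := by
    intro w
    rw [mem_eig]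
    intro h
    exact LinearMap.congr_fun (hgP h) w
  have hinv1 : ∀ g, χ g⁻¹ = χ g := by
    intro g
    have h1 := chi_inv χ g
    have h2 := hχ g
    have h3 : χ g ≠ 0 := by
      intro h0
      rw [h0, mul_zero] at h1
      exact zero_ne_one h1
    apply mul_right_cancel₀ h3
    rw [h1, ← pow_two, h2]
  have key1 : ∀ v ∈ eig ρ χ, ∀ w, B v (Pr w) = (Fintype.card G : E) * B v w := by
    intro v hv w
    rw [mem_eig] at hv
    change B v ((∑ g : G, χ g⁻¹ • ρ g) w) = _
    rw [LinearMap.sum_apply, map_sum]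
    have h2 : ∀ g ∈ (univ : Finset G), B v ((χ g⁻¹ • ρ g) w) = B v w := by
      intro g _
      rw [LinearMap.smul_apply, map_smul, smul_eq_mul]
      have h3 := hinv g (ρ g⁻¹ v) w
      have h4 : ρ g (ρ g⁻¹ v) = v := by
        rw [← Module.End.mul_apply, ← map_mul, mul_inv_cancel, map_one, Module.End.one_apply]
      rw [h4, hv g⁻¹, map_smul, LinearMap.smul_apply, smul_eq_mul] at h3
      rw [h3, ← mul_assoc, hinv1, ← pow_two, hχ, one_mul]
    rw [Finset.sum_congr rfl h2, Finset.sum_const, Finset.card_univ, nsmul_eq_mul]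
  have key2 : ∀ v ∈ eig ρ χ, ∀ w, B (Pr w) v = (Fintype.card G : E) * B w v := by
    intro v hv w
    rw [mem_eig] at hv
    change B ((∑ g : G, χ g⁻¹ • ρ g) w) v = _
    rw [LinearMap.sum_apply, map_sum, LinearMap.sum_apply]
    have h2 : ∀ g ∈ (univ : Finset G), B ((χ g⁻¹ • ρ g) w) v = B w v := by
      intro g _
      rw [LinearMap.smul_apply, map_smul, LinearMap.smul_apply, smul_eq_mul]
      have h3 := hinv g w (ρ g⁻¹ v)
      have h4 : ρ g (ρ g⁻¹ v) = v := by
        rw [← Module.End.mul_apply, ← map_mul, mul_inv_cancel, map_one, Module.End.one_apply]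
      rw [h4, hv g⁻¹, map_smul, smul_eq_mul] at h3
      rw [h3, ← mul_assoc, hinv1, ← pow_two, hχ, one_mul]
    rw [Finset.sum_congr rfl h2, Finset.sum_const, Finset.card_univ, nsmul_eq_mul]
  have hl : (B.restrict (eig ρ χ)).SeparatingLeft := by
    intro v hv
    apply Subtype.ext
    refine hB.1 v.1 fun w => ?_
    have h1 : B v.1 (Pr w) = 0 := hv ⟨Pr w, hmem w⟩
    rw [key1 v.1 v.2 w] at h1
    exact (mul_eq_zero.1 h1).resolve_left hcard
  exact LinearMap.BilinForm.Nondegenerate.ofSeparatingLeft hl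

end Pool.Agent.J6H31.GA
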