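import Pool.Agent.J6H31.GA.Branch
import Pool.Agent.J6H31.GA.Sign

/-!
# Tate classes and actions of finite abelian `p`-groups
-/

set_option autoImplicit false
set_option linter.unusedSectionVars false

namespace Pool.Agent.J6H31.GA

open Finset Polynomial Pool.Agent.W528.HS Pool.Agent.J6H31.AC

variable {G : Type} [CommGroup G] [Fintype G] {K : Covering G} {q : ℕ} {E : Type} [Field E]
  [CharZero E] [IsAlgClosed E] {r : ℕ} {V : Type} [AddCommGroup V] [Module E V]
  [FiniteDimensional E V] {Φ : Module.End E V} {ρ : G →* Module.End E V}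

open Classical in
/-- The eigenvalues of Frobenius on the part of a character which are congruent to `1`. -/
theorem cnt_part {p s : ℕ} (hp : p.Prime) (hG : ∀ g : G, g ^ p ^ s = 1) (hq : q ≡ 1 [MOD p])
    (D : Branch K q E r) (h : IsH2 K q Φ ρ) (χ : G →* E) :
    (∀ x ∈ (part h.comm χ).charpoly.roots, IsIntegral ℤ x) ∧
    ∀ (k : Type) [Field k] [CharP k p] (θ : Oint E →+* k),
      (cnt θ (part h.comm χ).charpoly.roots : ℤ) + (if χ = 1 then 2 else 0) = D.mult p χ := by
  have hfact : Fact p.Prime := ⟨hp⟩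
  have hN : 0 < p ^ s := pow_pos hp.pos s
  have hcard : (Fintype.card G : E) ≠ 0 := by exact_mod_cast Fintype.card_ne_zero
  have : NeZero ((p ^ s : ℕ) : E) := ⟨by exact_mod_cast hN.ne'⟩
  obtain ⟨μ, hμ⟩ := HasEnoughRootsOfUnity.exists_primitiveRoot E (p ^ s)
  have hχ : ∀ g, χ g ^ p ^ s = 1 := fun g => by rw [← map_pow, hG, map_one]
  set Ψ := part h.comm χ with hΨ
  set A : Multiset E := Ψ.charpoly.roots + (if χ = 1 then {1, (q : E) ^ 2} else 0) with hA
  have hsum : ∑ g : G, χ g⁻¹ = if χ = 1 then (Fintype.card G : E) else 0 := by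
    by_cases h1 : χ = 1
    · rw [if_pos h1, h1]
      simp
    · rw [if_neg h1]
      obtain ⟨g₀, hg₀⟩ : ∃ g₀, χ g₀ ≠ 1 := by
        by_contra hcon
        push Not at hcon
        exact h1 (MonoidHom.ext hcon)
      have h2 : χ g₀⁻¹ * ∑ g : G, χ g⁻¹ = ∑ g : G, χ g⁻¹ := by
        rw [Finset.mul_sum]
        refine Fintype.sum_equiv (Equiv.mulRight g₀) _ _ fun g => ?_
        rw [Equiv.coe_mulRight, ← map_mul, mul_inv_rev]
      have h3 : (χ g₀⁻¹ - 1) * ∑ g : G, χ g⁻¹ = 0 := by rw [sub_mul, h2, one_mul, sub_self]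
      refine (mul_eq_zero.1 h3).resolve_left fun h4 => hg₀ ?_
      have h5 := chi_inv χ g₀
      rwa [sub_eq_zero.1 h4, one_mul] at h5
  have horb : ∀ n, 1 ≤ n → orbSum (p ^ s) μ (K.a χ μ) n = (A.map fun x => x ^ n).sum := by
    intro n hn
    have h1 := K.trace_sum χ hN hμ hχ (n := n) hn
    have h2 := trace_part h.comm χ n
    have h3 : ∑ g : G, χ g⁻¹ * (Set.ncard {x : K.X | K.FX^[n] (g • x) = x} : E)
        = ∑ g : G, χ g⁻¹ * LinearMap.trace E V (Φ ^ n * ρ g)
          + (∑ g : G, χ g⁻¹) * (1 + ((q : E) ^ 2) ^ n) := by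
      rw [Finset.sum_mul, ← Finset.sum_add_distrib]
      refine Finset.sum_congr rfl fun g _ => ?_
      rw [h.lefschetz n hn g]
      ring
    rw [h3, ← h2, hsum] at h1
    apply mul_left_cancel₀ hcard
    rw [← h1, hA, Multiset.map_add, Multiset.sum_add,
      ← Pool.Agent.W63.HS.TR.main E (eig ρ χ) Ψ n]
    by_cases hχ1 : χ = 1
    · rw [if_pos hχ1, if_pos hχ1]
      simp only [Multiset.insert_eq_cons, Multiset.map_cons, Multiset.map_singleton,
        Multiset.sum_cons, Multiset.sum_singleton, one_pow]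
      ring
    · rw [if_neg hχ1, if_neg hχ1]
      simp only [zero_mul, add_zero, Multiset.map_zero, Multiset.sum_zero, hΨ]
  have hAint := integral_of_orb hN hμ.pow_eq_one (K.a χ μ) A horb
  refine ⟨fun x hx => hAint x (by rw [hA, Multiset.mem_add]; exact Or.inl hx), ?_⟩
  intro k _ _ θ
  obtain ⟨Q₁, Q₂, s₁, s₂, N₁, N₂, l₁, l₂, hU, hm⟩ := D.link hp hq χ
  have h1 : ∀ n, 1 ≤ n → orbSum (p ^ s) (1 : E) (K.a χ μ) n = s₁ n - s₂ n := by
    intro n hn
    rw [← hU n hn, ← cast_orbSum, ← K.count χ hN hμ hχ (n := n) hn]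
    push_cast
    rfl
  have h2 := cnt_eq θ hp hμ.pow_eq_one (K.a χ μ) l₁ l₂ h1 A 0 hAint (by simp) (by
    intro n hn
    rw [horb n hn]
    simp)
  rw [hm k] at h2
  rw [← h2, hA, cnt_add]
  have hqk : ((q : ℕ) : k) = 1 := by
    have := (CharP.natCast_eq_natCast k p).2 hq
    simpa using this
  have h3 : cnt θ (if χ = 1 then {1, (q : E) ^ 2} else 0) = if χ = 1 then 2 else 0 := by
    by_cases hχ1 : χ = 1
    · rw [if_pos hχ1, if_pos hχ1]
      unfold cnt
      have h4 : ∀ x ∈ ({1, (q : E) ^ 2} : Multiset E), ∃ h : x ∈ Oint E, θ ⟨x, h⟩ = 1 := by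
        intro x hx
        have hx' : x = 1 ∨ x = (q : E) ^ 2 := by simpa using hx
        rcases hx' with rfl | rfl
        · exact ⟨(Oint E).one_mem, map_one θ⟩
        · refine ⟨(Oint E).pow_mem (natCast_mem (Oint E) q) 2, ?_⟩
          have h5 : (⟨(q : E) ^ 2, (Oint E).pow_mem (natCast_mem (Oint E) q) 2⟩ : Oint E)
              = ((q : ℕ) : Oint E) ^ 2 := by
            apply Subtype.ext
            push_cast
            rfl
          rw [h5, map_pow, map_natCast, hqk, one_pow]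
      rw [Multiset.filter_eq_self.2 h4]
      rfl
    · rw [if_neg hχ1, if_neg hχ1]
      rfl
  have h4 : cnt θ (0 : Multiset E) = 0 := rfl
  rw [h3, h4]
  push_cast
  ring

/-- An eigenvalue `x` with `x ^ (p ^ b) = q ^ (p ^ b)` is congruent to `1`. -/
lemma theta_tate {p : ℕ} [Fact p.Prime] (hq : q ≡ 1 [MOD p]) {k : Type} [Field k] [CharP k p]
    (θ : Oint E →+* k) {b : ℕ} {x : E} (h : x ^ p ^ b = (q : E) ^ p ^ b) :
    ∃ h : x ∈ Oint E, θ ⟨x, h⟩ = 1 := by
  have hp : p.Prime := Fact.out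
  have hint : x ∈ Oint E := by
    have h1 : IsIntegral ℤ (x ^ p ^ b) := by
      rw [h]
      have h0 := (isIntegral_algebraMap (R := ℤ) (A := E) (x := (q : ℤ))).pow (p ^ b)
      simpa using h0
    exact IsIntegral.of_pow (pow_pos hp.pos b) h1
  refine ⟨hint, ?_⟩
  have hqk : ((q : ℕ) : k) = 1 := by
    have := (CharP.natCast_eq_natCast k p).2 hq
    simpa using this
  have h9 : (⟨x, hint⟩ : Oint E) ^ p ^ b = ((q : ℕ) : Oint E) ^ p ^ b := by
    apply Subtype.ext
    push_cast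
    exact h
  have h10 := congrArg θ h9
  rw [map_pow, map_pow, map_natCast, hqk, one_pow] at h10
  have h11 : (θ ⟨x, hint⟩ - 1) ^ p ^ b = 0 := by
    rw [sub_pow_char_pow, h10, one_pow, sub_self]
  exact sub_eq_zero.mp ((pow_eq_zero_iff (pow_pos hp.pos b).ne').mp h11)

open Classical in
/-- The number of Tate eigenvalues on the part of a character. -/
theorem bound_part {p s : ℕ} (hp : p.Prime) (hG : ∀ g : G, g ^ p ^ s = 1) (hq : q ≡ 1 [MOD p])
    (D : Branch K q E r) (h : IsH2 K q Φ ρ) (χ : G →* E) (b : ℕ) (S : Multiset E)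
    (hS : S ≤ (part h.comm χ).charpoly.roots)
    (hS2 : ∀ x ∈ S, x ^ p ^ b = (q : E) ^ p ^ b) :
    (S.card : ℤ) + (if χ = 1 then 2 else 0) ≤ D.mult p χ := by
  have hfact : Fact p.Prime := ⟨hp⟩
  obtain ⟨k, _, _, ⟨θ⟩⟩ := Pool.Agent.W804.HS.RD.main E p hp
  have h1 := (cnt_part hp hG hq D h χ).2 k θ
  have h2 := cnt_le θ hS fun x hx => theta_tate hq θ (hS2 x hx)
  have h3 : (S.card : ℤ) ≤ (cnt θ (part h.comm χ).charpoly.roots : ℤ) := by exact_mod_cast h2
  linarith

end Pool.Agent.J6H31.GA
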