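import Pool.Agent.J6H31.GA.StmW
import Pool.Agent.J6H31.GA.Final

/-!
# Homological and numerical equivalence in the middle degree
-/

set_option autoImplicit false
set_option linter.unusedSectionVars false

namespace Pool.Agent.J6H31.GA

open Finset Polynomial Module Module.End Pool.Agent.W528.HS Pool.Agent.J6H31.AC

section sums

variable {ι : Type} [DecidableEq ι]

lemma alt_insert {J : Finset ι} {a : ι} (ha : a ∉ J) (f : ℕ → ℤ) :
    ∑ A ∈ (insert a J).powerset, (-1) ^ A.card * f A.card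
      = ∑ A ∈ J.powerset, (-1) ^ A.card * (f A.card - f (A.card + 1)) := by
  rw [Finset.sum_powerset_insert ha, ← Finset.sum_add_distrib]
  refine Finset.sum_congr rfl fun A hA => ?_
  have h1 : a ∉ A := fun h => ha (Finset.mem_powerset.1 hA h)
  rw [Finset.card_insert_of_notMem h1, pow_succ]
  ring

/-- Alternating sums over the subsets of a set. -/
lemma alt_sum (J : Finset ι) (d : ℕ) (h : 2 ≤ J.card) (h' : J.card ≤ d + 1) :
    ∑ A ∈ J.powerset, (-1) ^ A.card * ((d + 1 - A.card : ℕ) : ℤ) = 0 := by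
  obtain ⟨a, haJ⟩ : J.Nonempty := Finset.card_pos.1 (by omega)
  have h1 : J = insert a (J.erase a) := (Finset.insert_erase haJ).symm
  have h2 : (J.erase a).card = J.card - 1 := Finset.card_erase_of_mem haJ
  rw [h1, alt_insert (Finset.notMem_erase a J) (fun i => ((d + 1 - i : ℕ) : ℤ))]
  have h3 : ∀ A ∈ (J.erase a).powerset, (-1 : ℤ) ^ A.card *
      (((d + 1 - A.card : ℕ) : ℤ) - ((d + 1 - (A.card + 1) : ℕ) : ℤ)) = (-1) ^ A.card := by
    intro A hA
    have h4 := Finset.card_le_card (Finset.mem_powerset.1 hA)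
    have h5 : ((d + 1 - A.card : ℕ) : ℤ) - ((d + 1 - (A.card + 1) : ℕ) : ℤ) = 1 := by omega
    rw [h5, mul_one]
  rw [Finset.sum_congr rfl h3, Finset.sum_powerset_neg_one_pow_card, if_neg]
  intro h0
  rw [h0, Finset.card_empty] at h2
  omega

lemma alt_sum_one (J : Finset ι) (d : ℕ) (h : J.card = 1) :
    ∑ A ∈ J.powerset, (-1) ^ A.card * ((d + 1 - A.card : ℕ) : ℤ) = 1 := by
  obtain ⟨a, rfl⟩ := Finset.card_eq_one.1 h
  have h1 : ({a} : Finset ι) = insert a ∅ := rfl
  rw [h1, alt_insert (Finset.notMem_empty a) (fun i => ((d + 1 - i : ℕ) : ℤ))]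
  rw [Finset.powerset_empty, Finset.sum_singleton, Finset.card_empty]
  omega

lemma alt_sum_top (J : Finset ι) (d : ℕ) (hd : Even d) (h : J.card = d + 2) :
    ∑ A ∈ J.powerset, (-1) ^ A.card * ((d + 1 - A.card : ℕ) : ℤ) = 1 := by
  obtain ⟨a, haJ⟩ : J.Nonempty := Finset.card_pos.1 (by omega)
  have h1 : J = insert a (J.erase a) := (Finset.insert_erase haJ).symm
  have h2 : (J.erase a).card = d + 1 := by
    rw [Finset.card_erase_of_mem haJ, h]
    rfl
  rw [h1, alt_insert (Finset.notMem_erase a J) (fun i => ((d + 1 - i : ℕ) : ℤ))]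
  have h3 : ∀ A ∈ (J.erase a).powerset, (-1 : ℤ) ^ A.card *
      (((d + 1 - A.card : ℕ) : ℤ) - ((d + 1 - (A.card + 1) : ℕ) : ℤ))
      = (-1) ^ A.card + if A = J.erase a then 1 else 0 := by
    intro A hA
    have h4 := Finset.card_le_card (Finset.mem_powerset.1 hA)
    by_cases hAJ : A = J.erase a
    · rw [if_pos hAJ, hAJ, h2]
      have h5 : ((d + 1 - (d + 1) : ℕ) : ℤ) - ((d + 1 - (d + 1 + 1) : ℕ) : ℤ) = 0 := by omega
      rw [h5, mul_zero, pow_succ, hd.neg_one_pow]
      ring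
    · rw [if_neg hAJ, add_zero]
      have h6 : A.card < (J.erase a).card := by
        refine lt_of_le_of_ne h4 fun h7 => hAJ ?_
        exact Finset.eq_of_subset_of_card_le (Finset.mem_powerset.1 hA) h7.ge
      have h5 : ((d + 1 - A.card : ℕ) : ℤ) - ((d + 1 - (A.card + 1) : ℕ) : ℤ) = 1 := by omega
      rw [h5, mul_one]
  rw [Finset.sum_congr rfl h3, Finset.sum_add_distrib, Finset.sum_powerset_neg_one_pow_card,
    if_neg, zero_add, Finset.sum_ite_eq', if_pos (Finset.mem_powerset_self _)]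
  intro h0
  rw [h0, Finset.card_empty] at h2
  omega

end sums

section

variable {G : Type} [CommGroup G] {K : Covering G} {E : Type} [Field E] {r : ℕ}

/-- The order of the pole at `T = q ^ (-m)` of the zeta function of `Z_A` modulo `p` is
`max (2 m + 1 - |A|, 0)`, for all `A`. -/
def Arrangement.GoodPosition (D : Arrangement K E r) (p q m : ℕ) [Fact p.Prime] : Prop :=
  ∀ A : Finset (Fin r), D.mu p ((q : ZMod p) ^ m)⁻¹ A = ((2 * m + 1 - A.card : ℕ) : ℤ)

theorem Arrangement.GoodPosition.mult {D : Arrangement K E r} {p q m : ℕ} [Fact p.Prime]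
    (hD : D.GoodPosition p q m) (χ : G →* E) :
    (2 ≤ (D.ram χ).card → (D.ram χ).card ≤ 2 * m + 1 → D.tateMult p q m χ = 0) ∧
    ((D.ram χ).card = 1 ∨ (D.ram χ).card = 2 * m + 2 → D.tateMult p q m χ = 1) := by
  have h1 : D.tateMult p q m χ
      = ∑ A ∈ (D.ram χ).powerset, (-1) ^ A.card * ((2 * m + 1 - A.card : ℕ) : ℤ) := by
    unfold Arrangement.tateMult Arrangement.mult
    refine Finset.sum_congr rfl fun A _ => ?_
    rw [hD A]
  rw [h1]
  refine ⟨fun h2 h3 => alt_sum _ _ h2 h3, ?_⟩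
  rintro (h2 | h2)
  · exact alt_sum_one _ _ h2
  · exact alt_sum_top _ _ (even_two_mul m) h2

end

variable {G : Type} [CommGroup G] [Fintype G] {K : Covering G} {E : Type} [Field E] [CharZero E]
  [IsAlgClosed E] {r : ℕ} {V : Type} [AddCommGroup V] [Module E V] [FiniteDimensional E V]
  {Φ : Module.End E V} {ρ : G →* Module.End E V}

lemma part_pow_eq (hc : ∀ g, Commute Φ (ρ g)) (n : ℕ) (hcn : ∀ g, Commute (Φ ^ n) (ρ g))
    (χ : G →* E) : part hcn χ = part hc χ ^ n := by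
  ext v
  rw [part_pow]
  rfl

/-- The number of the eigenvalues `q ^ m ζ`, `ζ` of `p`-power order. -/
theorem gen_bound_pow {p s d q m : ℕ} [hfact : Fact p.Prime] (hq : ¬ p ∣ q)
    (hG : ∀ g : G, g ^ p ^ s = 1) (D : Arrangement K E r) {c : ℕ → E} (hd : d = 2 * m)
    (h : IsMiddle K d c Φ ρ) {χ : G →* E} (hχ1 : χ ≠ 1) {α : E}
    (hα : α = (q : E) ^ m) (b : ℕ) :
    ((finrank E ((Φ ^ p ^ b).maxGenEigenspace (α ^ p ^ b) ⊓ eig ρ χ : Submodule E V) : ℕ) : ℤ)
      ≤ D.mult p (((q : ZMod p) ^ m)⁻¹) χ := by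
  classical
  have hp : p.Prime := Fact.out
  have hq0 : (q : E) ≠ 0 := by
    intro h0
    have h1 : q = 0 := by exact_mod_cast h0
    rw [h1] at hq
    exact hq (dvd_zero p)
  have hα0 : α ≠ 0 := by rw [hα]; exact pow_ne_zero _ hq0
  have hqp : (q : ZMod p) ^ m ≠ 0 := by
    refine pow_ne_zero _ ?_
    rw [Ne, ZMod.natCast_eq_zero_iff]
    exact hq
  have heven : Even d := ⟨m, by omega⟩
  obtain ⟨k, _, _, ⟨θ⟩⟩ := Pool.Agent.W804.HS.RD.main E p hp
  letI : Algebra (ZMod p) k := ZMod.algebra k p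
  set Ψ := part h.comm χ with hΨ
  have hint := (part_congr hp hG D h hχ1).1
  obtain ⟨A', hA'⟩ := lift_mult hint
  have hmain := card_eq_mult hG D heven h hχ1 k θ A' hA' hqp
  obtain ⟨hαi, hθα⟩ := theta_pow θ (q := q) (m := m) hα
  have hqk : algebraMap (ZMod p) k ((q : ZMod p) ^ m) = ((q : ℕ) : k) ^ m := by
    rw [map_pow, map_natCast]
  have hN : 0 < p ^ b := pow_pos hp.pos b
  have hcn : ∀ g, Commute (Φ ^ p ^ b) (ρ g) := fun g => (h.comm g).pow_left _
  refine le_trans ?_ hmain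
  refine Int.ofNat_le.2 ?_
  rw [dim_part hcn, part_pow_eq h.comm, ← hΨ]
  have h1 := Submodule.finrank_mono (pow_gen Ψ hN hα0)
  refine h1.trans ((finrank_iSup_le _ _).trans ?_)
  -- the eigenvalues `α ζ` are roots of `X ^ n - α ^ n`
  have hζint : ∀ ζ ∈ nthRootsFinset (p ^ b) (1 : E), α * ζ ∈ Oint E := by
    intro ζ hζ
    rw [mem_nthRootsFinset hN] at hζ
    refine (Oint E).mul_mem hαi ?_
    have h2 : IsIntegral ℤ (ζ ^ p ^ b) := by rw [hζ]; exact isIntegral_one
    exact IsIntegral.of_pow hN h2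
  let f : E → Oint E := fun ζ => if h : α * ζ ∈ Oint E then ⟨α * ζ, h⟩ else 0
  have hf : ∀ ζ ∈ nthRootsFinset (p ^ b) (1 : E), (f ζ).1 = α * ζ := by
    intro ζ hζ
    simp only [f]
    rw [dif_pos (hζint ζ hζ)]
  have hinj : Set.InjOn f (nthRootsFinset (p ^ b) (1 : E)) := by
    intro x hx y hy hxy
    have h2 : (f x).1 = (f y).1 := congrArg Subtype.val hxy
    rw [hf x hx, hf y hy] at h2
    exact mul_left_cancel₀ hα0 h2
  have h2 := sum_count_le θ A' (u := algebraMap (ZMod p) k ((q : ZMod p) ^ m))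
    ((nthRootsFinset (p ^ b) (1 : E)).image f) (by
      intro x hx
      rw [Finset.mem_image] at hx
      obtain ⟨ζ, hζ, rfl⟩ := hx
      have h3 : (f ζ) ^ p ^ b = (⟨α, hαi⟩ : Oint E) ^ p ^ b := by
        apply Subtype.ext
        push_cast
        rw [hf ζ hζ, mul_pow, (mem_nthRootsFinset hN (1 : E)).1 hζ, mul_one]
      have h4 := congrArg θ h3
      rw [map_pow, map_pow] at h4
      have h5 : (θ (f ζ) - θ ⟨α, hαi⟩) ^ p ^ b = 0 := by
        rw [sub_pow_char_pow, h4, sub_self]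
      have h6 := sub_eq_zero.1 ((pow_eq_zero_iff hN.ne').1 h5)
      rw [h6, hθα, hqk])
  rw [Finset.sum_image hinj] at h2
  refine le_trans (le_of_eq ?_) h2
  refine Finset.sum_congr rfl fun ζ hζ => ?_
  rw [LinearMap.finrank_maxGenEigenspace_eq, ← count_roots, ← hA', ← hf ζ hζ]
  exact Multiset.count_map_eq_count' Subtype.val A' Subtype.val_injective (f ζ)

end Pool.Agent.J6H31.GA
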