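import Pool.Agent.W715.HS.OC

/-!
# A finite abelian group acting on a set with Frobenius: sums over closed points of the quotient
-/

set_option autoImplicit false
set_option linter.unusedSectionVars false

namespace Pool.Agent.J6H31.GA

open Finset Pool.Agent.W528.HS

/-- A covering with the finite abelian group `G`: the set `X` of geometric points of a variety over
`κ`, with the action of `G`, the set `Y` of geometric points of the quotient, and the Frobenius maps. -/
structure Covering (G : Type) [CommGroup G] where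
  X : Type
  Y : Type
  act : MulAction G X
  FX : X → X
  FY : Y → Y
  π : X → Y
  FX_inj : Function.Injective FX
  FY_inj : Function.Injective FY
  surj : Function.Surjective π
  comm : ∀ (g : G) (x : X), FX (g • x) = g • FX x
  frob : ∀ x, π (FX x) = FY (π x)
  fibre : ∀ x x', π x = π x' ↔ ∃ g : G, g • x = x'
  finite : ∀ n, 0 < n → {y | FY^[n] y = y}.Finite

attribute [instance] Covering.act

variable {G : Type} [CommGroup G] (C : Covering G)

lemma Covering.iter_smul (n : ℕ) (g : G) (x : C.X) : C.FX^[n] (g • x) = g • C.FX^[n] x := by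
  induction n with
  | zero => rfl
  | succ n ih => rw [Function.iterate_succ_apply', Function.iterate_succ_apply', ih, C.comm]

lemma Covering.iter_π (n : ℕ) (x : C.X) : C.π (C.FX^[n] x) = C.FY^[n] (C.π x) := by
  induction n with
  | zero => rfl
  | succ n ih => rw [Function.iterate_succ_apply', Function.iterate_succ_apply', C.frob, ih]

lemma Covering.exists_h {n : ℕ} {x : C.X} (h : C.FY^[n] (C.π x) = C.π x) :
    ∃ g : G, C.FX^[n] x = g • x := by
  have h1 : C.π x = C.π (C.FX^[n] x) := by rw [C.iter_π, h]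
  obtain ⟨g, hg⟩ := (C.fibre _ _).1 h1
  exact ⟨g, hg.symm⟩

lemma Covering.π_smul (g : G) (x : C.X) : C.π (g • x) = C.π x :=
  ((C.fibre _ _).2 ⟨g, rfl⟩).symm

variable {E : Type} [Field E] (χ : G →* E)

/-- The character is unramified at the point `y` of the quotient: it is trivial on the stabilizers of
the points above `y`. -/
def Covering.unr (y : C.Y) : Prop := ∀ x, C.π x = y → ∀ g : G, g • x = x → χ g = 1

lemma chi_ne_zero (g : G) : χ g ≠ 0 := by
  intro h
  have h1 : χ (g * g⁻¹) = 0 := by rw [map_mul, h, zero_mul]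
  rw [mul_inv_cancel, map_one] at h1
  exact one_ne_zero h1

lemma Covering.wd {y : C.Y} (hy : C.unr χ y) {n : ℕ} {x x' : C.X} {h h' : G} (hx : C.π x = y)
    (hx' : C.π x' = y) (e : C.FX^[n] x = h • x) (e' : C.FX^[n] x' = h' • x') : χ h = χ h' := by
  obtain ⟨g, rfl⟩ := (C.fibre x x').1 (hx.trans hx'.symm)
  rw [C.iter_smul, e] at e'
  have h1 : (h'⁻¹ * h) • (g • x) = g • x := by
    rw [mul_smul, smul_comm h g x, e', inv_smul_smul]
  have h2 := hy _ hx' _ h1
  rw [map_mul] at h2
  have h3 : χ h' * χ h'⁻¹ = 1 := by rw [← map_mul, mul_inv_cancel, map_one]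
  calc χ h = χ h' * χ h'⁻¹ * χ h := by rw [h3, one_mul]
    _ = χ h' * (χ h'⁻¹ * χ h) := by ring
    _ = χ h' := by rw [h2, mul_one]

lemma Covering.iter_pow {d : ℕ} {x : C.X} {h : G} (e : C.FX^[d] x = h • x) (c : ℕ) :
    C.FX^[d * c] x = h ^ c • x := by
  induction c with
  | zero => simp
  | succ c ih =>
    rw [Nat.mul_succ, Nat.add_comm, Function.iterate_add_apply, ih, C.iter_smul, e, smul_smul,
      pow_succ]

/-- The points of the quotient of degree `d` at which the character is unramified with the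
value `μ ^ i`. -/
def Covering.A (μ : E) (d i : ℕ) : Set C.Y :=
  {y | C.unr χ y ∧ Function.minimalPeriod C.FY y = d ∧
    ∃ (x : C.X) (h : G), C.π x = y ∧ C.FX^[d] x = h • x ∧ χ h = μ ^ i}

/-- The number of closed points of degree `d` at which the character is unramified with the
value `μ ^ i`. -/
noncomputable def Covering.a (μ : E) (d i : ℕ) : ℕ := (C.A χ μ d i).ncard / d

lemma Covering.A_sub (μ : E) {d i n : ℕ} (hd : d ∣ n) : C.A χ μ d i ⊆ {y | C.FY^[n] y = y} := by
  rintro y ⟨_, hy, _⟩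
  obtain ⟨c, rfl⟩ := hd
  have h : Function.IsPeriodicPt C.FY d y := by
    rw [← hy]
    exact Function.isPeriodicPt_minimalPeriod _ _
  exact h.mul_const c

lemma Covering.unr_F {y : C.Y} (hy : C.unr χ y) : C.unr χ (C.FY y) := by
  intro x hx g hg
  obtain ⟨x0, rfl⟩ := C.surj y
  rw [← C.frob] at hx
  obtain ⟨g', rfl⟩ := (C.fibre _ _).1 hx.symm
  rw [← C.comm, ← C.comm] at hg
  have h1 := C.FX_inj hg
  exact hy _ (C.π_smul _ _) g h1

lemma Covering.A_dvd (μ : E) (d i : ℕ) (hd : 0 < d) : d ∣ (C.A χ μ d i).ncard := by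
  have hfin : (C.A χ μ d i).Finite := (C.finite d hd).subset (C.A_sub χ μ dvd_rfl)
  rw [Set.ncard_eq_toFinset_card _ hfin]
  refine Pool.Agent.W715.HS.OC.dvd_card_of_minimalPeriod C.FY C.FY_inj d hd _ _ rfl ?_ ?_
  · intro y hy
    rw [Set.Finite.mem_toFinset] at hy ⊢
    obtain ⟨h1, h2, x, h, hx, e, hi⟩ := hy
    refine ⟨C.unr_F χ h1, ?_, C.FX x, h, ?_, ?_, hi⟩
    · rw [Function.minimalPeriod_apply, h2]
      rw [← Function.minimalPeriod_pos_iff_mem_periodicPts, h2]
      exact hd
    · rw [C.frob, hx]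
    · rw [← Function.iterate_succ_apply, Function.iterate_succ_apply', e, C.comm]
  · intro y hy
    rw [Set.Finite.mem_toFinset] at hy
    exact hy.2.1

open Classical in
/-- The value at a point that is fixed by the `n`-th power of Frobenius. -/
theorem Covering.value {N : ℕ} (hN : 0 < N) {μ : E} (hμ : IsPrimitiveRoot μ N)
    (hχ : ∀ g, χ g ^ N = 1) {n : ℕ} (hn : 0 < n) {y : C.Y} (hy : C.unr χ y) {x : C.X} {h : G}
    (hx : C.π x = y) (e : C.FX^[n] x = h • x) :
    χ h = ∑ d ∈ n.divisors, ∑ i ∈ range N, (if y ∈ C.A χ μ d i then μ ^ (i * (n / d)) else 0) ∧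
    (1 : ℤ) = ∑ d ∈ n.divisors, ∑ i ∈ range N, (if y ∈ C.A χ μ d i then 1 else 0) := by
  set d := Function.minimalPeriod C.FY y with hd
  have hper : Function.IsPeriodicPt C.FY n y := by
    change C.FY^[n] y = y
    rw [← hx, ← C.iter_π, e, C.π_smul]
  have hdn : d ∣ n := hper.minimalPeriod_dvd
  have hdpos : 0 < d := Nat.pos_of_dvd_of_pos hdn hn
  have hfix : C.FY^[d] y = y := Function.isPeriodicPt_minimalPeriod _ _
  obtain ⟨hd', ed⟩ := C.exists_h (n := d) (x := x) (by rw [hx, hfix])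
  have : NeZero N := ⟨hN.ne'⟩
  obtain ⟨i, hi, hi2⟩ := hμ.eq_pow_of_pow_eq_one (hχ hd')
  have hmem : y ∈ C.A χ μ d i := ⟨hy, rfl, x, hd', hx, ed, hi2.symm⟩
  have hun : ∀ j ∈ range N, j ≠ i → y ∉ C.A χ μ d j := by
    rintro j hj hji ⟨_, _, x', h', hx', e', hj2⟩
    have h1 := C.wd χ hy hx hx' ed e'
    rw [hj2, ← hi2] at h1
    exact hji (hμ.pow_inj hi (mem_range.mp hj) h1).symm
  have hun' : ∀ d' , d' ≠ d → ∀ j, y ∉ C.A χ μ d' j := by
    rintro d' hd' j ⟨_, h2, _⟩
    exact hd' h2.symm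
  have key : ∀ {M : Type} [AddCommMonoid M] (f : ℕ → ℕ → M),
      ∑ d ∈ n.divisors, ∑ i ∈ range N, (if y ∈ C.A χ μ d i then f d i else 0) = f d i := by
    intro M _ f
    rw [Finset.sum_eq_single d, Finset.sum_eq_single i, if_pos hmem]
    · intro j hj hji
      rw [if_neg (hun j hj hji)]
    · intro h
      exact absurd (mem_range.mpr hi) h
    · intro d' _ hd'
      exact Finset.sum_eq_zero fun j _ => by rw [if_neg (hun' d' hd' j)]
    · intro h
      exact absurd (Nat.mem_divisors.mpr ⟨hdn, hn.ne'⟩) h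
  refine ⟨?_, (key (fun _ _ => (1 : ℤ))).symm⟩
  rw [key (fun d i => μ ^ (i * (n / d)))]
  obtain ⟨c, hc⟩ := hdn
  have hnd : n / d = c := by rw [hc, Nat.mul_div_cancel_left _ hdpos]
  have h1 := C.iter_pow ed c
  rw [← hc] at h1
  have h2 := C.wd χ hy hx hx e h1
  rw [h2, map_pow, ← hi2, ← pow_mul, hnd]

/-- Points of the quotient over `κ_n` at which the character is unramified. -/
def Covering.U (n : ℕ) : Set C.Y := {y | C.FY^[n] y = y ∧ C.unr χ y}

theorem Covering.count {N : ℕ} (hN : 0 < N) {μ : E} (hμ : IsPrimitiveRoot μ N)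
    (hχ : ∀ g, χ g ^ N = 1) {n : ℕ} (hn : 0 < n) :
    ((C.U χ n).ncard : ℤ) = orbSum N (1 : ℤ) (C.a χ μ) n := by
  classical
  have hfin : (C.U χ n).Finite := (C.finite n hn).subset fun y hy => hy.1
  have hAU : ∀ d ∈ n.divisors, ∀ i, C.A χ μ d i ⊆ C.U χ n := fun d hd i y hy =>
    ⟨C.A_sub χ μ (Nat.dvd_of_mem_divisors hd) hy, hy.1⟩
  have hcard : ∀ d ∈ n.divisors, ∀ i,
      (hfin.toFinset.filter fun y => y ∈ C.A χ μ d i).card = (C.A χ μ d i).ncard := by
    intro d hd i
    rw [Set.ncard_eq_toFinset_card _ (hfin.subset (hAU d hd i))]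
    congr 1
    ext y
    simp only [Finset.mem_filter, Set.Finite.mem_toFinset]
    exact ⟨fun h => h.2, fun h => ⟨hAU d hd i h, h⟩⟩
  have h1 : ((C.U χ n).ncard : ℤ) = ∑ y ∈ hfin.toFinset, (1 : ℤ) := by
    rw [Set.ncard_eq_toFinset_card _ hfin]
    simp
  have h2 : ∀ y ∈ hfin.toFinset, (1 : ℤ)
      = ∑ d ∈ n.divisors, ∑ i ∈ range N, (if y ∈ C.A χ μ d i then 1 else 0) := by
    intro y hy
    rw [Set.Finite.mem_toFinset] at hy
    obtain ⟨x, hx⟩ := C.surj y
    obtain ⟨h, e⟩ := C.exists_h (n := n) (x := x) (by rw [hx, hy.1])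
    exact (C.value χ hN hμ hχ hn hy.2 hx e).2
  rw [h1, Finset.sum_congr rfl h2, Finset.sum_comm]
  unfold orbSum
  apply Finset.sum_congr rfl
  intro d hd
  have hd0 : 0 < d := Nat.pos_of_mem_divisors hd
  rw [Finset.sum_comm, Finset.mul_sum]
  apply Finset.sum_congr rfl
  intro i _
  rw [← Finset.sum_filter, Finset.sum_const, hcard d hd i, nsmul_eq_mul, one_pow, mul_one,
    mul_one, Covering.a, ← Nat.cast_mul, Nat.mul_div_cancel' (C.A_dvd χ μ d i hd0)]

variable [Fintype G]

/-- The sum over the group of the numbers of fixed points. -/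
theorem Covering.trace_sum {N : ℕ} (hN : 0 < N) {μ : E} (hμ : IsPrimitiveRoot μ N)
    (hχ : ∀ g, χ g ^ N = 1) {n : ℕ} (hn : 0 < n) :
    ∑ g : G, χ g⁻¹ * (Set.ncard {x : C.X | C.FX^[n] (g • x) = x} : E)
      = (Fintype.card G : E) * orbSum N μ (C.a χ μ) n := by
  classical
  -- the points of `X` over `Y(κ_n)`
  have hYfin := C.finite n hn
  have hXfin : {x : C.X | C.FY^[n] (C.π x) = C.π x}.Finite := by
    have hsec : ∀ y : C.Y, ∃ x, C.π x = y := C.surj
    choose σ hσ using hsec
    refine ((hYfin.prod (Set.finite_univ (α := G))).image fun yg : C.Y × G =>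
      yg.2 • σ yg.1).subset ?_
    intro x hx
    obtain ⟨g, hg⟩ := (C.fibre (σ (C.π x)) x).1 (hσ _)
    exact ⟨(C.π x, g), ⟨hx, Set.mem_univ _⟩, hg⟩
  set XF := hXfin.toFinset with hXF
  set YF := hYfin.toFinset with hYF
  have hfix : ∀ (g : G) (x : C.X), C.FX^[n] (g • x) = x → x ∈ XF := by
    intro g x hx
    rw [hXF, Set.Finite.mem_toFinset]
    change C.FY^[n] (C.π x) = C.π x
    conv_rhs => rw [← hx]
    rw [C.iter_π, C.π_smul]
  have e1 : ∀ g : G, (Set.ncard {x : C.X | C.FX^[n] (g • x) = x} : E)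
      = ∑ x ∈ XF, (if C.FX^[n] (g • x) = x then 1 else 0 : E) := by
    intro g
    have hf : {x : C.X | C.FX^[n] (g • x) = x}.Finite :=
      hXfin.subset fun x hx => by
        have := hfix g x hx
        rwa [hXF, Set.Finite.mem_toFinset] at this
    rw [Finset.sum_boole, Set.ncard_eq_toFinset_card _ hf]
    congr 2
    ext x
    simp only [Finset.mem_filter, Set.Finite.mem_toFinset]
    exact ⟨fun h => ⟨hfix g x h, h⟩, fun h => h.2⟩
  have e2 : ∑ g : G, χ g⁻¹ * (Set.ncard {x : C.X | C.FX^[n] (g • x) = x} : E)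
      = ∑ x ∈ XF, ∑ g : G, (if C.FX^[n] (g • x) = x then χ g⁻¹ else 0 : E) := by
    rw [Finset.sum_comm]
    refine Finset.sum_congr rfl fun g _ => ?_
    rw [e1 g, Finset.mul_sum]
    refine Finset.sum_congr rfl fun x _ => ?_
    split_ifs <;> simp
  have e3 : ∑ x ∈ XF, ∑ g : G, (if C.FX^[n] (g • x) = x then χ g⁻¹ else 0 : E)
      = ∑ y ∈ YF, ∑ x ∈ XF.filter (fun x => C.π x = y),
        ∑ g : G, (if C.FX^[n] (g • x) = x then χ g⁻¹ else 0 : E) := by
    refine (Finset.sum_fiberwise_of_maps_to (fun x hx => ?_) _).symm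
    rw [hXF, Set.Finite.mem_toFinset] at hx
    rw [hYF, Set.Finite.mem_toFinset]
    exact hx
  -- one point of `Y(κ_n)`
  have e4 : ∀ y ∈ YF, ∑ x ∈ XF.filter (fun x => C.π x = y),
        ∑ g : G, (if C.FX^[n] (g • x) = x then χ g⁻¹ else 0 : E)
      = (Fintype.card G : E) * (if C.unr χ y then
        ∑ d ∈ n.divisors, ∑ i ∈ range N, (if y ∈ C.A χ μ d i then μ ^ (i * (n / d)) else 0)
        else 0) := by
    intro y hy
    rw [hYF, Set.Finite.mem_toFinset] at hy
    have hy' : C.FY^[n] y = y := hy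
    obtain ⟨x₀, hx₀⟩ := C.surj y
    obtain ⟨h, e⟩ := C.exists_h (n := n) (x := x₀) (by rw [hx₀, hy'])
    -- the inner sum does not depend on the point
    set T : E := ∑ g : G, (if (g * h) • x₀ = x₀ then χ g⁻¹ else 0 : E) with hT
    have hin : ∀ x, C.π x = y →
        ∑ g : G, (if C.FX^[n] (g • x) = x then χ g⁻¹ else 0 : E) = T := by
      intro x hx
      obtain ⟨g', rfl⟩ := (C.fibre x₀ x).1 (hx₀.trans hx.symm)
      refine Finset.sum_congr rfl fun g _ => ?_
      have h1 : (C.FX^[n] (g • g' • x₀) = g' • x₀) ↔ ((g * h) • x₀ = x₀) := by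
        rw [C.iter_smul, C.iter_smul, e, ← mul_smul, ← mul_smul]
        rw [show (g * g' * h) • x₀ = g' • ((g * h) • x₀) by
          rw [← mul_smul, mul_comm g g', mul_assoc]]
        exact smul_left_cancel_iff g'
      by_cases h3 : (g * h) • x₀ = x₀
      · rw [if_pos h3, if_pos (h1.2 h3)]
      · rw [if_neg h3, if_neg (fun h4 => h3 (h1.1 h4))]
    have hsum : ∑ x ∈ XF.filter (fun x => C.π x = y),
        ∑ g : G, (if C.FX^[n] (g • x) = x then χ g⁻¹ else 0 : E)
        = ((XF.filter (fun x => C.π x = y)).card : E) * T := by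
      rw [Finset.sum_congr rfl fun x hx => hin x (Finset.mem_filter.1 hx).2, Finset.sum_const,
        nsmul_eq_mul]
    let _ : Fintype (MulAction.orbit G x₀) :=
      (Set.finite_range fun g : G => g • x₀).fintype
    have horb : (XF.filter (fun x => C.π x = y)) = (MulAction.orbit G x₀).toFinset := by
      ext x
      rw [Finset.mem_filter, Set.mem_toFinset, MulAction.mem_orbit_iff, hXF,
        Set.Finite.mem_toFinset]
      constructor
      · rintro ⟨_, hx⟩
        exact (C.fibre x₀ x).1 (hx₀.trans hx.symm)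
      · rintro ⟨g, rfl⟩
        have : C.π (g • x₀) = y := by rw [C.π_smul, hx₀]
        refine ⟨?_, this⟩
        change C.FY^[n] (C.π (g • x₀)) = _
        rw [this, hy']
    have hcard : (XF.filter (fun x => C.π x = y)).card
        * Fintype.card (MulAction.stabilizer G x₀) = Fintype.card G := by
      rw [horb, Set.toFinset_card]
      exact MulAction.card_orbit_mul_card_stabilizer_eq_card_group G x₀
    have hTval : T = χ h * ∑ s : MulAction.stabilizer G x₀, χ (s : G)⁻¹ := by
      have h1 : T = ∑ g : G, (if g • x₀ = x₀ then χ h * χ g⁻¹ else 0 : E) := by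
        rw [hT]
        refine Fintype.sum_equiv (Equiv.mulRight h) _ _ fun g => ?_
        rw [Equiv.coe_mulRight]
        have h2 : χ h * χ (g * h)⁻¹ = χ g⁻¹ := by
          rw [← map_mul]
          congr 1
          rw [mul_inv_rev, ← mul_assoc, mul_inv_cancel, one_mul]
        rw [h2]
      rw [h1, Finset.mul_sum]
      rw [← Finset.sum_filter]
      symm
      refine Finset.sum_bij (fun s _ => (s : G)) (fun s _ => ?_) (fun s _ s' _ hss => ?_)
        (fun g hg => ?_) (fun s _ => rfl)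
      · rw [Finset.mem_filter]
        exact ⟨mem_univ _, s.2⟩
      · exact Subtype.ext hss
      · rw [Finset.mem_filter] at hg
        exact ⟨⟨g, hg.2⟩, mem_univ _, rfl⟩
    rw [hsum, hTval]
    by_cases hun : C.unr χ y
    · rw [if_pos hun, ← (C.value χ hN hμ hχ hn hun hx₀ e).1]
      have h1 : ∑ s : MulAction.stabilizer G x₀, χ (s : G)⁻¹
          = (Fintype.card (MulAction.stabilizer G x₀) : E) := by
        rw [Finset.sum_congr rfl fun (s : MulAction.stabilizer G x₀) _ =>
          hun x₀ hx₀ (s : G)⁻¹ (by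
            rw [inv_smul_eq_iff]
            exact s.2.symm), Finset.sum_const, nsmul_eq_mul, mul_one, Finset.card_univ]
      rw [h1, ← hcard]
      push_cast
      ring
    · rw [if_neg hun]
      have h1 : ∑ s : MulAction.stabilizer G x₀, χ (s : G)⁻¹ = 0 := by
        have h2 : ∃ s : MulAction.stabilizer G x₀, χ (s : G) ≠ 1 := by
          by_contra hcon
          push Not at hcon
          apply hun
          intro x hx g hg
          obtain ⟨g', rfl⟩ := (C.fibre x₀ x).1 (hx₀.trans hx.symm)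
          have h3 : g • x₀ = x₀ := by
            rw [smul_comm] at hg
            exact (smul_left_cancel_iff g').1 hg
          exact hcon ⟨g, h3⟩
        obtain ⟨s₀, hs₀⟩ := h2
        have h3 : (χ (s₀ : G)⁻¹) * ∑ s : MulAction.stabilizer G x₀, χ (s : G)⁻¹
            = ∑ s : MulAction.stabilizer G x₀, χ (s : G)⁻¹ := by
          rw [Finset.mul_sum]
          refine Fintype.sum_equiv (Equiv.mulRight s₀) _ _ fun s => ?_
          rw [Equiv.coe_mulRight, ← map_mul]
          congr 1
          push_cast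
          rw [mul_inv_rev]
        have h4 : (χ (s₀ : G)⁻¹ - 1) * ∑ s : MulAction.stabilizer G x₀, χ (s : G)⁻¹ = 0 := by
          rw [sub_mul, h3, one_mul, sub_self]
        refine (mul_eq_zero.1 h4).resolve_left ?_
        intro h5
        apply hs₀
        have h6 : χ (s₀ : G)⁻¹ = 1 := sub_eq_zero.1 h5
        have h7 : χ (s₀ : G) * χ (s₀ : G)⁻¹ = 1 := by rw [← map_mul, mul_inv_cancel, map_one]
        rwa [h6, mul_one] at h7
      rw [h1]
      ring
  rw [e2, e3, Finset.sum_congr rfl e4, ← Finset.mul_sum]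
  congr 1
  rw [← Finset.sum_filter, Finset.sum_comm]
  unfold orbSum
  apply Finset.sum_congr rfl
  intro d hd
  have hd0 : 0 < d := Nat.pos_of_mem_divisors hd
  rw [Finset.sum_comm, Finset.mul_sum]
  apply Finset.sum_congr rfl
  intro i _
  rw [← Finset.sum_filter, Finset.sum_const, nsmul_eq_mul]
  have hc : ((YF.filter fun y => C.unr χ y).filter fun y => y ∈ C.A χ μ d i).card
      = (C.A χ μ d i).ncard := by
    rw [Set.ncard_eq_toFinset_card _ (hYfin.subset (C.A_sub χ μ (Nat.dvd_of_mem_divisors hd)))]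
    congr 1
    ext y
    simp only [Finset.mem_filter, Set.Finite.mem_toFinset, hYF]
    exact ⟨fun h => h.2, fun h => ⟨⟨C.A_sub χ μ (Nat.dvd_of_mem_divisors hd) h, h.1⟩, h⟩⟩
  rw [hc, Covering.a, ← mul_assoc, ← Nat.cast_mul, Nat.mul_div_cancel' (C.A_dvd χ μ d i hd0)]

end Pool.Agent.J6H31.GA
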