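import Pool.Agent.J6H31.GA.Sign

/-!
# Similitudes of bilinear forms: generalized eigenspaces
-/

set_option autoImplicit false
set_option linter.unusedSectionVars false

namespace Pool.Agent.J6H31.GA

open Finset Polynomial Module Module.End

variable {E : Type} [Field E] {W : Type} [AddCommGroup W] [Module E W]

/-- Orthogonality of the generalized eigenspaces. -/
theorem form_pow (B : LinearMap.BilinForm E W) (Φ : Module.End E W) {Q : E}
    (h : ∀ x y, B (Φ x) (Φ y) = Q * B x y) {α β : E} (hαβ : α * β ≠ Q) :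
    ∀ k m n : ℕ, m + n = k → ∀ x y, ((Φ - α • (1 : Module.End E W)) ^ m) x = 0 →
      ((Φ - β • (1 : Module.End E W)) ^ n) y = 0 → B x y = 0 := by
  intro k
  induction k using Nat.strong_induction_on with
  | _ k ih =>
    intro m n hk x y hx hy
    rcases m with _ | m
    · rw [pow_zero, Module.End.one_apply] at hx
      rw [hx, map_zero, LinearMap.zero_apply]
    rcases n with _ | n
    · rw [pow_zero, Module.End.one_apply] at hy
      rw [hy, map_zero]
    have hx' : ((Φ - α • (1 : Module.End E W)) ^ m) (Φ x - α • x) = 0 := by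
      rw [pow_succ] at hx
      exact hx
    have hy' : ((Φ - β • (1 : Module.End E W)) ^ n) (Φ y - β • y) = 0 := by
      rw [pow_succ] at hy
      exact hy
    have e1 := ih (m + (n + 1)) (by omega) m (n + 1) rfl _ _ hx' hy
    have e2 := ih ((m + 1) + n) (by omega) (m + 1) n rfl _ _ hx hy'
    have e3 := ih (m + n) (by omega) m n rfl _ _ hx' hy'
    have h1 := h x y
    rw [map_sub, LinearMap.sub_apply, map_smul, LinearMap.smul_apply, smul_eq_mul] at e1
    rw [map_sub, map_smul, smul_eq_mul] at e2
    simp only [map_sub, LinearMap.sub_apply, map_smul, LinearMap.smul_apply, smul_eq_mul] at e3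
    have h2 : (α * β - Q) * B x y = 0 := by
      linear_combination h1 - e3 - β * e1 - α * e2
    exact (mul_eq_zero.1 h2).resolve_left (sub_ne_zero.2 hαβ)

theorem form_gen (B : LinearMap.BilinForm E W) (Φ : Module.End E W) {Q : E}
    (h : ∀ x y, B (Φ x) (Φ y) = Q * B x y) {α β : E} (hαβ : α * β ≠ Q) {x y : W}
    (hx : x ∈ Φ.maxGenEigenspace α) (hy : y ∈ Φ.maxGenEigenspace β) : B x y = 0 := by
  rw [mem_maxGenEigenspace] at hx hy
  obtain ⟨m, hm⟩ := hx
  obtain ⟨n, hn⟩ := hy
  exact form_pow B Φ h hαβ (m + n) m n rfl x y hm hn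

/-- A vector which generates a Jordan block of size two. -/
lemma exists_jordan (Φ : Module.End E W) {α : E} {T : Submodule E W}
    (hT : ∀ v ∈ T, Φ v ∈ T) (h : ¬ T ⊓ Φ.maxGenEigenspace α ≤ Φ.eigenspace α) :
    ∃ v ∈ T, Φ v - α • v ≠ 0 ∧ Φ (Φ v - α • v) = α • (Φ v - α • v) := by
  rw [SetLike.not_le_iff_exists] at h
  obtain ⟨v, ⟨hvT, hv⟩, hne⟩ := h
  rw [SetLike.mem_coe, mem_maxGenEigenspace] at hv
  have hTk : ∀ k : ℕ, ((Φ - α • (1 : Module.End E W)) ^ k) v ∈ T := by
    intro k
    induction k with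
    | zero => exact hvT
    | succ k ih =>
      rw [pow_succ']
      exact T.sub_mem (hT _ ih) (T.smul_mem _ ih)
  classical
  set k := Nat.find hv with hk
  have hk0 : ((Φ - α • (1 : Module.End E W)) ^ k) v = 0 := Nat.find_spec hv
  have hk2 : 2 ≤ k := by
    by_contra hlt
    apply hne
    rw [mem_eigenspace_iff]
    have : k = 0 ∨ k = 1 := by omega
    rcases this with h0 | h0
    · rw [h0, pow_zero, Module.End.one_apply] at hk0
      rw [hk0, map_zero, smul_zero]
    · rw [h0, pow_one] at hk0
      exact sub_eq_zero.1 hk0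
  refine ⟨((Φ - α • (1 : Module.End E W)) ^ (k - 2)) v, hTk _, ?_, ?_⟩
  · have h1 : ((Φ - α • (1 : Module.End E W)) ^ (k - 1)) v ≠ 0 :=
      Nat.find_min hv (by omega)
    have h2 : k - 1 = (k - 2) + 1 := by omega
    rw [h2, pow_succ'] at h1
    exact h1
  · have h2 : k = ((k - 2) + 1) + 1 := by omega
    rw [h2, pow_succ', pow_succ'] at hk0
    exact sub_eq_zero.1 hk0

variable [FiniteDimensional E W]

/-- The eigenvalues `α` with `α ^ 2 = Q` of a similitude of a symmetric form: if the generalized
eigenspace is larger than a nondegenerate space of eigenvectors by at most two dimensions, it is the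
eigenspace. -/
theorem ortho_semisimple [CharZero E] [IsAlgClosed E] (B : LinearMap.BilinForm E W)
    (hB : B.Nondegenerate) (hs : ∀ x y, B x y = B y x) (Φ : Module.End E W) {Q : E} (hQ : Q ≠ 0)
    (h : ∀ x y, B (Φ x) (Φ y) = Q * B x y) {α : E} (hα : α * α = Q) (N : Submodule E W)
    (hN : N ≤ Φ.eigenspace α) (hNB : ∀ x ∈ N, (∀ y ∈ N, B x y = 0) → x = 0)
    (hdim : finrank E (Φ.maxGenEigenspace α) ≤ finrank E N + 2) :
    Φ.maxGenEigenspace α ≤ Φ.eigenspace α := by
  classical
  by_contra hcon
  have hα0 : α ≠ 0 := by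
    rintro rfl
    rw [mul_zero] at hα
    exact hQ hα.symm
  obtain ⟨v₁, -, hw0, hw⟩ := exists_jordan (T := ⊤) Φ (fun v _ => Submodule.mem_top)
    (by rwa [top_inf_eq])
  have hrefl : B.IsRefl := fun x y hxy => by rw [hs]; exact hxy
  have hres : (B.restrict N).Nondegenerate := by
    refine LinearMap.BilinForm.Nondegenerate.ofSeparatingLeft ?_
    intro x hx
    exact Subtype.ext (hNB x.1 x.2 fun y hy => hx ⟨y, hy⟩)
  have hcompl := LinearMap.BilinForm.isCompl_orthogonal_of_restrict_nondegenerate hrefl hres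
  obtain ⟨n, hn, v, hv, hnv⟩ := Submodule.mem_sup.1
    (show v₁ ∈ N ⊔ B.orthogonal N by rw [hcompl.sup_eq_top]; exact Submodule.mem_top)
  have hΦn := mem_eigenspace_iff.1 (hN hn)
  have hwv : Φ v₁ - α • v₁ = Φ v - α • v := by
    rw [← hnv, map_add, hΦn, smul_add]
    abel
  rw [hwv] at hw hw0
  set w := Φ v - α • v with hwdef
  have hΦv : Φ v = α • v + w := by rw [hwdef]; abel
  have hvN : ∀ y ∈ N, B y v = 0 := fun y hy => LinearMap.BilinForm.mem_orthogonal_iff.1 hv y hy
  have hwN : ∀ y ∈ N, B y w = 0 := by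
    intro y hy
    have h1 := h y v
    rw [mem_eigenspace_iff.1 (hN hy), map_smul, LinearMap.smul_apply, smul_eq_mul, hvN y hy,
      mul_zero] at h1
    have h2 := (mul_eq_zero.1 h1).resolve_left hα0
    rw [hΦv, map_add, map_smul, hvN y hy, smul_zero, zero_add] at h2
    exact h2
  -- the form on the block
  have hww : B w w = 0 := by
    have h1 := h v w
    rw [hw, hΦv, map_smul, map_add, LinearMap.add_apply, map_smul, LinearMap.smul_apply,
      smul_eq_mul, smul_eq_mul, mul_add, ← mul_assoc, hα] at h1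
    have h2 : α * B w w = 0 := by linear_combination h1
    exact (mul_eq_zero.1 h2).resolve_left hα0
  have hvw : B w v = 0 := by
    have h1 := h v v
    rw [hΦv, map_add, map_add, LinearMap.add_apply, LinearMap.add_apply, map_smul, map_smul,
      LinearMap.smul_apply, LinearMap.smul_apply, smul_eq_mul, smul_eq_mul, map_smul, hww,
      hs v w, smul_eq_mul] at h1
    have h2 : (2 * α) * B w v = 0 := by linear_combination h1 - B v v * hα
    exact (mul_eq_zero.1 h2).resolve_left (mul_ne_zero two_ne_zero hα0)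
  have hvne : ∀ c : E, v ≠ c • w := by
    intro c hc
    have h1 : Φ v = α • v := by rw [hc, map_smul, hw, smul_comm]
    apply hw0
    rw [hwdef, h1, sub_self]
  have hwgen : w ∈ Φ.maxGenEigenspace α :=
    ((Φ.genEigenspace α).mono le_top) (mem_eigenspace_iff.2 hw)
  have hvgen : v ∈ Φ.maxGenEigenspace α := by
    rw [mem_maxGenEigenspace]
    refine ⟨2, ?_⟩
    rw [pow_two]
    change Φ (Φ v - α • v) - α • (Φ v - α • v) = 0
    rw [← hwdef, hw, sub_self]
  -- the dimension
  let S : Submodule E W := Submodule.span E {v, w}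
  have hSdim : finrank E S = 2 := by
    have hli : LinearIndependent E ![v, w] := by
      rw [LinearIndependent.pair_iff]
      intro a b hab
      have ha : a = 0 := by
        by_contra ha
        apply hvne (-(b / a))
        have h1 : a • v = a • (-(b / a)) • w := by
          rw [smul_smul, mul_neg, mul_div_cancel₀ b ha, neg_smul]
          exact eq_neg_of_add_eq_zero_left hab
        exact smul_right_injective W ha h1
      rw [ha, zero_smul, zero_add] at hab
      exact ⟨ha, (smul_eq_zero.1 hab).resolve_right hw0⟩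
    have h1 := finrank_span_eq_card hli
    rw [Matrix.range_cons, Matrix.range_cons, Matrix.range_empty, Set.union_empty,
      Set.singleton_union, Fintype.card_fin] at h1
    exact h1
  have hSN : S ≤ B.orthogonal N := by
    rw [Submodule.span_le]
    rintro x (rfl | rfl)
    · exact hv
    · exact LinearMap.BilinForm.mem_orthogonal_iff.2 hwN
  have hdisj : N ⊓ S = ⊥ := by
    rw [eq_bot_iff, ← hcompl.inf_eq_bot]
    exact inf_le_inf_left N hSN
  have hle : N ⊔ S ≤ Φ.maxGenEigenspace α := by
    refine sup_le (hN.trans ((Φ.genEigenspace α).mono le_top)) ?_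
    rw [Submodule.span_le]
    rintro x (rfl | rfl)
    · exact hvgen
    · exact hwgen
  have heq : N ⊔ S = Φ.maxGenEigenspace α := by
    refine Submodule.eq_of_le_of_finrank_le hle ?_
    have h1 := Submodule.finrank_sup_add_finrank_inf_eq N S
    rw [hdisj, finrank_bot, add_zero, hSdim] at h1
    rw [h1]
    exact hdim
  have hker : ∀ y, B w y = 0 := by
    intro y
    have hy : y ∈ ⨆ β, Φ.maxGenEigenspace β := by
      rw [iSup_maxGenEigenspace_eq_top]
      exact Submodule.mem_top
    have hle2 : (⨆ β, Φ.maxGenEigenspace β) ≤ LinearMap.ker (B w) := by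
      refine iSup_le fun β => ?_
      by_cases hβ : β = α
      · rw [hβ, ← heq]
        refine sup_le ?_ ?_
        · intro y hy
          rw [LinearMap.mem_ker, hs]
          exact hwN y hy
        · rw [Submodule.span_le]
          rintro x (rfl | rfl)
          · exact hvw
          · exact hww
      · intro y hy
        rw [LinearMap.mem_ker]
        refine form_gen B Φ h ?_ hwgen hy
        intro h1
        apply hβ
        rw [← hα] at h1
        exact mul_left_cancel₀ hα0 h1
    exact hle2 hy
  exact hw0 (hB.1 w hker)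

/-- The generalized eigenspace of a power. -/
theorem pow_gen [CharZero E] [IsAlgClosed E] (Ψ : Module.End E W) {N : ℕ} (hN : 0 < N) {c : E}
    (hc : c ≠ 0) : (Ψ ^ N).maxGenEigenspace (c ^ N)
      ≤ ⨆ ζ ∈ nthRootsFinset N (1 : E), Ψ.maxGenEigenspace (c * ζ) := by
  classical
  set T := (Ψ ^ N).maxGenEigenspace (c ^ N) with hT
  have hstab : ∀ v ∈ T, Ψ v ∈ T := fun v hv =>
    mapsTo_maxGenEigenspace_of_comm ((Commute.refl Ψ).pow_left N) _ hv
  -- the generalized eigenspaces of `Ψ` are contained in those of the power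
  have hpow : ∀ β, Ψ.maxGenEigenspace β ≤ (Ψ ^ N).maxGenEigenspace (β ^ N) := by
    intro β v hv
    rw [mem_maxGenEigenspace] at hv ⊢
    obtain ⟨k, hk⟩ := hv
    refine ⟨k, ?_⟩
    have hcomm : Commute Ψ (β • (1 : Module.End E W)) := (Commute.one_right Ψ).smul_right β
    have h1 : Ψ ^ N - β ^ N • (1 : Module.End E W)
        = (∑ i ∈ range N, Ψ ^ i * (β • (1 : Module.End E W)) ^ (N - 1 - i))
          * (Ψ - β • (1 : Module.End E W)) := by
      rw [hcomm.geom_sum₂_mul, _root_.smul_pow, one_pow]
    have h2 : Commute (∑ i ∈ range N, Ψ ^ i * (β • (1 : Module.End E W)) ^ (N - 1 - i))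
        (Ψ - β • (1 : Module.End E W)) := by
      refine Commute.sum_left _ _ _ fun i _ => ?_
      refine Commute.mul_left ?_ ?_
      · exact ((Commute.refl Ψ).pow_left i).sub_right ((hcomm).pow_left i)
      · exact ((hcomm.symm).pow_left _).sub_right ((Commute.refl _).pow_left _)
    rw [h1, h2.mul_pow, Module.End.mul_apply, hk, map_zero]
  have h1 : T = ⨆ β, T ⊓ Ψ.maxGenEigenspace β := by
    have h2 := Submodule.inf_iSup_genEigenspace hstab ⊤
    have h3 : (⨆ μ, Ψ.genEigenspace μ ⊤) = ⊤ := iSup_maxGenEigenspace_eq_top Ψ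
    rw [h3, inf_top_eq] at h2
    exact h2
  rw [h1]
  refine iSup_le fun β => ?_
  by_cases hβ : β ^ N = c ^ N
  · have hmem : β / c ∈ nthRootsFinset N (1 : E) := by
      rw [mem_nthRootsFinset hN, div_pow, hβ, div_self (pow_ne_zero _ hc)]
    refine inf_le_right.trans ?_
    have hx : c * (β / c) = β := mul_div_cancel₀ β hc
    have h8 : Ψ.maxGenEigenspace (c * (β / c))
        ≤ ⨆ ζ ∈ nthRootsFinset N (1 : E), Ψ.maxGenEigenspace (c * ζ) :=
      le_iSup₂_of_le (β / c) hmem le_rfl
    rwa [hx] at h8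
  · have h2 : T ⊓ Ψ.maxGenEigenspace β ≤ ⊥ := by
      have h3 : Disjoint ((Ψ ^ N).maxGenEigenspace (c ^ N)) ((Ψ ^ N).maxGenEigenspace (β ^ N)) :=
        disjoint_genEigenspace (Ψ ^ N) (Ne.symm hβ) ⊤ ⊤
      exact (inf_le_inf_left T (hpow β)).trans h3.le_bot
    exact h2.trans bot_le

end Pool.Agent.J6H31.GA
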