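import Pool.Agent.J6H31.GA.Arr
import Pool.Agent.J6H31.GA.Ortho
import Pool.Agent.TH117.HS.Glue

/-!
# Semisimplicity of Frobenius for actions of finite abelian `p`-groups
-/

set_option autoImplicit false
set_option linter.unusedSectionVars false

namespace Pool.Agent.J6H31.GA

open Finset Polynomial Module Module.End Pool.Agent.W528.HS Pool.Agent.J6H31.AC

/-- All roots of `R` in extension fields of `𝔽_p` have multiplicity at most `e`. -/
def MultLE (p : ℕ) [Fact p.Prime] (R : (ZMod p)[X]) (e : ℕ) : Prop :=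
  ∀ (k : Type) [Field k] [Algebra (ZMod p) k] (u : k),
    (R.map (algebraMap (ZMod p) k)).rootMultiplicity u ≤ e

lemma multLE_of_squarefree {p : ℕ} [Fact p.Prime] {R : (ZMod p)[X]} (hR : Squarefree R) :
    MultLE p R 1 := by
  intro k _ _ u
  have hsep : R.Separable := PerfectField.separable_iff_squarefree.mpr hR
  exact rootMultiplicity_le_one_of_separable hsep.map u

section

variable {G : Type} [CommGroup G] {K : Covering G} {E : Type} [Field E] {r : ℕ}

/-- The reduction modulo `p` of the characteristic polynomial of Frobenius on the part of `χ`: the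
quotient of the polynomials of the zeta functions of the intersections of the divisors at which `χ` is
ramified. -/
noncomputable def Arrangement.red (D : Arrangement K E r) (p d : ℕ) [Fact p.Prime] (χ : G →* E) :
    (ZMod p)[X] :=
  if Even d then (D.num (D.ram χ)).map (Int.castRingHom (ZMod p)) /
      (D.den (D.ram χ)).map (Int.castRingHom (ZMod p))
  else (D.den (D.ram χ)).map (Int.castRingHom (ZMod p)) /
      (D.num (D.ram χ)).map (Int.castRingHom (ZMod p))

end

/-- A functional which is an eigenvector of the transposed endomorphism. -/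
lemma eigen_of_dual {E W : Type} [Field E] [AddCommGroup W] [Module E W] [FiniteDimensional E W]
    (Ψ : Module.End E W) (f : W →ₗ[E] E) (hf : f ≠ 0) {β : E} (h : ∀ y, f (Ψ y) = β * f y) :
    Ψ.charpoly.IsRoot β := by
  rw [← Module.End.hasEigenvalue_iff_isRoot_charpoly]
  have h1 : ∃ v, v ≠ 0 ∧ (Ψ - β • 1) v = 0 := by
    have h4 : LinearMap.ker (Ψ - β • 1) ≠ ⊥ := by
      intro hker
      have h5 : LinearMap.range (Ψ - β • 1) = ⊤ :=
        (LinearMap.ker_eq_bot_iff_range_eq_top).1 hker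
      apply hf
      ext y
      have h6 : y ∈ LinearMap.range (Ψ - β • 1) := by rw [h5]; exact Submodule.mem_top
      obtain ⟨z, rfl⟩ := h6
      rw [LinearMap.sub_apply, map_sub, h z, LinearMap.smul_apply, Module.End.one_apply, map_smul,
        smul_eq_mul, sub_self]
      rfl
    obtain ⟨v, hv, hv0⟩ := Submodule.exists_mem_ne_zero_of_ne_bot h4
    exact ⟨v, hv0, hv⟩
  obtain ⟨v, hv0, hv⟩ := h1
  refine hasEigenvalue_of_hasEigenvector (x := v) ⟨?_, hv0⟩
  rw [mem_eigenspace_iff]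
  have h7 : Ψ v - β • v = 0 := hv
  exact sub_eq_zero.1 h7

variable {G : Type} [CommGroup G] [Fintype G] {K : Covering G} {E : Type} [Field E] [CharZero E]
  [IsAlgClosed E] {r : ℕ} {V : Type} [AddCommGroup V] [Module E V] [FiniteDimensional E V]
  {Φ : Module.End E V} {ρ : G →* Module.End E V}

/-- Duality: `α β = Q` for an eigenvalue `β` on the part of `χ⁻¹`. -/
theorem dual_eigen (hc : ∀ g, Commute Φ (ρ g)) (B : LinearMap.BilinForm E V) (hB : B.Nondegenerate)
    (hBG : ∀ g x y, B (ρ g x) (ρ g y) = B x y) {Q : E} (hQ : Q ≠ 0)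
    (hBΦ : ∀ x y, B (Φ x) (Φ y) = Q * B x y) (χ χ' : G →* E) (hχ' : ∀ g, χ g * χ' g = 1) {α : E}
    (hα : (part hc χ).charpoly.IsRoot α) :
    ∃ β : E, α * β = Q ∧ (part hc χ').charpoly.IsRoot β := by
  classical
  have hcard : (Fintype.card G : E) ≠ 0 := by exact_mod_cast Fintype.card_ne_zero
  rw [← Module.End.hasEigenvalue_iff_isRoot_charpoly] at hα
  obtain ⟨v, hv, hv0⟩ := hα.exists_hasEigenvector
  rw [mem_eigenspace_iff] at hv
  have hΦv : Φ v.1 = α • v.1 := congrArg Subtype.val hv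
  have hv1 : v.1 ≠ 0 := fun h => hv0 (Subtype.ext h)
  have hvG := mem_eig.1 v.2
  -- `α ≠ 0`
  have hα0 : α ≠ 0 := by
    rintro rfl
    rw [zero_smul] at hΦv
    apply hv1
    refine hB.1 v.1 fun w => ?_
    have h1 := hBΦ v.1 w
    rw [hΦv, map_zero, LinearMap.zero_apply] at h1
    exact (mul_eq_zero.1 h1.symm).resolve_left hQ
  refine ⟨Q / α, mul_div_cancel₀ Q hα0, ?_⟩
  let Pr : Module.End E V := ∑ g : G, χ' g⁻¹ • ρ g
  have hgP : ∀ h : G, ρ h * Pr = χ' h • Pr := by
    intro h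
    change ρ h * ∑ g : G, χ' g⁻¹ • ρ g = χ' h • ∑ g : G, χ' g⁻¹ • ρ g
    rw [Finset.mul_sum, Finset.smul_sum]
    refine Fintype.sum_equiv (Equiv.mulLeft h) _ _ fun g => ?_
    rw [Equiv.coe_mulLeft, mul_smul_comm, ← map_mul, smul_smul, ← map_mul]
    congr 2
    rw [mul_inv_rev, mul_comm g⁻¹, ← mul_assoc, mul_inv_cancel, one_mul]
  have hmem : ∀ w, Pr w ∈ eig ρ χ' := by
    intro w
    rw [mem_eig]
    intro h
    exact LinearMap.congr_fun (hgP h) w
  have key : ∀ w, B v.1 (Pr w) = (Fintype.card G : E) * B v.1 w := by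
    intro w
    change B v.1 ((∑ g : G, χ' g⁻¹ • ρ g) w) = _
    rw [LinearMap.sum_apply, map_sum]
    have h2 : ∀ g ∈ (univ : Finset G), B v.1 ((χ' g⁻¹ • ρ g) w) = B v.1 w := by
      intro g _
      rw [LinearMap.smul_apply, map_smul, smul_eq_mul]
      have h3 := hBG g (ρ g⁻¹ v.1) w
      have h4 : ρ g (ρ g⁻¹ v.1) = v.1 := by
        rw [← Module.End.mul_apply, ← map_mul, mul_inv_cancel, map_one, Module.End.one_apply]
      rw [h4, hvG g⁻¹, map_smul, LinearMap.smul_apply, smul_eq_mul] at h3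
      rw [h3, ← mul_assoc, mul_comm (χ' g⁻¹), hχ', one_mul]
    rw [Finset.sum_congr rfl h2, Finset.sum_const, Finset.card_univ, nsmul_eq_mul]
  refine eigen_of_dual (part hc χ') ((B v.1).comp (eig ρ χ').subtype) ?_ ?_
  · intro h0
    apply hv1
    refine hB.1 v.1 fun w => ?_
    have h1 : B v.1 (Pr w) = 0 := LinearMap.congr_fun h0 (⟨Pr w, hmem w⟩ : eig ρ χ')
    rw [key w] at h1
    exact (mul_eq_zero.1 h1).resolve_left hcard
  · intro y
    change B v.1 (Φ y.1) = Q / α * B v.1 y.1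
    have h1 := hBΦ v.1 y.1
    rw [hΦv, map_smul, LinearMap.smul_apply, smul_eq_mul] at h1
    rw [eq_comm, div_mul_eq_mul_div, div_eq_iff hα0, ← h1, mul_comm]

/-- The characteristic polynomial of Frobenius on the part of a character is `D.red` modulo `p`. -/
theorem red_eq {p s d : ℕ} [Fact p.Prime] (hG : ∀ g : G, g ^ p ^ s = 1)
    (D : Arrangement K E r) {c : ℕ → E} (h : IsMiddle K d c Φ ρ) {χ : G →* E} (hχ1 : χ ≠ 1)
    (k : Type) [Field k] [Algebra (ZMod p) k] (θ : Oint E →+* k) (A' : Multiset (Oint E))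
    (hA' : A'.map Subtype.val = (part h.comm χ).charpoly.roots) :
    (A'.map fun x => 1 - C (θ x) * X).prod = (D.red p d χ).map (algebraMap (ZMod p) k) := by
  have hp : p.Prime := Fact.out
  haveI : CharP k p := charP_of_injective_algebraMap (algebraMap (ZMod p) k).injective p
  have h1 := (part_congr hp hG D h hχ1).2 k θ A' hA'
  have hι : ∀ P : ℤ[X], (P.map (Int.castRingHom (ZMod p))).map (algebraMap (ZMod p) k)
      = P.map (Int.castRingHom k) := by
    intro P
    rw [Polynomial.map_map]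
    congr 1
    exact RingHom.ext_int _ _
  obtain ⟨s₁, s₂, N₁, N₂, l₁, l₂, -⟩ := D.link χ
  rcases Nat.even_or_odd d with hd | hd
  · rw [Arrangement.red, if_pos hd, Polynomial.map_div, hι, hι, ← h1.1 hd]
    exact (mul_div_cancel_right₀ _ (map_ne_zero_of_coeff l₂.1 k)).symm
  · rw [Arrangement.red, if_neg (Nat.not_even_iff_odd.2 hd), Polynomial.map_div, hι, hι,
      ← h1.2 hd]
    exact (mul_div_cancel_right₀ _ (map_ne_zero_of_coeff l₁.1 k)).symm

/-- Elements of a multiset with the same reduction. -/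
lemma card_filter_le {k : Type} [Field k] [DecidableEq k] (θ : Oint E →+* k)
    (A' : Multiset (Oint E)) {R : k[X]}
    (hR : (A'.map fun x => 1 - C (θ x) * X).prod = R) {u : k} (hu : u ≠ 0) :
    (A'.filter fun x => θ x = u).card ≤ R.rootMultiplicity u⁻¹ := by
  classical
  rw [← hR]
  refine (le_rootMultiplicity_iff (rm_lift θ A').2).2 ?_
  have h1 : (1 - C u * X : k[X]) = C (-u) * (X - C u⁻¹) := by
    rw [mul_sub, ← C_mul, neg_mul, mul_inv_cancel₀ hu, C_neg, C_neg, C_1]
    ring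
  have h2 : ((A'.filter fun x => θ x = u).map fun x => 1 - C (θ x) * X).prod
      = (1 - C u * X) ^ (A'.filter fun x => θ x = u).card := by
    have h3 : (A'.filter fun x => θ x = u).map (fun x => (1 - C (θ x) * X : k[X]))
        = (A'.filter fun x => θ x = u).map (fun _ => (1 - C u * X : k[X])) := by
      refine Multiset.map_congr rfl fun x hx => ?_
      rw [(Multiset.mem_filter.1 hx).2]
    rw [h3, Multiset.map_const', Multiset.prod_replicate]
  rw [← Multiset.filter_add_not (fun x => θ x = u) A', Multiset.map_add, Multiset.prod_add, h2,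
    Multiset.filter_add_not, h1, mul_pow]
  exact Dvd.dvd.mul_right (dvd_mul_left _ _) _

lemma count_le_mult [DecidableEq E] {k : Type} [Field k] (θ : Oint E →+* k)
    (A' : Multiset (Oint E)) {R : k[X]}
    (hR : (A'.map fun x => 1 - C (θ x) * X).prod = R) (x : Oint E) (hx : θ x ≠ 0) :
    (A'.map Subtype.val).count x.1 ≤ R.rootMultiplicity (θ x)⁻¹ := by
  classical
  have h0 : (A'.map Subtype.val).count x.1 = A'.count x :=
    Multiset.count_map_eq_count' Subtype.val A' Subtype.val_injective x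
  have h1 := card_filter_le θ A' hR hx
  rw [h0]
  refine le_trans ?_ h1
  have h2 : A'.count x = (A'.filter fun y => θ y = θ x).count x := by
    rw [Multiset.count_filter, if_pos rfl]
  rw [h2]
  exact Multiset.count_le_card _ _

lemma count_two_le [DecidableEq E] {k : Type} [Field k] (θ : Oint E →+* k)
    (A' : Multiset (Oint E)) {R : k[X]}
    (hR : (A'.map fun x => 1 - C (θ x) * X).prod = R) (x y : Oint E) (hxy : x ≠ y)
    (hx : θ x ≠ 0) (hθ : θ y = θ x) :
    (A'.map Subtype.val).count x.1 + (A'.map Subtype.val).count y.1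
      ≤ R.rootMultiplicity (θ x)⁻¹ := by
  classical
  have h0 : ∀ x : Oint E, (A'.map Subtype.val).count x.1 = A'.count x := fun x =>
    Multiset.count_map_eq_count' Subtype.val A' Subtype.val_injective x
  have h1 := card_filter_le θ A' hR hx
  rw [h0, h0]
  refine le_trans ?_ h1
  have h2 : Multiset.replicate (A'.count x) x + Multiset.replicate (A'.count y) y
      ≤ A'.filter fun z => θ z = θ x := by
    rw [Multiset.le_iff_count]
    intro z
    rw [Multiset.count_add, Multiset.count_replicate, Multiset.count_replicate]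
    by_cases hzx : x = z
    · subst hzx
      rw [if_pos rfl, if_neg (Ne.symm hxy), add_zero, Multiset.count_filter, if_pos rfl]
    · rw [if_neg hzx, zero_add]
      by_cases hzy : y = z
      · subst hzy
        rw [if_pos rfl, Multiset.count_filter, if_pos hθ]
      · rw [if_neg hzy]
        exact Nat.zero_le _
  have h3 := Multiset.card_le_card h2
  rwa [Multiset.card_add, Multiset.card_replicate, Multiset.card_replicate] at h3

/-- The dimensions of the generalized eigenspaces. -/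
theorem dim_le {p s d q : ℕ} [hfact : Fact p.Prime] (hq : ¬ p ∣ q) (hG : ∀ g : G, g ^ p ^ s = 1)
    (D : Arrangement K E r) {c : ℕ → E} (h : IsMiddle K d c Φ ρ) (B : LinearMap.BilinForm E V)
    (hB : B.Nondegenerate) (hBG : ∀ g x y, B (ρ g x) (ρ g y) = B x y)
    (hBΦ : ∀ x y, B (Φ x) (Φ y) = (q : E) ^ d * B x y) {χ : G →* E} (hχ1 : χ ≠ 1) {e : ℕ}
    (he : MultLE p (D.red p d χ) e) (α : E) :
    finrank E (Φ.maxGenEigenspace α ⊓ eig ρ χ : Submodule E V) ≤ e := by
  classical
  have hp : p.Prime := Fact.out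
  have hq0 : (q : E) ^ d ≠ 0 := by
    refine pow_ne_zero _ ?_
    intro h0
    have h1 : q = 0 := by exact_mod_cast h0
    rw [h1] at hq
    exact hq (dvd_zero p)
  rw [dim_part h.comm, LinearMap.finrank_maxGenEigenspace_eq, ← count_roots]
  by_cases hα : α ∈ (part h.comm χ).charpoly.roots
  swap
  · rw [Multiset.count_eq_zero_of_notMem hα]
    exact Nat.zero_le _
  -- the dual character
  let χ' : G →* E :=
    { toFun := fun g => χ g⁻¹
      map_one' := by rw [inv_one, map_one]
      map_mul' := fun a b => by rw [mul_inv, map_mul] }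
  have hχ' : ∀ g, χ g * χ' g = 1 := fun g => by
    change χ g * χ g⁻¹ = 1
    rw [← map_mul, mul_inv_cancel, map_one]
  have hχ'1 : χ' ≠ 1 := by
    intro h0
    apply hχ1
    ext g
    have h1 := hχ' g
    rw [h0, MonoidHom.one_apply, mul_one] at h1
    rw [h1, MonoidHom.one_apply]
  have hroot := (mem_roots (LinearMap.charpoly_monic (part h.comm χ)).ne_zero).1 hα
  obtain ⟨β, hαβ, hβ⟩ := dual_eigen h.comm B hB hBG hq0 hBΦ χ χ' hχ' hroot
  have hαi := (part_congr hp hG D h hχ1).1 α hα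
  have hβi := (part_congr hp hG D h hχ'1).1 β
    ((mem_roots (LinearMap.charpoly_monic (part h.comm χ')).ne_zero).2 hβ)
  obtain ⟨k, _, _, ⟨θ⟩⟩ := Pool.Agent.W804.HS.RD.main E p hp
  letI : Algebra (ZMod p) k := ZMod.algebra k p
  have hθ : θ ⟨α, hαi⟩ ≠ 0 := by
    intro h0
    have h1 : (⟨α, hαi⟩ : Oint E) * ⟨β, hβi⟩ = ((q : ℕ) : Oint E) ^ d := by
      apply Subtype.ext
      push_cast
      exact hαβ
    have h2 := congrArg θ h1
    rw [map_mul, h0, zero_mul, map_pow, map_natCast] at h2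
    have h3 : ((q : ℕ) : k) = 0 := by
      by_contra hne
      exact pow_ne_zero d hne h2.symm
    rw [CharP.cast_eq_zero_iff k p] at h3
    exact hq h3
  obtain ⟨A', hA'⟩ := lift_mult (part_congr hp hG D h hχ1).1
  have h1 := count_le_mult θ A' (red_eq hG D h hχ1 k θ A' hA') ⟨α, hαi⟩ hθ
  rw [hA'] at h1
  exact h1.trans (he k _)

/-- If the generalized eigenspaces on each part are eigenspaces, `Φ` is semisimple. -/
theorem semisimple_of_parts (hc : ∀ g, Commute Φ (ρ g))
    (hpart : ∀ (χ : G →* E) (α : E), (part hc χ).maxGenEigenspace α ≤ (part hc χ).eigenspace α) :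
    Φ.IsSemisimple := by
  classical
  refine Pool.Agent.TH117.HS.semisimple_of_iSup Φ ?_
  rw [eq_top_iff]
  have h1 := isotypic (ρ := ρ) (⊤ : Submodule E V) (fun g v _ => Submodule.mem_top)
  refine h1.trans (iSup_le fun χ => ?_)
  rw [top_inf_eq]
  intro v hv
  have h2 : (⟨v, hv⟩ : eig ρ χ) ∈ ⨆ α, (part hc χ).eigenspace α := by
    have h3 : (⊤ : Submodule E (eig ρ χ)) ≤ ⨆ α, (part hc χ).eigenspace α := by
      rw [← iSup_maxGenEigenspace_eq_top (part hc χ)]
      exact iSup_mono fun α => hpart χ α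
    exact h3 Submodule.mem_top
  have h3 : (⨆ α, (part hc χ).eigenspace α)
      ≤ (⨆ α, Φ.eigenspace α).comap (eig ρ χ).subtype := by
    refine iSup_le fun α w hw => ?_
    rw [Submodule.mem_comap]
    refine Submodule.mem_iSup_of_mem α ?_
    rw [mem_eigenspace_iff] at hw ⊢
    exact congrArg Subtype.val hw
  exact h3 h2

/-- A generalized eigenspace of dimension at most one. -/
lemma gen_le_of_one {W : Type} [AddCommGroup W] [Module E W] [FiniteDimensional E W]
    (Ψ : Module.End E W) (α : E) (h : finrank E (Ψ.maxGenEigenspace α) ≤ 1) :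
    Ψ.maxGenEigenspace α ≤ Ψ.eigenspace α := by
  have hle : Ψ.eigenspace α ≤ Ψ.maxGenEigenspace α := (Ψ.genEigenspace α).mono le_top
  refine le_of_eq (Submodule.eq_of_le_of_finrank_le hle ?_).symm
  rcases Nat.eq_zero_or_pos (finrank E (Ψ.maxGenEigenspace α)) with h0 | h0
  · rw [h0]
    exact Nat.zero_le _
  · rw [LinearMap.finrank_maxGenEigenspace_eq] at h0
    have hroot : Ψ.charpoly.IsRoot α :=
      (rootMultiplicity_pos (LinearMap.charpoly_monic _).ne_zero).mp h0
    have hev : Ψ.HasEigenvalue α :=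
      (Module.End.hasEigenvalue_iff_isRoot_charpoly _ α).mpr hroot
    have hne : Ψ.eigenspace α ≠ ⊥ := hev
    have h3 : 0 < finrank E (Ψ.eigenspace α) := by
      have : Nontrivial (Ψ.eigenspace α) := Submodule.nontrivial_iff_ne_bot.mpr hne
      exact Module.finrank_pos
    omega

/-- `R` has the factor `(1 - T) ^ 2` and no other multiple roots. -/
def NearlySquarefree (p : ℕ) [Fact p.Prime] (R : (ZMod p)[X]) : Prop :=
  ∃ R₁ : (ZMod p)[X], Squarefree R₁ ∧ R₁.eval 1 ≠ 0 ∧ R = (1 - X) ^ 2 * R₁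

open Classical in
lemma NearlySquarefree.mult_le {p : ℕ} [Fact p.Prime] {R : (ZMod p)[X]}
    (hR : NearlySquarefree p R) (k : Type) [Field k] [Algebra (ZMod p) k] (u : k) :
    (R.map (algebraMap (ZMod p) k)).rootMultiplicity u ≤ if u = 1 then 2 else 1 := by
  obtain ⟨R₁, h1, h2, rfl⟩ := hR
  have h10 : R₁ ≠ 0 := h1.ne_zero
  have hR₁ := multLE_of_squarefree h1 k u
  have hR₁0 : R₁.map (algebraMap (ZMod p) k) ≠ 0 :=
    (Polynomial.map_ne_zero_iff (algebraMap (ZMod p) k).injective).2 h10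
  have hX : (1 - X : k[X]) = -(X - C 1) := by rw [C_1]; ring
  have hX0 : (1 - X : k[X]) ≠ 0 := by
    rw [hX]
    exact neg_ne_zero.2 (X_sub_C_ne_zero 1)
  rw [Polynomial.map_mul, Polynomial.map_pow, Polynomial.map_sub, Polynomial.map_one,
    Polynomial.map_X]
  rw [rootMultiplicity_mul (mul_ne_zero (pow_ne_zero _ hX0) hR₁0)]
  have hsq : ((1 - X : k[X]) ^ 2).rootMultiplicity u = if u = 1 then 2 else 0 := by
    have h3 : ((1 - X : k[X]) ^ 2) = (X - C 1) ^ 2 := by rw [hX]; ring
    rw [h3]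
    split_ifs with hu
    · rw [hu, rootMultiplicity_X_sub_C_pow]
    · refine rootMultiplicity_eq_zero ?_
      rw [IsRoot.def, eval_pow, eval_sub, eval_X, eval_C]
      exact pow_ne_zero _ (sub_ne_zero.2 hu)
  rw [hsq]
  split_ifs with hu
  · have h3 : (R₁.map (algebraMap (ZMod p) k)).rootMultiplicity u = 0 := by
      refine rootMultiplicity_eq_zero ?_
      rw [hu, IsRoot.def, eval_map, eval₂_at_one]
      intro h4
      exact h2 ((map_eq_zero _).1 h4)
    omega
  · omega

/-- Semisimplicity on the part of a character of order two. -/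
theorem real_part {p s d q : ℕ} [hfact : Fact p.Prime] (hq : ¬ p ∣ q)
    (hG : ∀ g : G, g ^ p ^ s = 1)
    (D : Arrangement K E r) {c : ℕ → E} (h : IsMiddle K d c Φ ρ) (B : LinearMap.BilinForm E V)
    (hB : B.Nondegenerate) (hs : ∀ x y, B x y = B y x)
    (hBG : ∀ g x y, B (ρ g x) (ρ g y) = B x y)
    (hBΦ : ∀ x y, B (Φ x) (Φ y) = (q : E) ^ d * B x y) {χ : G →* E} (hχ1 : χ ≠ 1)
    (hχ2 : ∀ g, χ g ^ 2 = 1) (hR : NearlySquarefree p (D.red p d χ)) (α : E) :
    (part h.comm χ).maxGenEigenspace α ≤ (part h.comm χ).eigenspace α := by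
  classical
  have hp : p.Prime := Fact.out
  have hq0 : (q : E) ^ d ≠ 0 := by
    refine pow_ne_zero _ ?_
    intro h0
    have h1 : q = 0 := by exact_mod_cast h0
    rw [h1] at hq
    exact hq (dvd_zero p)
  -- the prime is two
  have hp2 : p = 2 := by
    obtain ⟨g, hg⟩ : ∃ g, χ g ≠ 1 := by
      by_contra hcon
      push Not at hcon
      exact hχ1 (MonoidHom.ext hcon)
    by_contra hne
    have hodd : Odd (p ^ s) := (hp.odd_of_ne_two hne).pow
    obtain ⟨m, hm⟩ := hodd
    apply hg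
    have h1 : χ g ^ p ^ s = 1 := by rw [← map_pow, hG, map_one]
    rw [hm, pow_add, pow_mul, hχ2, one_pow, one_mul, pow_one] at h1
    exact h1
  subst hp2
  set Ψ := part h.comm χ with hΨ
  by_cases hα : α ∈ Ψ.charpoly.roots
  swap
  · refine gen_le_of_one Ψ α ?_
    rw [LinearMap.finrank_maxGenEigenspace_eq, ← count_roots, Multiset.count_eq_zero_of_notMem hα]
    exact Nat.zero_le _
  have hroot := (mem_roots (LinearMap.charpoly_monic Ψ).ne_zero).1 hα
  have hχχ : ∀ g, χ g * χ g = 1 := fun g => by rw [← pow_two, hχ2]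
  obtain ⟨β, hαβ, hβ⟩ := dual_eigen h.comm B hB hBG hq0 hBΦ χ χ hχχ hroot
  have hβ' := (mem_roots (LinearMap.charpoly_monic Ψ).ne_zero).2 hβ
  have hint := (part_congr hp hG D h hχ1).1
  have hαi := hint α hα
  have hβi := hint β hβ'
  obtain ⟨k, _, _, ⟨θ⟩⟩ := Pool.Agent.W804.HS.RD.main E 2 hp
  letI : Algebra (ZMod 2) k := ZMod.algebra k 2
  have hθq : θ ((q : ℕ) : Oint E) = 1 := by
    rw [map_natCast]
    have h1 : Odd q := Nat.odd_iff.2 (by omega)
    obtain ⟨m, hm⟩ := h1
    have h2 : (2 : k) = 0 := CharTwo.two_eq_zero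
    rw [hm]
    push_cast
    rw [h2, zero_mul, zero_add]
  have hθ : θ ⟨α, hαi⟩ * θ ⟨β, hβi⟩ = 1 := by
    have h1 : (⟨α, hαi⟩ : Oint E) * ⟨β, hβi⟩ = ((q : ℕ) : Oint E) ^ d := by
      apply Subtype.ext
      push_cast
      exact hαβ
    rw [← map_mul, h1, map_pow, hθq, one_pow]
  have hθ0 : θ ⟨α, hαi⟩ ≠ 0 := left_ne_zero_of_mul_eq_one hθ
  obtain ⟨A', hA'⟩ := lift_mult hint
  have hred := red_eq hG D h hχ1 k θ A' hA'
  have h1 := count_le_mult θ A' hred ⟨α, hαi⟩ hθ0
  have h2 := hR.mult_le k (θ ⟨α, hαi⟩)⁻¹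
  rw [hA', ← hΨ] at h1
  by_cases hθ1 : θ ⟨α, hαi⟩ = 1
  swap
  · refine gen_le_of_one Ψ α ?_
    rw [if_neg (fun h0 => hθ1 (inv_eq_one.1 h0))] at h2
    rw [LinearMap.finrank_maxGenEigenspace_eq, ← count_roots]
    exact h1.trans h2
  rw [if_pos (by rw [hθ1, inv_one])] at h2
  have hBχ := form_part B hB hBG χ hχ2
  by_cases hαα : α * α = (q : E) ^ d
  · refine ortho_semisimple (B.restrict (eig ρ χ)) hBχ (fun x y => hs x.1 y.1) Ψ hq0
      (fun x y => hBΦ x.1 y.1) hαα ⊥ bot_le (fun x hx _ => (Submodule.mem_bot E).1 hx) ?_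
    rw [finrank_bot, zero_add, LinearMap.finrank_maxGenEigenspace_eq, ← count_roots]
    exact h1.trans h2
  · refine gen_le_of_one Ψ α ?_
    have hne : (⟨α, hαi⟩ : Oint E) ≠ ⟨β, hβi⟩ := by
      intro h0
      apply hαα
      have h3 : α = β := congrArg Subtype.val h0
      rw [← h3] at hαβ
      exact hαβ
    have hθβ : θ ⟨β, hβi⟩ = θ ⟨α, hαi⟩ := by
      rw [hθ1, one_mul] at hθ
      rw [hθ, hθ1]
    have h3 := count_two_le θ A' hred ⟨α, hαi⟩ ⟨β, hβi⟩ hne hθ0 hθβ
    rw [hA', ← hΨ] at h3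
    have h4 : 0 < Ψ.charpoly.roots.count β := Multiset.count_pos.2 hβ'
    have h5 := h3.trans (hR.mult_le k (θ ⟨α, hαi⟩)⁻¹)
    rw [if_pos (by rw [hθ1, inv_one])] at h5
    rw [LinearMap.finrank_maxGenEigenspace_eq, ← count_roots]
    simp only at h5
    omega

/-- Semisimplicity. -/
theorem semisimple {p s d q : ℕ} [hfact : Fact p.Prime] (hq : ¬ p ∣ q)
    (hG : ∀ g : G, g ^ p ^ s = 1)
    (D : Arrangement K E r) {c : ℕ → E} (h : IsMiddle K d c Φ ρ) (B : LinearMap.BilinForm E V)
    (hB : B.Nondegenerate) (hs : ∀ x y, B x y = (-1) ^ d * B y x)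
    (hBG : ∀ g x y, B (ρ g x) (ρ g y) = B x y)
    (hBΦ : ∀ x y, B (Φ x) (Φ y) = (q : E) ^ d * B x y)
    (he : ∀ χ : G →* E, χ ≠ 1 → Squarefree (D.red p d χ) ∨
      Even d ∧ (∀ g, χ g ^ 2 = 1) ∧ NearlySquarefree p (D.red p d χ))
    (hY : (part h.comm 1).IsSemisimple) : Φ.IsSemisimple := by
  classical
  refine semisimple_of_parts h.comm fun χ α => ?_
  by_cases hχ : χ = 1
  · rw [hχ]
    exact le_of_eq (hY.isFinitelySemisimple.maxGenEigenspace_eq_eigenspace α)
  · rcases he χ hχ with h1 | ⟨hd, h1, h2⟩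
    · refine gen_le_of_one _ α ?_
      have h2 := dim_le hq hG D h B hB hBG hBΦ hχ (multLE_of_squarefree h1) α
      rwa [dim_part h.comm] at h2
    · refine real_part hq hG D h B hB (fun x y => ?_) hBG hBΦ hχ h1 h2 α
      rw [hs, hd.neg_one_pow, one_mul]

end Pool.Agent.J6H31.GA
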