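import Pool.Agent.J6H31.GA.Tower

/-!
# Tate classes and actions of finite abelian `p`-groups: the notions in the statement
-/

set_option autoImplicit false
set_option linter.unusedSectionVars false

namespace Pool.Agent.J6H31.GA

open Finset Polynomial Module Module.End Pool.Agent.W528.HS Pool.Agent.J6H31.AC

variable {G : Type} [CommGroup G] {K : Covering G} {q : ℕ} {E : Type} [Field E] {r : ℕ}

open Classical in
/-- The bound `m(χ)` for `χ ≠ 1`, and `m(1) - 2` for `χ = 1`. -/
noncomputable def Branch.bound (D : Branch K q E r) (p : ℕ) (χ : G →* E) : ℤ :=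
  D.mult p χ - if χ = 1 then 2 else 0

/-- `μ(Y) = 3`, the class numbers of the curves `Z_j` are prime to `p`, and `Z_i ∩ Z_j` is one closed
point of degree prime to `p` for `i < j`. -/
structure Branch.Good (D : Branch K q E r) (p : ℕ) : Prop where
  base : rootMod p D.P₁ = 3 + rootMod p D.P₂
  curve : ∀ j, ¬ (p : ℤ) ∣ (D.P j).eval 1
  inter : ∀ i j : Fin r, i < j → ∃ f : ℕ, D.S i j = {f} ∧ ¬ p ∣ f

/-- The form `B` has the properties of the intersection form: it is nondegenerate and invariant, and
`B(Φ x, Φ y) = q² B(x, y)`. -/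
structure IsForm {V : Type} [AddCommGroup V] [Module E V] (q : ℕ) (Φ : Module.End E V)
    (ρ : G →* Module.End E V) (B : LinearMap.BilinForm E V) : Prop where
  nondeg : B.Nondegenerate
  group : ∀ g x y, B (ρ g x) (ρ g y) = B x y
  frob : ∀ x y, B (Φ x) (Φ y) = (q : E) ^ 2 * B x y

/-- The second cohomology `V` of the surface with the Frobenius `Φ`, the action `ρ` of the group and
the intersection form `B`. -/
structure H2 (K : Covering G) (q : ℕ) (E : Type) [Field E] where
  V : Type
  [add : AddCommGroup V]
  [mod : Module E V]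
  [fin : FiniteDimensional E V]
  Φ : Module.End E V
  ρ : G →* Module.End E V
  B : LinearMap.BilinForm E V
  isH2 : IsH2 K q Φ ρ
  isForm : IsForm q Φ ρ B

attribute [instance] H2.add H2.mod H2.fin

variable (H : H2 K q E)

/-- The sum of the dimensions of the generalized eigenspaces of Frobenius on the part of `χ` for the
eigenvalues `q ζ`, `ζ ^ n = 1`. -/
noncomputable def H2.tateDim (n : ℕ) (χ : G →* E) : ℕ := GA.tateDim H.Φ H.ρ q n χ

/-- The sum of the generalized eigenspaces of Frobenius for the eigenvalues `q ζ`, `ζ ^ n = 1`. It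
contains the classes which are fixed by the `n`-th power of Frobenius (on the twisted cohomology). -/
noncomputable def H2.tateSpace (n : ℕ) : Submodule E H.V := GA.tateSpace H.Φ q n

/-- `1` if `p = 2`, `b = 0`, `χ² = 1` and the determinant of Frobenius on the part of `χ` is
`-q ^ dim`; `0` otherwise. -/
noncomputable def H2.sign [Fintype G] (p b : ℕ) (χ : G →* E) : ℤ := signTerm H.Φ H.ρ q p b χ

/-- The Tate conjecture for divisors over the extension of degree `n`, see `GA.TateHolds`. -/
def H2.TateHolds (N : Submodule E H.V) (n : ℕ) : Prop := GA.TateHolds H.Φ N q n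

/-- `P = ∏ (1 - x T)` for the eigenvalues `x` of Frobenius. -/
def H2.IsRevChar (P : ℤ[X]) : Prop := IsFactored P H.Φ.charpoly.roots

/-- `v` is a nonzero class with `Φ v = q v`. -/
def H2.IsTateClass (v : H.V) : Prop := v ≠ 0 ∧ H.Φ v = (q : E) • v

open Classical in
/-- The sum of the bounds for the nontrivial characters. -/
noncomputable def Branch.total [Fintype G] [Fintype (G →* E)] (D : Branch K q E r) (H : H2 K q E)
    (p b : ℕ) : ℤ :=
  ∑ χ ∈ univ.erase (1 : G →* E), (D.bound p χ - H.sign p b χ)

end Pool.Agent.J6H31.GA
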