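import Pool.Agent.J6H31.GA.Semi

/-!
# The cohomology in the middle degree: the notions in the statements
-/

set_option autoImplicit false
set_option linter.unusedSectionVars false

namespace Pool.Agent.J6H31.GA

open Finset Polynomial Module Module.End Pool.Agent.W528.HS Pool.Agent.J6H31.AC

variable {G : Type} [CommGroup G] {K : Covering G} {d q : ℕ} {E : Type} [Field E] {r : ℕ}

section

variable {V : Type} [AddCommGroup V] [Module E V]

/-- `B(Ψ x, Ψ y) = c B(x, y)`. -/
def Similitude (B : LinearMap.BilinForm E V) (Ψ : Module.End E V) (c : E) : Prop :=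
  ∀ x y, B (Ψ x) (Ψ y) = c * B x y

/-- `B(x, y) = ε B(y, x)`. -/
def HasSymmetry (B : LinearMap.BilinForm E V) (ε : E) : Prop := ∀ x y, B x y = ε * B y x

/-- The form `B` has the properties of the pairing of Poincaré duality on the cohomology in the middle
degree `d`: it is nondegenerate, symmetric for even `d`, alternating for odd `d`, invariant under the
group, and `B(Φ x, Φ y) = q ^ d B(x, y)`. -/
structure IsPairing (d q : ℕ) (Φ : Module.End E V) (ρ : G →* Module.End E V)
    (B : LinearMap.BilinForm E V) : Prop where
  nondeg : B.Nondegenerate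
  symm : HasSymmetry B ((-1) ^ d)
  group : ∀ g, Similitude B (ρ g) 1
  frob : Similitude B Φ ((q : E) ^ d)

/-- `∏ (1 - x T)`, the product over the `x` in `A`, with the coefficients reduced by `θ`. -/
noncomputable def redProd {k : Type} [Field k] (θ : Oint E →+* k) (A : Multiset (Oint E)) : k[X] :=
  (A.map fun x => 1 - C (θ x) * X).prod

/-- The eigenvalues `x` of `Ψ` are algebraic integers, and `R` is the reduction of the product of the
`1 - x T` modulo all places above `p`. -/
def Reduces [FiniteDimensional E V] (Ψ : Module.End E V) (p : ℕ) [Fact p.Prime]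
    (R : (ZMod p)[X]) : Prop :=
  (∀ x ∈ Ψ.charpoly.roots, IsIntegral ℤ x) ∧
  ∀ (k : Type) [Field k] [Algebra (ZMod p) k] (θ : Oint E →+* k) (A : Multiset (Oint E)),
    A.map Subtype.val = Ψ.charpoly.roots → redProd θ A = R.map (algebraMap (ZMod p) k)

/-- The dimension of the generalized eigenspace of `Φ` for the eigenvalue `α` on the part of `χ`. -/
noncomputable def genDim (Φ : Module.End E V) (ρ : G →* Module.End E V) (χ : G →* E) (α : E) : ℕ :=
  finrank E (Φ.maxGenEigenspace α ⊓ eig ρ χ : Submodule E V)

end

/-- The cohomology `V` in the middle degree `d` of a variety of dimension `d` over a field with `q`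
elements, with the Frobenius `Φ`, the action `ρ` of the group and the pairing `B` of Poincaré duality;
`c n` is the contribution of the other degrees to the Lefschetz formula for the `n`-th power of
Frobenius. -/
structure Middle (K : Covering G) (d q : ℕ) (E : Type) [Field E] where
  V : Type
  [add : AddCommGroup V]
  [mod : Module E V]
  [fin : FiniteDimensional E V]
  Φ : Module.End E V
  ρ : G →* Module.End E V
  B : LinearMap.BilinForm E V
  c : ℕ → E
  isMiddle : IsMiddle K d c Φ ρ
  isPairing : IsPairing d q Φ ρ B

attribute [instance] Middle.add Middle.mod Middle.fin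

variable (H : Middle K d q E)

/-- The restriction of Frobenius to the part of `χ`. -/
noncomputable def Middle.part (χ : G →* E) : Module.End E (eig H.ρ χ) :=
  GA.part H.isMiddle.comm χ

/-- `R` is the reduction of the characteristic polynomial of Frobenius on the part of `χ` modulo all
places above `p`. -/
def Middle.HasReduction (p : ℕ) [Fact p.Prime] (χ : G →* E) (R : (ZMod p)[X]) : Prop :=
  Reduces (H.part χ) p R

/-- The dimension of the generalized eigenspace of Frobenius for the eigenvalue `α` on the part of
`χ`. -/
noncomputable def Middle.mult (χ : G →* E) (α : E) : ℕ := genDim H.Φ H.ρ χ α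

/-- `red_χ` is squarefree, or `d` is even, `χ² = 1` and `red_χ` is the product of `(1 - T) ^ 2` and a
squarefree polynomial which does not vanish at `1`. -/
def Arrangement.Mild (D : Arrangement K E r) (p d : ℕ) [Fact p.Prime] (χ : G →* E) : Prop :=
  Squarefree (D.red p d χ) ∨
    Even d ∧ (∀ g, χ g ^ 2 = 1) ∧ NearlySquarefree p (D.red p d χ)

lemma Middle.group (g : G) (x y : H.V) : H.B (H.ρ g x) (H.ρ g y) = H.B x y := by
  rw [H.isPairing.group g x y, one_mul]

end Pool.Agent.J6H31.GA
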