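import Pool.Agent.J6H31.GA.StmM
import Pool.Agent.J6H31.GA.Weak

/-!
# The eigenvalue `q ^ m` on the cohomology of degree `2 m`: the notions in the statements
-/

set_option autoImplicit false
set_option linter.unusedSectionVars false

namespace Pool.Agent.J6H31.GA

open Finset Polynomial Module Module.End Pool.Agent.W528.HS Pool.Agent.J6H31.AC

variable {G : Type} [CommGroup G] {K : Covering G} {m q : ℕ} {E : Type} [Field E] {r : ℕ}

/-- `m(χ)`, the alternating sum of the orders of the poles at `T = q ^ (-m)` of the zeta functions modulo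
`p` of the intersections of the `Z_j` at which `χ` is ramified. -/
noncomputable def Arrangement.tateMult (D : Arrangement K E r) (p q m : ℕ) [Fact p.Prime]
    (χ : G →* E) : ℤ := D.mult p ((q : ZMod p) ^ m)⁻¹ χ

section

variable {W : Type} [AddCommGroup W] [Module E W]

/-- `(Ψ - α) ^ e` vanishes on the generalized eigenspace of `Ψ` for the eigenvalue `α`. -/
def KillsGen (Ψ : Module.End E W) (α : E) (e : ℕ) : Prop :=
  ∀ x ∈ Ψ.maxGenEigenspace α, ((Ψ - α • (1 : Module.End E W)) ^ e) x = 0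

/-- The dimension of the part of `N` on which the group acts by `χ`. -/
noncomputable def charDim (ρ : G →* Module.End E W) (N : Submodule E W) (χ : G →* E) : ℕ :=
  finrank E (N ⊓ eig ρ χ : Submodule E W)

end

variable (H : Middle K (2 * m) q E)

/-- `N` is stable under the group, `Φ x = q ^ m x` for the `x` in `N`, and the pairing is nondegenerate
on `N`. -/
def Middle.IsAlg (N : Submodule E H.V) : Prop := IsAlgebraic H.B H.Φ H.ρ ((q : E) ^ m) N

/-- The dimension of the part of `N` on which the group acts by `χ`. -/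
noncomputable def Middle.rank (N : Submodule E H.V) (χ : G →* E) : ℕ := charDim H.ρ N χ

/-- `1` if `p = 2`, `χ² = 1` and the determinant of Frobenius on the part of `χ` is
`-(q ^ m) ^ dim`; `0` otherwise. -/
noncomputable def Middle.sgn [Fintype G] (p : ℕ) (χ : G →* E) : ℕ :=
  detTerm H.Φ H.ρ ((q : E) ^ m) p χ

/-- `m(χ) - sgn χ - rank N_χ ≤ e`, or `χ² = 1`, `e` is odd and `m(χ) - sgn χ - rank N_χ ≤ e + 1`. -/
def Middle.Small [Fintype G] (D : Arrangement K E r) (p : ℕ) [Fact p.Prime]
    (N : Submodule E H.V) (χ : G →* E) (e : ℕ) : Prop :=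
  D.tateMult p q m χ ≤ H.rank N χ + H.sgn p χ + e ∨
    (∀ g, χ g ^ 2 = 1) ∧ Odd e ∧ D.tateMult p q m χ ≤ H.rank N χ + H.sgn p χ + e + 1

/-- `(Φ - q ^ m) ^ e` vanishes on the generalized eigenspace of Frobenius on the part of `χ` for the
eigenvalue `q ^ m`. -/
def Middle.Kills (χ : G →* E) (e : ℕ) : Prop := KillsGen (H.part χ) ((q : E) ^ m) e

/-- Frobenius is semisimple at the eigenvalue `q ^ m`: the generalized eigenspace is the
eigenspace. -/
def Middle.SemisimpleAt : Prop :=
  H.Φ.maxGenEigenspace ((q : E) ^ m) = H.Φ.eigenspace ((q : E) ^ m)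

/-- `red_χ = (1 - q ^ m T) ^ j R`, `R` squarefree and `R(q ^ (-m)) ≠ 0`, with
`j ≤ rank N_χ + 1`, or `χ² = 1` and `j ≤ rank N_χ + 2`. -/
def Middle.Mild (D : Arrangement K E r) (p : ℕ) [Fact p.Prime] (N : Submodule E H.V)
    (χ : G →* E) : Prop :=
  ∃ j : ℕ, AlmostSquarefree p ((q : ZMod p) ^ m) j (D.red p (2 * m) χ) ∧
    (j ≤ H.rank N χ + 1 ∨ (∀ g, χ g ^ 2 = 1) ∧ j ≤ H.rank N χ + 2)

end Pool.Agent.J6H31.GA
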