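import Pool.Agent.J6H31.GA.Final

/-!
# The multiplicity for the whole surface, and the multiplicities in the main examples
-/

set_option autoImplicit false
set_option linter.unusedSectionVars false

namespace Pool.Agent.J6H31.GA

open Finset Polynomial Module Module.End Pool.Agent.W528.HS Pool.Agent.J6H31.AC

lemma two_mul_card_pairs {r : ℕ} (J : Finset (Fin r)) :
    2 * (pairs J).card = J.card * J.card - J.card := by
  classical
  rw [← Finset.offDiag_card]
  have h1 : J.offDiag = pairs J ∪ (pairs J).image Prod.swap := by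
    ext ⟨x, y⟩
    simp only [Finset.mem_offDiag, pairs, Finset.mem_union, Finset.mem_filter, Finset.mem_product,
      Finset.mem_image, Prod.exists, Prod.swap_prod_mk, Prod.mk.injEq]
    constructor
    · rintro ⟨hx, hy, hne⟩
      rcases lt_or_gt_of_ne hne with h | h
      · exact Or.inl ⟨⟨hx, hy⟩, h⟩
      · exact Or.inr ⟨y, x, ⟨⟨hy, hx⟩, h⟩, rfl, rfl⟩
    · rintro (⟨⟨hx, hy⟩, h⟩ | ⟨a, b, ⟨⟨ha, hb⟩, h⟩, rfl, rfl⟩)
      · exact ⟨hx, hy, h.ne⟩
      · exact ⟨hb, ha, h.ne'⟩
  have h2 : Disjoint (pairs J) ((pairs J).image Prod.swap) := by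
    rw [Finset.disjoint_left]
    rintro ⟨x, y⟩ h h'
    rw [Finset.mem_image] at h'
    obtain ⟨⟨a, b⟩, hab, he⟩ := h'
    simp only [Prod.swap_prod_mk, Prod.mk.injEq] at he
    obtain ⟨rfl, rfl⟩ := he
    have h3 := (Finset.mem_filter.1 h).2
    have h4 := (Finset.mem_filter.1 hab).2
    exact lt_asymm h3 h4
  rw [h1, Finset.card_union_of_disjoint h2, Finset.card_image_of_injective _ Prod.swap_injective]
  ring

section

variable {G : Type} [CommGroup G] {K : Covering G} {q : ℕ} {E : Type} [Field E] {r : ℕ}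

/-- The multiplicity if the class numbers and the degrees of the points of intersection are prime
to `p`. -/
theorem Branch.mult_eq (D : Branch K q E r) {p : ℕ} (hp : p.Prime)
    (hY : rootMod p D.P₁ = 3 + rootMod p D.P₂)
    (hZ : ∀ j, ¬ (p : ℤ) ∣ (D.P j).eval 1)
    (hS : ∀ i j : Fin r, i < j → ∃ f : ℕ, D.S i j = {f} ∧ ¬ p ∣ f) (χ : G →* E) :
    2 * D.mult p χ = 6 - 5 * ((D.ram χ).card : ℤ) + ((D.ram χ).card : ℤ) ^ 2 := by
  classical
  have hfact : Fact p.Prime := ⟨hp⟩
  unfold Branch.mult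
  unfold rootMod at hY ⊢
  have h1 : ∑ j ∈ D.ram χ, (((D.P j).map (Int.castRingHom (ZMod p))).rootMultiplicity 1 : ℤ)
      = 0 := by
    refine Finset.sum_eq_zero fun j _ => ?_
    have h0 : ((D.P j).map (Int.castRingHom (ZMod p))).rootMultiplicity 1 = 0 := by
      apply rootMultiplicity_eq_zero
      intro h
      apply hZ j
      rw [IsRoot.def, eval_map, ← map_one (Int.castRingHom (ZMod p)), eval₂_at_apply] at h
      exact (ZMod.intCast_zmod_eq_zero_iff_dvd _ p).mp (by simpa using h)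
    rw [h0]
    rfl
  have h2 : ∑ x ∈ pairs (D.ram χ), (((D.S x.1 x.2).map fun f => p ^ padicValNat p f).sum : ℤ)
      = ((pairs (D.ram χ)).card : ℤ) := by
    rw [Finset.card_eq_sum_ones]
    push_cast
    refine Finset.sum_congr rfl fun x hx => ?_
    obtain ⟨f, hf, hpf⟩ := hS x.1 x.2 (Finset.mem_filter.1 hx).2
    rw [hf, Multiset.map_singleton, Multiset.map_singleton, Multiset.sum_singleton,
      padicValNat.eq_zero_of_not_dvd hpf]
    simp
  have h3 : 2 * ((pairs (D.ram χ)).card : ℤ)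
      = ((D.ram χ).card : ℤ) * (D.ram χ).card - (D.ram χ).card := by
    have h4 := two_mul_card_pairs (D.ram χ)
    have h5 : (D.ram χ).card ≤ (D.ram χ).card * (D.ram χ).card := Nat.le_mul_self _
    have h6 : ((2 * (pairs (D.ram χ)).card : ℕ) : ℤ)
        = (((D.ram χ).card * (D.ram χ).card - (D.ram χ).card : ℕ) : ℤ) := by rw [h4]
    rw [Nat.cast_sub h5] at h6
    push_cast at h6
    exact h6
  rw [h1, h2, hY]
  push_cast
  linear_combination h3

lemma ram_one (D : Branch K q E r) : D.ram 1 = ∅ := by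
  classical
  unfold Branch.ram
  rw [Finset.filter_eq_empty_iff]
  rintro j - ⟨g, -, hg⟩
  exact hg (MonoidHom.one_apply g)

end

variable {G : Type} [CommGroup G] [Fintype G] {K : Covering G} {q : ℕ} {E : Type} [Field E]
  [CharZero E] [IsAlgClosed E] {r : ℕ} {V : Type} [AddCommGroup V] [Module E V]
  [FiniteDimensional E V] {Φ : Module.End E V} {ρ : G →* Module.End E V}

/-- The eigenvalues on the whole space. -/
theorem cnt_total [Fintype (G →* E)] (hc : ∀ g, Commute Φ (ρ g)) {k : Type} [Field k]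
    (θ : Oint E →+* k) : cnt θ Φ.charpoly.roots
      ≤ ∑ χ : G →* E, cnt θ (part hc χ).charpoly.roots := by
  classical
  set A := Φ.charpoly.roots with hA
  let Xs : Finset E := A.toFinset.filter fun x => ∃ h : x ∈ Oint E, θ ⟨x, h⟩ = 1
  have hcount : ∀ M : Multiset E, ∑ x ∈ Xs, M.count x = (M.filter fun x => x ∈ Xs).card := by
    intro M
    rw [← Multiset.toFinset_sum_count_eq]
    have h1 : ∀ x ∈ Xs, M.count x = (M.filter fun x => x ∈ Xs).count x := fun x hx => by
      rw [Multiset.count_filter, if_pos hx]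
    rw [Finset.sum_congr rfl h1]
    symm
    refine Finset.sum_subset (fun x hx => ?_) (fun x _ hx => ?_)
    · rw [Multiset.mem_toFinset, Multiset.mem_filter] at hx
      exact hx.2
    · rw [Multiset.mem_toFinset] at hx
      exact Multiset.count_eq_zero_of_notMem hx
  have h1 : cnt θ A = ∑ x ∈ Xs, A.count x := by
    rw [hcount A]
    unfold cnt
    congr 1
    refine Multiset.filter_congr fun x hx => ?_
    rw [Finset.mem_filter, Multiset.mem_toFinset]
    exact ⟨fun h => ⟨hx, h⟩, fun h => h.2⟩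
  have h2 : ∀ x, A.count x ≤ ∑ χ : G →* E, (part hc χ).charpoly.roots.count x := by
    intro x
    rw [hA, count_roots, ← LinearMap.finrank_maxGenEigenspace_eq]
    have h3 := isotypic (ρ := ρ) (Φ.maxGenEigenspace x) (fun g v hv =>
      Module.End.mapsTo_maxGenEigenspace_of_comm (hc g) _ hv)
    have h4 : Φ.maxGenEigenspace x
        ≤ ⨆ χ ∈ (univ : Finset (G →* E)), Φ.maxGenEigenspace x ⊓ eig ρ χ := by
      refine h3.trans (iSup_le fun χ => ?_)
      exact le_iSup₂_of_le χ (mem_univ _) le_rfl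
    refine ((Submodule.finrank_mono h4).trans (finrank_iSup_le _ _)).trans ?_
    refine Finset.sum_le_sum fun χ _ => ?_
    rw [dim_part hc, LinearMap.finrank_maxGenEigenspace_eq, count_roots]
  rw [h1]
  refine (Finset.sum_le_sum fun x _ => h2 x).trans ?_
  rw [Finset.sum_comm]
  refine Finset.sum_le_sum fun χ _ => ?_
  rw [hcount]
  refine cnt_le θ (Multiset.filter_le _ _) fun x hx => ?_
  exact (Finset.mem_filter.1 (Multiset.mem_filter.1 hx).2).2

open Classical in
/-- The multiplicity of the whole surface. -/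
theorem rm_total [Fintype (G →* E)] {p s : ℕ} (hp : p.Prime) (hG : ∀ g : G, g ^ p ^ s = 1)
    (hq : q ≡ 1 [MOD p]) (D : Branch K q E r) (h : IsH2 K q Φ ρ) (P : ℤ[X])
    (hP0 : P.coeff 0 = 1)
    (hP : P.map (Int.castRingHom E) = (Φ.charpoly.roots.map fun x => 1 - C x * X).prod) :
    (rootMod p P : ℤ) + 2 ≤ ∑ χ : G →* E, D.mult p χ := by
  unfold rootMod
  have hfact : Fact p.Prime := ⟨hp⟩
  obtain ⟨k, _, _, ⟨θ⟩⟩ := Pool.Agent.W804.HS.RD.main E p hp
  obtain ⟨A', e⟩ := lift_mult (integral_of_poly hP0 hP)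
  have h1 := (rm_lift θ A').1
  rw [red_prod hP e θ, e] at h1
  change rm k P = _ at h1
  rw [← rm_eq p k P, h1]
  have h2 := cnt_total h.comm θ
  have h3 : (cnt θ Φ.charpoly.roots : ℤ)
      ≤ ∑ χ : G →* E, (cnt θ (part h.comm χ).charpoly.roots : ℤ) := by exact_mod_cast h2
  have h4 : ∑ χ : G →* E, D.mult p χ
      = ∑ χ : G →* E, (cnt θ (part h.comm χ).charpoly.roots : ℤ) + 2 := by
    rw [Finset.sum_congr rfl fun χ _ => ((cnt_part hp hG hq D h χ).2 k θ).symm,
      Finset.sum_add_distrib]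
    congr 1
    rw [Finset.sum_ite_eq' univ (1 : G →* E) (fun _ => (2 : ℤ)), if_pos (mem_univ _)]
  rw [h4]
  linarith

/-- An eigenvalue `q` gives a root. -/
theorem rm_pos {p : ℕ} (hp : p.Prime) (hq : q ≡ 1 [MOD p]) {v : V} (hv0 : v ≠ 0)
    (hv : Φ v = (q : E) • v) (P : ℤ[X]) (hP0 : P.coeff 0 = 1)
    (hP : P.map (Int.castRingHom E) = (Φ.charpoly.roots.map fun x => 1 - C x * X).prod) :
    0 < rootMod p P := by
  classical
  unfold rootMod
  have hfact : Fact p.Prime := ⟨hp⟩
  obtain ⟨k, _, _, ⟨θ⟩⟩ := Pool.Agent.W804.HS.RD.main E p hp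
  obtain ⟨A', e⟩ := lift_mult (integral_of_poly hP0 hP)
  have h1 := (rm_lift θ A').1
  rw [red_prod hP e θ, e] at h1
  change rm k P = _ at h1
  rw [← rm_eq p k P, h1]
  have h2 : ({(q : E)} : Multiset E) ≤ Φ.charpoly.roots := by
    rw [Multiset.singleton_le, mem_roots (LinearMap.charpoly_monic Φ).ne_zero,
      ← Module.End.hasEigenvalue_iff_isRoot_charpoly]
    exact hasEigenvalue_of_hasEigenvector ⟨mem_eigenspace_iff.2 hv, hv0⟩
  have h3 := cnt_le θ h2 (fun x hx => by
    rw [Multiset.mem_singleton] at hx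
    exact theta_tate (p := p) (b := 0) hq θ (by rw [hx]))
  rw [Multiset.card_singleton] at h3
  exact h3

end Pool.Agent.J6H31.GA
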